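import Mathlib

/-!
# MP_fa09f8_nt, theorem C: definitions

Counting `n ≤ X` with `φ(n) = φ(n+1)`.
-/

set_option autoImplicit false

namespace Pool.Agent.Cnt

open Finset

open Classical in
/-- prime powers `2 ≤ P ≤ X` -/
noncomputable def PP (X : ℕ) : Finset ℕ := (Icc 2 X).filter IsPrimePow

/-- the part of `v` composed of primes `≤ w` -/
def sm (w v : ℕ) : ℕ := ∏ p ∈ v.primeFactors.filter (fun p => p ≤ w), p ^ v.factorization p

/-- the part of `v` composed of primes `> w` -/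
def ro (w v : ℕ) : ℕ := ∏ p ∈ v.primeFactors.filter (fun p => w < p), p ^ v.factorization p

/-- number of prime factors with multiplicity -/
def Om (n : ℕ) : ℕ := n.primeFactorsList.length

/-- number of different prime factors -/
def om (n : ℕ) : ℕ := n.primeFactors.card

/-- the solutions up to `X` -/
def Sol (X : ℕ) : Finset ℕ := (Icc 1 X).filter fun n => n.totient = (n + 1).totient

/-- `1 + ∑_{P ≤ X} sm(φ(P))^s / P` -/
noncomputable def VV (X w : ℕ) (s : ℝ) : ℝ := 1 + ∑ P ∈ PP X, (sm w P.totient : ℝ) ^ s / P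

open Classical in
/-- many prime factors -/
noncomputable def E1 (X K : ℕ) : Finset ℕ := (Icc 1 (X + 1)).filter fun N => K ≤ om N

open Classical in
/-- a divisor `m` with small rough part of `φ(m)` -/
noncomputable def E2 (X T w K : ℕ) : Finset ℕ := (Icc 1 (X + 1)).filter fun N =>
  ∃ m ∈ Icc (T ^ 120) (T ^ 3000), m ∣ N ∧ om m < K ∧ ro w m.totient < T ^ 30

open Classical in
/-- a large square divisor -/
noncomputable def E3 (X T : ℕ) : Finset ℕ := (Icc 1 (X + 1)).filter fun N =>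
  ∃ f : ℕ, T ^ 1800 < f ∧ f ^ 2 ∣ N

/-- `N` and `N'` are consecutive -/
def Nb (N N' : ℕ) : Prop := N' = N + 1 ∨ N = N' + 1

open Classical in
/-- case (a): composite divisors `m' ∣ N`, `m ∣ N'` with a common divisor `δ` of `φ(m')`, `φ(m)` -/
noncomputable def E4a (X T w : ℕ) : Finset ℕ := (Icc 1 (X + 1)).filter fun N =>
  ∃ N' m' m δ : ℕ, Nb N N' ∧ 1 ≤ N' ∧ m' ∈ Icc (T ^ 120) (T ^ 3000) ∧ m' ∣ N ∧ 1 ≤ m ∧ m ≤ T ^ 6001 ∧ m ∣ N' ∧
    δ ∣ ro w m'.totient ∧ δ ∣ m.totient ∧ T ^ 10 ≤ δ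

open Classical in
/-- case (b): a large prime `p ∣ N'` with `δ ∣ p - 1` -/
noncomputable def E4b (X T w : ℕ) : Finset ℕ := (Icc 1 (X + 1)).filter fun N =>
  ∃ N' m' p δ : ℕ, Nb N N' ∧ 1 ≤ N' ∧ N' ≤ X + 1 ∧ N.totient = N'.totient ∧ m' ∈ Icc (T ^ 120) (T ^ 3000) ∧ m' ∣ N ∧
    p.Prime ∧ T ^ 6001 < p ∧ p ∣ N' ∧ δ ∣ ro w m'.totient ∧ δ ∣ p - 1 ∧ T ^ 10 ≤ δ

/-- `N` has a divisor in `[T^120, T^3000]` -/
def HasMid (T N : ℕ) : Prop := ∃ m ∈ Icc (T ^ 120) (T ^ 3000), m ∣ N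

/-- `N` has a large square divisor -/
def HasSq (T N : ℕ) : Prop := ∃ f : ℕ, T ^ 1800 < f ∧ f ^ 2 ∣ N

open Classical in
/-- neither `n` nor `n+1` has a middle divisor -/
noncomputable def E5 (X T : ℕ) : Finset ℕ := (Sol X).filter fun n =>
  T ^ 120 ≤ n ∧ ¬ HasMid T n ∧ ¬ HasMid T (n + 1) ∧ ¬ HasSq T n ∧ ¬ HasSq T (n + 1)

end Pool.Agent.Cnt
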