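import Pool.Agent.Cnt.Smooth

/-! # Theorem C: divisors -/

set_option autoImplicit false

namespace Pool.Agent.Cnt

open Finset

-- MODULE c_dv
private theorem c_dv_one : Om 1 = 0 := by
  unfold Om
  simp

private theorem c_dv_prime {p : ℕ} (hp : p.Prime) : Om p = 1 := by
  unfold Om
  rw [Nat.primeFactorsList_prime hp]
  rfl

/-- `∑_{g ∣ d} t^Ω(g) ≤ (1+t)^Ω(d)` -/
theorem sum_div_pow {d : ℕ} (hd : d ≠ 0) (t : ℝ) (ht : 0 ≤ t) :
    ∑ g ∈ d.divisors, t ^ Om g ≤ (1 + t) ^ Om d := by
  classical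
  induction d using induction_on_primes with
  | zero => exact absurd rfl hd
  | one => simp [c_dv_one]
  | prime_mul p m hp ih =>
    have hp' : p.Prime := hp
    have hm : m ≠ 0 := by
      rintro rfl
      exact hd (by simp)
    have hp0 : p ≠ 0 := hp'.ne_zero
    have hsub : (p * m).divisors ⊆ m.divisors ∪ m.divisors.image (fun g => p * g) := by
      intro g hg
      have hg1 : g ∣ p * m := Nat.dvd_of_mem_divisors hg
      by_cases hpg : p ∣ g
      · obtain ⟨k, rfl⟩ := hpg
        refine Finset.mem_union_right _ (Finset.mem_image.2 ⟨k, ?_, rfl⟩)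
        exact Nat.mem_divisors.2 ⟨Nat.dvd_of_mul_dvd_mul_left hp'.pos hg1, hm⟩
      · refine Finset.mem_union_left _ (Nat.mem_divisors.2 ⟨?_, hm⟩)
        have hco : Nat.Coprime g p := ((Nat.Prime.coprime_iff_not_dvd hp').2 hpg).symm
        exact hco.dvd_of_dvd_mul_left hg1
    refine (Finset.sum_le_sum_of_subset_of_nonneg hsub (fun i _ _ => by positivity)).trans ?_
    have hun : ∑ g ∈ m.divisors ∪ m.divisors.image (fun g => p * g), t ^ Om g ≤
        ∑ g ∈ m.divisors, t ^ Om g + ∑ g ∈ m.divisors.image (fun g => p * g), t ^ Om g := by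
      rw [← Finset.sum_union_inter]
      have : 0 ≤ ∑ g ∈ m.divisors ∩ m.divisors.image (fun g => p * g), t ^ Om g :=
        Finset.sum_nonneg fun i _ => by positivity
      linarith
    refine hun.trans ?_
    rw [Finset.sum_image (fun a _ b _ hab => Nat.eq_of_mul_eq_mul_left hp'.pos hab)]
    have h1 : ∑ g ∈ m.divisors, t ^ Om (p * g) = t * ∑ g ∈ m.divisors, t ^ Om g := by
      rw [Finset.mul_sum]
      refine Finset.sum_congr rfl fun g hg => ?_
      have hg0 : g ≠ 0 := (Nat.pos_of_mem_divisors hg).ne'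
      rw [Om_mul hp0 hg0, c_dv_prime hp', pow_add, pow_one]
    rw [h1, Om_mul hp0 hm, c_dv_prime hp', pow_add, pow_one]
    have h2 := ih hm
    nlinarith

theorem card_divisors_le {d : ℕ} (hd : d ≠ 0) : d.divisors.card ≤ 2 ^ Om d := by
  have h := sum_div_pow hd 1 (by norm_num)
  simp only [one_pow, Finset.sum_const, nsmul_eq_mul, mul_one] at h
  have h2 : (1 + 1 : ℝ) = 2 := by norm_num
  rw [h2] at h
  exact_mod_cast h

end Pool.Agent.Cnt
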