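import Pool.Agent.Cnt.Defs

/-! # Theorem C: sums over integers with `k` prime factors -/

set_option autoImplicit false

namespace Pool.Agent.Cnt

open Finset

/-- `U_k = ∑_{m ≤ X, ω(m) = k} G(m)/m` -/
noncomputable def UU (X k : ℕ) (G : ℕ → ℝ) : ℝ := ∑ m ∈ (Icc 1 X).filter (fun m => om m = k), G m / m

private theorem u_comp {m p : ℕ} (hm : m ≠ 0) (hp : p ∈ m.primeFactors) :
    IsPrimePow (p ^ m.factorization p) ∧ m / p ^ m.factorization p ≠ 0 ∧
      (p ^ m.factorization p).Coprime (m / p ^ m.factorization p) ∧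
      p ^ m.factorization p * (m / p ^ m.factorization p) = m ∧
      (m / p ^ m.factorization p).primeFactors = m.primeFactors.erase p := by
  have hpp := Nat.prime_of_mem_primeFactors hp
  have hpd := Nat.dvd_of_mem_primeFactors hp
  have hf : m.factorization p ≠ 0 := (hpp.factorization_pos_of_dvd hm hpd).ne'
  refine ⟨hpp.isPrimePow.pow hf, (Nat.ordCompl_pos p hm).ne', ?_, Nat.ordProj_mul_ordCompl_eq_self m p, ?_⟩
  · exact (Nat.coprime_ordCompl hpp hm).pow_left _
  · rw [← Nat.support_factorization, Nat.factorization_ordCompl, Finsupp.support_erase, Nat.support_factorization]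

-- MODULE c_u1
theorem UU_rec (X k : ℕ) (G : ℕ → ℝ) (hG0 : ∀ m, 0 ≤ G m)
    (hG : ∀ P m : ℕ, IsPrimePow P → m ≠ 0 → P.Coprime m → G (P * m) ≤ G P * G m) :
    (k + 1) * UU X (k + 1) G ≤ (∑ P ∈ PP X, G P / P) * UU X k G := by
  classical
  unfold UU
  set A := (Icc 1 X).filter (fun m => om m = k + 1) with hA
  set B := (Icc 1 X).filter (fun m => om m = k) with hB
  -- left side as a double sum
  have h1 : ((k : ℝ) + 1) * ∑ m ∈ A, G m / m = ∑ m ∈ A, ∑ _p ∈ m.primeFactors, G m / m := by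
    rw [mul_sum]
    refine sum_congr rfl fun m hm => ?_
    rw [sum_const, nsmul_eq_mul]
    have : m.primeFactors.card = k + 1 := (mem_filter.1 hm).2
    rw [this]
    push_cast
    ring
  rw [h1, sum_sigma', sum_mul_sum, ← sum_product']
  -- the map (m, p) ↦ (P, m/P)
  have h2 : ∑ x ∈ A.sigma fun m => m.primeFactors, G x.1 / (x.1 : ℝ) ≤
      ∑ x ∈ A.sigma fun m => m.primeFactors,
        (fun q : ℕ × ℕ => G q.1 / q.1 * (G q.2 / q.2))
          (x.2 ^ x.1.factorization x.2, x.1 / x.2 ^ x.1.factorization x.2) := by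
    refine sum_le_sum fun x hx => ?_
    rw [mem_sigma] at hx
    have hm0 : x.1 ≠ 0 := by have := (mem_Icc.1 (mem_filter.1 hx.1).1).1; omega
    obtain ⟨c1, c2, c3, c4, _⟩ := u_comp hm0 hx.2
    set P := x.2 ^ x.1.factorization x.2
    set m' := x.1 / P
    have hP0 : (0 : ℝ) < P := by exact_mod_cast c1.pos
    have hm' : (0 : ℝ) < m' := by exact_mod_cast Nat.pos_of_ne_zero c2
    have e1 : (x.1 : ℝ) = P * m' := by exact_mod_cast c4.symm
    have e2 := hG P m' c1 c2 c3
    rw [c4] at e2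
    simp only
    rw [div_mul_div_comm, ← e1]
    exact div_le_div_of_nonneg_right e2 (by positivity)
  refine h2.trans ?_
  have hinj : Set.InjOn (fun x : (_ : ℕ) × ℕ => (x.2 ^ x.1.factorization x.2, x.1 / x.2 ^ x.1.factorization x.2))
      (A.sigma fun m => m.primeFactors : Finset ((_ : ℕ) × ℕ)) := by
    rintro ⟨m, p⟩ hx ⟨n, q⟩ hy hxy
    rw [mem_coe, mem_sigma] at hx hy
    have hm0 : m ≠ 0 := by have := (mem_Icc.1 (mem_filter.1 hx.1).1).1; simp only at this; omega
    have hn0 : n ≠ 0 := by have := (mem_Icc.1 (mem_filter.1 hy.1).1).1; simp only at this; omega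
    obtain ⟨c1, c2, c3, c4, _⟩ := u_comp hm0 hx.2
    obtain ⟨d1, d2, d3, d4, _⟩ := u_comp hn0 hy.2
    simp only [Prod.mk.injEq] at hxy
    have e1 : m = n := by
      rw [← c4, ← d4, hxy.2, hxy.1]
    subst e1
    have hpp := Nat.prime_of_mem_primeFactors hx.2
    have hqp := Nat.prime_of_mem_primeFactors hy.2
    have hf : m.factorization p ≠ 0 := (hpp.factorization_pos_of_dvd hm0 (Nat.dvd_of_mem_primeFactors hx.2)).ne'
    have hdv : p ∣ q ^ m.factorization q := by
      rw [← hxy.1]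
      exact dvd_pow_self p hf
    have e2 : p = q := (Nat.prime_dvd_prime_iff_eq hpp hqp).1 (hpp.dvd_of_dvd_pow hdv)
    subst e2
    rfl
  rw [← sum_image (f := fun q : ℕ × ℕ => G q.1 / q.1 * (G q.2 / q.2)) hinj]
  refine sum_le_sum_of_subset_of_nonneg ?_ ?_
  · intro q hq
    rw [mem_image] at hq
    obtain ⟨⟨m, p⟩, hx, rfl⟩ := hq
    rw [mem_sigma] at hx
    have hmI := mem_Icc.1 (mem_filter.1 hx.1).1
    simp only at hmI
    have hm0 : m ≠ 0 := by omega
    obtain ⟨c1, c2, c3, c4, c5⟩ := u_comp hm0 hx.2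
    have hP0 : 0 < p ^ m.factorization p := c1.pos
    have hm'0 : 0 < m / p ^ m.factorization p := Nat.pos_of_ne_zero c2
    rw [mem_product]
    refine ⟨?_, ?_⟩
    · unfold PP
      rw [mem_filter, mem_Icc]
      refine ⟨⟨c1.two_le, ?_⟩, c1⟩
      have : p ^ m.factorization p ≤ m := Nat.ordProj_le p hm0
      exact this.trans hmI.2
    · rw [hB, mem_filter, mem_Icc]
      refine ⟨⟨hm'0, (Nat.div_le_self _ _).trans hmI.2⟩, ?_⟩
      unfold om
      have h7 : m.primeFactors.card = k + 1 := (mem_filter.1 hx.1).2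
      rw [c5, card_erase_of_mem hx.2]
      simp only [h7]
      omega
  · intro q _ _
    have := hG0 q.1
    have := hG0 q.2
    positivity

-- MODULE c_u2
theorem UU_le (X k : ℕ) (G : ℕ → ℝ) (hG0 : ∀ m, 0 ≤ G m) (hG1 : G 1 ≤ 1)
    (hG : ∀ P m : ℕ, IsPrimePow P → m ≠ 0 → P.Coprime m → G (P * m) ≤ G P * G m) :
    UU X k G ≤ (∑ P ∈ PP X, G P / P) ^ k / k.factorial := by
  classical
  set V := ∑ P ∈ PP X, G P / P with hV
  have hV0 : 0 ≤ V := sum_nonneg fun P _ => by have := hG0 P; positivity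
  induction k with
  | zero =>
    unfold UU
    have hsub : (Icc 1 X).filter (fun m => om m = 0) ⊆ {1} := by
      intro m hm
      rw [mem_filter, mem_Icc] at hm
      unfold om at hm
      rw [card_eq_zero, Nat.primeFactors_eq_empty] at hm
      rw [mem_singleton]
      omega
    calc ∑ m ∈ (Icc 1 X).filter (fun m => om m = 0), G m / m ≤ ∑ m ∈ ({1} : Finset ℕ), G m / m :=
          sum_le_sum_of_subset_of_nonneg hsub fun m _ _ => by have := hG0 m; positivity
      _ ≤ V ^ 0 / (Nat.factorial 0 : ℝ) := by simpa using hG1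
  | succ k ih =>
    have h1 := UU_rec X k G hG0 hG
    have h2 : V * UU X k G ≤ V * (V ^ k / k.factorial) := mul_le_mul_of_nonneg_left ih hV0
    have hk : (0 : ℝ) < (k : ℝ) + 1 := by positivity
    have h3 : UU X (k + 1) G ≤ V * (V ^ k / k.factorial) / (k + 1) := by
      rw [le_div_iff₀ hk, mul_comm]
      exact h1.trans h2
    refine h3.trans (le_of_eq ?_)
    rw [Nat.factorial_succ, pow_succ]
    have hf : (k.factorial : ℝ) ≠ 0 := by exact_mod_cast k.factorial_ne_zero
    push_cast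
    field_simp

-- MODULE c_u3
/-- integers with at least `K` prime factors -/
theorem card_many (X K : ℕ) :
    (((Icc 1 X).filter fun N => K ≤ om N).card : ℝ) ≤ X * (∑ P ∈ PP X, (1 : ℝ) / P) ^ K / K.factorial := by
  classical
  set A := (Icc 1 X).filter (fun m => om m = K) with hA
  -- unitary divisor with exactly K prime factors
  have hdiv : ∀ N ∈ (Icc 1 X).filter (fun N => K ≤ om N), ∃ m ∈ A, m ∣ N := by
    intro N hN
    rw [mem_filter, mem_Icc] at hN
    have hN0 : N ≠ 0 := by omega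
    obtain ⟨S, hS, hSc⟩ := exists_subset_card_eq hN.2
    refine ⟨∏ p ∈ S, p, ?_, ?_⟩
    · have hd : (∏ p ∈ S, p) ∣ N := by
        refine Finset.prod_primes_dvd N (fun p hp => (Nat.prime_of_mem_primeFactors (hS hp)).prime)
          (fun p hp => Nat.dvd_of_mem_primeFactors (hS hp))
      have hpos : 0 < ∏ p ∈ S, p := Nat.pos_of_dvd_of_pos hd (by omega)
      rw [hA, mem_filter, mem_Icc]
      refine ⟨⟨hpos, (Nat.le_of_dvd (by omega) hd).trans hN.1.2⟩, ?_⟩
      unfold om
      rw [Nat.primeFactors_prod (fun p hp => Nat.prime_of_mem_primeFactors (hS hp)), hSc]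
    · refine Finset.prod_primes_dvd N (fun p hp => (Nat.prime_of_mem_primeFactors (hS hp)).prime)
          (fun p hp => Nat.dvd_of_mem_primeFactors (hS hp))
  have hsub : (Icc 1 X).filter (fun N => K ≤ om N) ⊆ A.biUnion fun m => (Icc 1 X).filter fun N => m ∣ N := by
    intro N hN
    obtain ⟨m, hm, hmN⟩ := hdiv N hN
    rw [mem_biUnion]
    exact ⟨m, hm, mem_filter.2 ⟨(mem_filter.1 hN).1, hmN⟩⟩
  have h1 : (((Icc 1 X).filter fun N => K ≤ om N).card : ℝ) ≤ ∑ m ∈ A, (X : ℝ) / m := by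
    have h2 : ((Icc 1 X).filter fun N => K ≤ om N).card ≤ ∑ m ∈ A, ((Icc 1 X).filter fun N => m ∣ N).card :=
      (card_le_card hsub).trans card_biUnion_le
    have h3 : (((Icc 1 X).filter fun N => K ≤ om N).card : ℝ) ≤ ∑ m ∈ A, (((Icc 1 X).filter fun N => m ∣ N).card : ℝ) := by
      exact_mod_cast h2
    refine h3.trans (sum_le_sum fun m hm => ?_)
    have h4 : ((Icc 1 X).filter fun N => m ∣ N).card = X / m := by
      have := Nat.Ioc_filter_dvd_card_eq_div X m
      rw [← this]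
      rfl
    rw [h4]
    exact Nat.cast_div_le
  have h5 := UU_le X K (fun _ => 1) (fun _ => by norm_num) le_rfl (fun _ _ _ _ _ => by norm_num)
  unfold UU at h5
  calc (((Icc 1 X).filter fun N => K ≤ om N).card : ℝ) ≤ ∑ m ∈ A, (X : ℝ) / m := h1
    _ = X * ∑ m ∈ A, 1 / (m : ℝ) := by
        rw [mul_sum]
        exact sum_congr rfl fun m _ => by ring
    _ ≤ X * ((∑ P ∈ PP X, (1 : ℝ) / P) ^ K / K.factorial) := mul_le_mul_of_nonneg_left h5 (Nat.cast_nonneg _)
    _ = X * (∑ P ∈ PP X, (1 : ℝ) / P) ^ K / K.factorial := by ring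

end Pool.Agent.Cnt
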