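import Pool.Agent.Cnt.Elem
import Pool.Agent.Cnt.ULem

/-! # Theorem C: the exceptional sets E1, E2 -/

set_option autoImplicit false

namespace Pool.Agent.Cnt

open Finset

-- MODULE c_x1
/-- `G(m) = sm(φ(m))^s` -/
theorem G_mul (w : ℕ) (s : ℝ) (P m : ℕ) (hP : IsPrimePow P) (hm : m ≠ 0) (h : P.Coprime m) :
    (sm w (P * m).totient : ℝ) ^ s ≤ (sm w P.totient : ℝ) ^ s * (sm w m.totient : ℝ) ^ s := by
  rw [Nat.totient_mul h, sm_mul w (Nat.totient_pos.2 hP.pos).ne' (Nat.totient_pos.2 (Nat.pos_of_ne_zero hm)).ne']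
  push_cast
  rw [Real.mul_rpow (Nat.cast_nonneg _) (Nat.cast_nonneg _)]

/-- for the `m` of `E2` the smooth part of `φ(m)` is at least `T^60` -/
theorem sm_large {T w K m : ℕ} (hT : 2 ≤ T) (hK : K ≤ T) (hm : T ^ 120 ≤ m) (ho : om m < K)
    (hr : ro w m.totient < T ^ 30) : T ^ 60 ≤ sm w m.totient := by
  have hT0 : 0 < T := by omega
  have hm0 : 0 < m := lt_of_lt_of_le (pow_pos hT0 _) hm
  have h1 := totient_ge m
  have hφ : 0 < m.totient := Nat.totient_pos.2 hm0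
  have h2 := sm_mul_ro w hφ.ne'
  have h3 : m ≤ T * m.totient := h1.trans (Nat.mul_le_mul_right _ (by omega))
  have h4 : T * m.totient ≤ T * (sm w m.totient * T ^ 30) := by
    refine Nat.mul_le_mul_left _ ?_
    rw [← h2, h2]
    calc m.totient = sm w m.totient * ro w m.totient := h2.symm
      _ ≤ sm w m.totient * T ^ 30 := Nat.mul_le_mul_left _ hr.le
  have h5 : T * (sm w m.totient * T ^ 30) = sm w m.totient * T ^ 31 := by ring
  have h6 : T ^ 120 = T ^ 60 * T ^ 29 * T ^ 31 := by rw [← pow_add, ← pow_add]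
  have h7 : T ^ 60 * T ^ 29 * T ^ 31 ≤ sm w m.totient * T ^ 31 := by
    rw [← h6, ← h5]; exact hm.trans (h3.trans h4)
  have h8 := Nat.le_of_mul_le_mul_right h7 (pow_pos hT0 31)
  exact le_trans (Nat.le_mul_of_pos_right _ (pow_pos hT0 29)) h8

-- MODULE c_x2
theorem E2_card (X T w K : ℕ) (s : ℝ) (hs : 0 ≤ s) (hT : 2 ≤ T) (hX : T ^ 12000 ≤ X) (hK : K ≤ T) :
    ((E2 X T w K).card : ℝ) ≤ 2 * X * ((T : ℝ) ^ 60) ^ (-s) * (K * VV X w s ^ K) := by
  classical
  have hT0 : 0 < T := by omega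
  have hTR : (0 : ℝ) < T := by exact_mod_cast hT0
  have hX1 : 1 ≤ X := le_trans (Nat.one_le_pow _ _ hT0) hX
  set G : ℕ → ℝ := fun m => (sm w m.totient : ℝ) ^ s with hG
  have hG0 : ∀ m, 0 ≤ G m := fun m => by rw [hG]; positivity
  have hG1 : G 1 ≤ 1 := by
    have h1 : sm w 1 = 1 := by unfold sm; simp
    simp [hG, h1]
  set A := (Icc (T ^ 120) (T ^ 3000)).filter (fun m => om m < K ∧ ro w m.totient < T ^ 30) with hA
  have hsub : E2 X T w K ⊆ A.biUnion fun m => (Icc 1 (X + 1)).filter fun N => m ∣ N := by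
    intro N hN
    unfold E2 at hN
    rw [mem_filter] at hN
    obtain ⟨hN1, m, hm, hmN, ho, hr⟩ := hN
    rw [mem_biUnion]
    exact ⟨m, mem_filter.2 ⟨hm, ho, hr⟩, mem_filter.2 ⟨hN1, hmN⟩⟩
  have hm0 : ∀ m ∈ A, 0 < m ∧ m ≤ X := by
    intro m hm
    have := mem_Icc.1 (mem_filter.1 hm).1
    exact ⟨lt_of_lt_of_le (pow_pos hT0 _) this.1, this.2.trans (le_trans (Nat.pow_le_pow_right hT0 (by norm_num)) hX)⟩
  have h1 : ((E2 X T w K).card : ℝ) ≤ ∑ m ∈ A, 2 * (X : ℝ) / m := by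
    have h2 : (E2 X T w K).card ≤ ∑ m ∈ A, ((Icc 1 (X + 1)).filter fun N => m ∣ N).card :=
      (card_le_card hsub).trans card_biUnion_le
    have h3 : ((E2 X T w K).card : ℝ) ≤ ∑ m ∈ A, (((Icc 1 (X + 1)).filter fun N => m ∣ N).card : ℝ) := by
      exact_mod_cast h2
    refine h3.trans (sum_le_sum fun m hm => ?_)
    have h4 : ((Icc 1 (X + 1)).filter fun N => m ∣ N).card = (X + 1) / m := by
      have := Nat.Ioc_filter_dvd_card_eq_div (X + 1) m
      rw [← this]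
      rfl
    rw [h4]
    refine Nat.cast_div_le.trans ?_
    refine div_le_div_of_nonneg_right ?_ (Nat.cast_nonneg _)
    have : (1 : ℝ) ≤ X := by exact_mod_cast hX1
    push_cast
    linarith
  have hT60 : (0 : ℝ) < (T : ℝ) ^ 60 := by positivity
  have h2 : ∀ m ∈ A, 2 * (X : ℝ) / m ≤ 2 * X * ((T : ℝ) ^ 60) ^ (-s) * (G m / m) := by
    intro m hm
    have hmA := mem_filter.1 hm
    have hl := sm_large hT hK (mem_Icc.1 hmA.1).1 hmA.2.1 hmA.2.2
    have hlR : (T : ℝ) ^ 60 ≤ sm w m.totient := by exact_mod_cast hl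
    have e1 : 1 ≤ ((T : ℝ) ^ 60) ^ (-s) * G m := by
      rw [Real.rpow_neg hT60.le, hG]
      have e2 : ((T : ℝ) ^ 60) ^ s ≤ (sm w m.totient : ℝ) ^ s := Real.rpow_le_rpow hT60.le hlR hs
      have e3 : 0 < ((T : ℝ) ^ 60) ^ s := Real.rpow_pos_of_pos hT60 s
      rw [← div_eq_inv_mul, le_div_iff₀ e3, one_mul]
      exact e2
    have hmR : (0 : ℝ) < m := by exact_mod_cast (hm0 m hm).1
    have e4 : 0 ≤ 2 * (X : ℝ) / m := by positivity
    calc 2 * (X : ℝ) / m = 2 * (X : ℝ) / m * 1 := by ring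
      _ ≤ 2 * (X : ℝ) / m * (((T : ℝ) ^ 60) ^ (-s) * G m) := mul_le_mul_of_nonneg_left e1 e4
      _ = 2 * X * ((T : ℝ) ^ 60) ^ (-s) * (G m / m) := by ring
  have hV1 : 1 ≤ VV X w s := by
    unfold VV
    have : 0 ≤ ∑ P ∈ PP X, (sm w P.totient : ℝ) ^ s / P := sum_nonneg fun _ _ => by positivity
    linarith
  have h3 : ∑ m ∈ A, G m / m ≤ K * VV X w s ^ K := by
    have e1 : A ⊆ (range K).biUnion fun k => (Icc 1 X).filter fun m => om m = k := by
      intro m hm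
      rw [mem_biUnion]
      exact ⟨om m, mem_range.2 (mem_filter.1 hm).2.1, mem_filter.2 ⟨mem_Icc.2 (hm0 m hm), rfl⟩⟩
    have e2 : ∑ m ∈ A, G m / m ≤ ∑ k ∈ range K, UU X k G := by
      refine (sum_le_sum_of_subset_of_nonneg e1 fun m _ _ => by have := hG0 m; positivity).trans ?_
      rw [sum_biUnion]
      · rfl
      · intro i _ j _ hij
        rw [Function.onFun, disjoint_left]
        intro m hm hm'
        exact hij ((mem_filter.1 hm).2.symm.trans (mem_filter.1 hm').2)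
    refine e2.trans ?_
    have e3 : ∀ k ∈ range K, UU X k G ≤ VV X w s ^ K := by
      intro k hk
      refine (UU_le X k G hG0 hG1 (fun P m hP hm h => G_mul w s P m hP hm h)).trans ?_
      have hs0 : 0 ≤ ∑ P ∈ PP X, G P / P := sum_nonneg fun P _ => by have := hG0 P; positivity
      have hle : ∑ P ∈ PP X, G P / P ≤ VV X w s := by
        unfold VV
        linarith
      have e4 : (1 : ℝ) ≤ k.factorial := by exact_mod_cast k.factorial_pos
      calc (∑ P ∈ PP X, G P / P) ^ k / k.factorial ≤ (∑ P ∈ PP X, G P / P) ^ k :=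
            div_le_self (by positivity) e4
        _ ≤ VV X w s ^ k := pow_le_pow_left₀ hs0 hle k
        _ ≤ VV X w s ^ K := pow_le_pow_right₀ hV1 (mem_range.1 hk).le
    refine (sum_le_sum e3).trans ?_
    rw [sum_const, card_range, nsmul_eq_mul]
  have hc : 0 ≤ 2 * (X : ℝ) * ((T : ℝ) ^ 60) ^ (-s) := by positivity
  calc ((E2 X T w K).card : ℝ) ≤ ∑ m ∈ A, 2 * (X : ℝ) / m := h1
    _ ≤ ∑ m ∈ A, 2 * X * ((T : ℝ) ^ 60) ^ (-s) * (G m / m) := sum_le_sum h2
    _ = 2 * X * ((T : ℝ) ^ 60) ^ (-s) * ∑ m ∈ A, G m / m := by rw [mul_sum]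
    _ ≤ 2 * X * ((T : ℝ) ^ 60) ^ (-s) * (K * VV X w s ^ K) := mul_le_mul_of_nonneg_left h3 hc

end Pool.Agent.Cnt
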