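import Pool.Agent.Cnt.Pp
import Pool.Agent.Cnt.Dv

/-! # Theorem C: `∑_{m ≤ X, δ ∣ φ(m)} 1/m` -/

set_option autoImplicit false

namespace Pool.Agent.Cnt

open Finset

/-- the sum `S(δ)` -/
noncomputable def SS (X δ : ℕ) : ℝ := ∑ m ∈ (Icc 1 X).filter (fun m => δ ∣ m.totient), (1 : ℝ) / m

private theorem c_s1_comp {X δ m : ℕ} (hδ : 1 < δ) (hm : 1 ≤ m) (hmX : m ≤ X) (hd : δ ∣ m.totient) :
    ∃ g P, g ∈ δ.divisors.erase 1 ∧ P ∈ (PP X).filter (fun P => g ∣ P.totient) ∧ P ∣ m ∧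
      m / P ∈ (Icc 1 X).filter (fun m => (δ / g) ∣ m.totient) := by
  classical
  have hm0 : m ≠ 0 := by omega
  have h1 : ∃ p ∈ m.primeFactors, ¬ Nat.Coprime δ (p ^ m.factorization p).totient := by
    by_contra hc
    push Not at hc
    have h2 : Nat.Coprime δ m.totient := by
      rw [Nat.totient_eq_prod_factorization hm0, Finsupp.prod, Nat.support_factorization]
      refine Nat.Coprime.prod_right fun p hp => ?_
      have hpp := Nat.prime_of_mem_primeFactors hp
      have hk : 0 < m.factorization p := hpp.factorization_pos_of_dvd hm0 (Nat.dvd_of_mem_primeFactors hp)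
      rw [← Nat.totient_prime_pow hpp hk]
      exact hc p hp
    have h3 := Nat.Coprime.eq_one_of_dvd h2 hd
    omega
  obtain ⟨p, hp, hpc⟩ := h1
  have hpp := Nat.prime_of_mem_primeFactors hp
  have hk : 0 < m.factorization p := hpp.factorization_pos_of_dvd hm0 (Nat.dvd_of_mem_primeFactors hp)
  have hPm : p ^ m.factorization p ∣ m := Nat.ordProj_dvd m p
  obtain ⟨P, hP⟩ : ∃ P, P = p ^ m.factorization p := ⟨_, rfl⟩
  have hcop : Nat.Coprime P (m / P) := by
    rw [hP]
    exact (Nat.coprime_ordCompl hpp hm0).pow_left _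
  have hPP : IsPrimePow P := by
    rw [hP]
    exact hpp.isPrimePow.pow hk.ne'
  rw [← hP] at hPm hpc
  obtain ⟨g, hg⟩ : ∃ g, g = Nat.gcd δ P.totient := ⟨_, rfl⟩
  have hgδ : g ∣ δ := hg ▸ Nat.gcd_dvd_left _ _
  have hgP : g ∣ P.totient := hg ▸ Nat.gcd_dvd_right _ _
  have hg1 : g ≠ 1 := by
    intro h
    exact hpc (by rw [Nat.Coprime, ← hg, h])
  have hg0 : 0 < g := Nat.pos_of_dvd_of_pos hgδ (by omega)
  have hP2 : 2 ≤ P := hPP.two_le
  refine ⟨g, P, ?_, ?_, hPm, ?_⟩
  · rw [mem_erase, Nat.mem_divisors]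
    exact ⟨hg1, hgδ, by omega⟩
  · rw [mem_filter, PP, mem_filter, mem_Icc]
    exact ⟨⟨⟨hP2, (Nat.le_of_dvd (by omega) hPm).trans hmX⟩, hPP⟩, hgP⟩
  · rw [mem_filter, mem_Icc]
    refine ⟨⟨Nat.div_pos (Nat.le_of_dvd (by omega) hPm) (by omega), (Nat.div_le_self _ _).trans hmX⟩, ?_⟩
    have h4 : m.totient = P.totient * (m / P).totient := by
      rw [← Nat.totient_mul hcop, Nat.mul_div_cancel' hPm]
    rw [h4] at hd
    have h5 : g * (δ / g) ∣ g * (P.totient / g * (m / P).totient) := by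
      rw [Nat.mul_div_cancel' hgδ, ← mul_assoc, Nat.mul_div_cancel' hgP]
      exact hd
    have h6 := (Nat.mul_dvd_mul_iff_left hg0).1 h5
    have h7 : Nat.Coprime (δ / g) (P.totient / g) := by
      have := Nat.coprime_div_gcd_div_gcd (m := δ) (n := P.totient) (by rw [← hg]; exact hg0)
      rwa [← hg] at this
    exact h7.dvd_of_dvd_mul_left h6

-- MODULE c_s1
/-- recursion -/
theorem SS_rec (X δ : ℕ) (hδ : 1 < δ) :
    SS X δ ≤ ∑ g ∈ δ.divisors.erase 1, (∑ P ∈ (PP X).filter (fun P => g ∣ P.totient), (1 : ℝ) / P) * SS X (δ / g) := by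
  classical
  have hex : ∀ m ∈ (Icc 1 X).filter (fun m => δ ∣ m.totient), ∃ g P, g ∈ δ.divisors.erase 1 ∧
      P ∈ (PP X).filter (fun P => g ∣ P.totient) ∧ P ∣ m ∧
      m / P ∈ (Icc 1 X).filter (fun m => (δ / g) ∣ m.totient) := by
    intro m hm
    rw [mem_filter, mem_Icc] at hm
    exact c_s1_comp hδ hm.1.1 hm.1.2 hm.2
  choose! g P h1 h2 h3 h4 using hex
  let A : ℕ → Finset ℕ := fun g => (PP X).filter (fun P => g ∣ P.totient)
  let B : ℕ → Finset ℕ := fun g => (Icc 1 X).filter (fun m => (δ / g) ∣ m.totient)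
  have hR : ∑ g ∈ δ.divisors.erase 1, (∑ P ∈ (PP X).filter (fun P => g ∣ P.totient), (1 : ℝ) / P) * SS X (δ / g) =
      ∑ x ∈ (δ.divisors.erase 1).sigma (fun g => A g ×ˢ B g), (1 : ℝ) / x.2.1 * (1 / x.2.2) := by
    rw [sum_sigma]
    refine sum_congr rfl fun g _ => ?_
    rw [sum_product, SS, sum_mul_sum]
  rw [hR, SS]
  let i : ℕ → (Σ _ : ℕ, ℕ × ℕ) := fun m => ⟨g m, (P m, m / P m)⟩
  have hinj : Set.InjOn i ((Icc 1 X).filter (fun m => δ ∣ m.totient) : Finset ℕ) := by
    intro m hm m' hm' he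
    have e1 : P m = P m' := by
      have := congrArg (fun x : (Σ _ : ℕ, ℕ × ℕ) => x.2.1) he
      exact this
    have e2 : m / P m = m' / P m' := by
      have := congrArg (fun x : (Σ _ : ℕ, ℕ × ℕ) => x.2.2) he
      exact this
    rw [← Nat.mul_div_cancel' (h3 m hm), ← Nat.mul_div_cancel' (h3 m' hm'), e2, e1]
  calc ∑ m ∈ (Icc 1 X).filter (fun m => δ ∣ m.totient), (1 : ℝ) / m
      = ∑ m ∈ (Icc 1 X).filter (fun m => δ ∣ m.totient), (1 : ℝ) / (i m).2.1 * (1 / (i m).2.2) := by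
        refine sum_congr rfl fun m hm => ?_
        show (1 : ℝ) / m = 1 / (P m : ℝ) * (1 / ((m / P m : ℕ) : ℝ))
        have hP := h2 m hm
        have h0 : 0 < P m := by
          rw [mem_filter, PP, mem_filter, mem_Icc] at hP
          omega
        rw [one_div_mul_one_div, ← Nat.cast_mul, Nat.mul_div_cancel' (h3 m hm)]
    _ = ∑ x ∈ ((Icc 1 X).filter (fun m => δ ∣ m.totient)).image i, (1 : ℝ) / x.2.1 * (1 / x.2.2) :=
        (sum_image (f := fun x : (Σ _ : ℕ, ℕ × ℕ) => (1 : ℝ) / x.2.1 * (1 / x.2.2)) hinj).symm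
    _ ≤ _ := by
        refine sum_le_sum_of_subset_of_nonneg ?_ fun x _ _ => by positivity
        intro x hx
        rw [mem_image] at hx
        obtain ⟨m, hm, rfl⟩ := hx
        rw [mem_sigma, mem_product]
        exact ⟨h1 m hm, h2 m hm, h4 m hm⟩

-- MODULE c_s2
theorem SS_one (X : ℕ) (hX : 1 ≤ X) : SS X 1 ≤ 1 + Real.log X := by
  have h := harmonic_le_one_add_log X
  rw [harmonic_eq_sum_Icc] at h
  push_cast at h
  rw [SS]
  simpa using h

/-- **Lemma L3** with `A = 4(1+L)R` -/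
theorem SS_le (X : ℕ) (hX : 1 ≤ X) (R : ℝ) (hR : 1 ≤ R) (δ : ℕ) (hδ : δ ≠ 0) (hO : (Om δ : ℝ) ≤ R) :
    SS X δ ≤ (1 + Real.log X) * (4 * (1 + Real.log X) * R) ^ Om δ / δ := by
  have hL : 0 ≤ Real.log X := Real.log_natCast_nonneg X
  obtain ⟨L, hLd⟩ : ∃ L, L = 1 + Real.log X := ⟨_, rfl⟩
  rw [← hLd]
  have hL1 : 1 ≤ L := by linarith
  obtain ⟨A, hA⟩ : ∃ A, A = 4 * L * R := ⟨_, rfl⟩
  rw [← hA]
  have hA4 : 4 ≤ A := by rw [hA]; nlinarith
  have hA0 : 0 < A := by linarith
  induction δ using Nat.strong_induction_on with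
  | _ δ ih =>
    rcases (show δ = 1 ∨ 1 < δ by omega) with rfl | h1
    · have e0 : Om 1 = 0 := by simp [Om]
      rw [e0, pow_zero]
      simpa [hLd] using SS_one X hX
    · have hδ0 : (0 : ℝ) < δ := by exact_mod_cast (show 0 < δ by omega)
      have hterm : ∀ g ∈ δ.divisors.erase 1, (∑ P ∈ (PP X).filter (fun P => g ∣ P.totient), (1 : ℝ) / P) *
          SS X (δ / g) ≤ (2 * L * L * A ^ Om δ / δ) * (1 / A) ^ Om g := by
        intro g hg
        rw [mem_erase, Nat.mem_divisors] at hg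
        obtain ⟨hg1, hgδ, _⟩ := hg
        have hg0 : 0 < g := Nat.pos_of_dvd_of_pos hgδ (by omega)
        have hgr : (0 : ℝ) < g := by exact_mod_cast hg0
        have hq0 : 0 < δ / g := Nat.div_pos (Nat.le_of_dvd (by omega) hgδ) hg0
        have hqlt : δ / g < δ := Nat.div_lt_self (by omega) (by omega)
        have hOm : Om δ = Om g + Om (δ / g) := by
          rw [← Om_mul hg0.ne' hq0.ne', Nat.mul_div_cancel' hgδ]
        have hO' : (Om (δ / g) : ℝ) ≤ R := by
          refine le_trans ?_ hO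
          rw [hOm]; push_cast; linarith [Nat.cast_nonneg (α := ℝ) (Om g)]
        have a1 := sum_pp_dvd X g hX hg0
        rw [← hLd] at a1
        have a2 := ih (δ / g) hqlt hq0.ne' hO'
        have a3 : (0 : ℝ) ≤ ∑ P ∈ (PP X).filter (fun P => g ∣ P.totient), (1 : ℝ) / P :=
          sum_nonneg fun P _ => by positivity
        have a4 : 0 ≤ L * A ^ Om (δ / g) / ((δ / g : ℕ) : ℝ) := by positivity
        calc _ ≤ (2 * L / g) * (L * A ^ Om (δ / g) / ((δ / g : ℕ) : ℝ)) :=
              mul_le_mul a1 a2 (sum_nonneg fun m _ => by positivity) (by positivity)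
          _ = (2 * L * L * A ^ Om δ / δ) * (1 / A) ^ Om g := by
              have hc : ((δ / g : ℕ) : ℝ) = δ / g := by
                rw [Nat.cast_div hgδ hgr.ne']
              rw [hc, hOm, pow_add, one_div, inv_pow]
              field_simp
      have hsum : ∑ g ∈ δ.divisors.erase 1, (1 / A) ^ Om g ≤ 1 / (2 * L) := by
        have b1 := sum_div_pow (d := δ) (by omega) (1 / A) (by positivity)
        have b2 : ∑ g ∈ δ.divisors, (1 / A) ^ Om g = ∑ g ∈ δ.divisors.erase 1, (1 / A) ^ Om g + 1 := by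
          rw [← sum_erase_add _ _ (Nat.one_mem_divisors.2 (by omega : δ ≠ 0))]
          simp [Om]
        have b3 : (1 + 1 / A) ^ Om δ ≤ Real.exp (Om δ / A) := by
          calc (1 + 1 / A) ^ Om δ ≤ (Real.exp (1 / A)) ^ Om δ := by
                refine pow_le_pow_left₀ (by positivity) ?_ _
                rw [add_comm]; exact Real.add_one_le_exp _
            _ = Real.exp (Om δ / A) := by
                rw [← Real.exp_nat_mul]; congr 1; ring
        have b4 : (Om δ : ℝ) / A ≤ 1 / (4 * L) := by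
          rw [hA, div_le_div_iff₀ (by positivity) (by positivity)]
          nlinarith [hO, mul_pos (show (0:ℝ) < 4 by norm_num) (show 0 < L by linarith)]
        have b5 : 0 ≤ (Om δ : ℝ) / A := by positivity
        have b6 : 1 / (4 * L) ≤ 1 / 4 := by
          rw [div_le_div_iff₀ (by positivity) (by positivity)]; linarith
        have b7 : Real.exp (Om δ / A) ≤ 1 / (1 - Om δ / A) :=
          Real.exp_bound_div_one_sub_of_interval b5 (by linarith)
        have b8 : 1 / (1 - (Om δ : ℝ) / A) ≤ 1 + 2 * (Om δ / A) := by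
          rw [div_le_iff₀ (by linarith)]
          nlinarith
        have b9 : 2 * (1 / (4 * L)) = 1 / (2 * L) := by
          field_simp; ring
        linarith
      calc SS X δ ≤ _ := SS_rec X δ h1
        _ ≤ ∑ g ∈ δ.divisors.erase 1, (2 * L * L * A ^ Om δ / δ) * (1 / A) ^ Om g := sum_le_sum hterm
        _ = (2 * L * L * A ^ Om δ / δ) * ∑ g ∈ δ.divisors.erase 1, (1 / A) ^ Om g := by rw [mul_sum]
        _ ≤ (2 * L * L * A ^ Om δ / δ) * (1 / (2 * L)) := mul_le_mul_of_nonneg_left hsum (by positivity)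
        _ = L * A ^ Om δ / δ := by field_simp

end Pool.Agent.Cnt
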