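import Pool.Agent.Cnt.Elem
import Pool.Agent.Cnt.SLem

/-! # Theorem C: the exceptional set E4 -/

set_option autoImplicit false

namespace Pool.Agent.Cnt

open Finset

-- MODULE c_d1
/-- the sum over the divisors `δ ≥ T^10` of a rough number -/
theorem delta_sum (T w d : ℕ) (A : ℝ) (hT : 2 ≤ T) (hA : 1 ≤ A) (hAw : A ^ 3 ≤ w) (hw : 2 ^ 12001 ≤ w) (hd : d ≠ 0)
    (hdT : d ≤ T ^ 12001) (hr : ∀ p : ℕ, p.Prime → p ∣ d → w < p) :
    ∑ δ ∈ d.divisors.filter (fun δ => T ^ 10 ≤ δ), A ^ Om δ / δ ≤ 1 / (T : ℝ) ^ 5 := by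
  have h1 : w ^ Om d ≤ d := pow_Om_le hd hr
  have h2 : 2 ^ Om d ≤ T := by
    have h3 : (2 ^ Om d) ^ 12001 ≤ T ^ 12001 := by
      calc (2 ^ Om d) ^ 12001 = (2 ^ 12001) ^ Om d := by rw [← pow_mul, ← pow_mul, mul_comm]
        _ ≤ w ^ Om d := Nat.pow_le_pow_left hw _
        _ ≤ d := h1
        _ ≤ T ^ 12001 := hdT
    exact (Nat.pow_le_pow_iff_left (by norm_num)).1 h3
  have hT0 : (0 : ℝ) < T := by
    have : 0 < T := by omega
    exact_mod_cast this
  have hT1 : (1 : ℝ) ≤ T := by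
    have : 1 ≤ T := by omega
    exact_mod_cast this
  have hterm : ∀ δ ∈ d.divisors.filter (fun δ => T ^ 10 ≤ δ), A ^ Om δ / δ ≤ 1 / (T : ℝ) ^ 6 := by
    intro δ hδ
    obtain ⟨h4, h5⟩ := Finset.mem_filter.1 hδ
    have h6 := Nat.dvd_of_mem_divisors h4
    have hδ0 : 0 < δ := Nat.pos_of_mem_divisors h4
    have hδR : (0 : ℝ) < δ := by exact_mod_cast hδ0
    have h7 : w ^ Om δ ≤ δ := pow_Om_le hδ0.ne' fun p hp hpd => hr p hp (hpd.trans h6)
    have h8 : (A ^ Om δ) ^ 3 ≤ (δ : ℝ) := by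
      calc (A ^ Om δ) ^ 3 = (A ^ 3) ^ Om δ := by rw [← pow_mul, ← pow_mul, mul_comm]
        _ ≤ (w : ℝ) ^ Om δ := pow_le_pow_left₀ (by positivity) hAw _
        _ ≤ δ := by exact_mod_cast h7
    have h9 : (T : ℝ) ^ 10 ≤ δ := by exact_mod_cast h5
    rw [div_le_div_iff₀ hδR (by positivity), one_mul]
    have h10 : (A ^ Om δ * (T : ℝ) ^ 6) ^ 3 ≤ (δ : ℝ) ^ 3 := by
      have h11 : (T : ℝ) ^ 18 ≤ (δ : ℝ) ^ 2 := by
        calc (T : ℝ) ^ 18 ≤ (T : ℝ) ^ 20 := pow_le_pow_right₀ hT1 (by norm_num)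
          _ = ((T : ℝ) ^ 10) ^ 2 := by rw [← pow_mul]
          _ ≤ (δ : ℝ) ^ 2 := pow_le_pow_left₀ (by positivity) h9 2
      calc (A ^ Om δ * (T : ℝ) ^ 6) ^ 3 = (A ^ Om δ) ^ 3 * (T : ℝ) ^ 18 := by
            rw [mul_pow, ← pow_mul (T : ℝ) 6 3]
        _ ≤ (δ : ℝ) * (δ : ℝ) ^ 2 := mul_le_mul h8 h11 (by positivity) (by positivity)
        _ = (δ : ℝ) ^ 3 := by ring
    exact (pow_le_pow_iff_left₀ (by positivity) (by positivity) (by norm_num)).1 h10
  have h3 := Finset.sum_le_card_nsmul _ _ _ hterm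
  refine h3.trans ?_
  rw [nsmul_eq_mul]
  have h4 : ((d.divisors.filter (fun δ => T ^ 10 ≤ δ)).card : ℝ) ≤ T := by
    exact_mod_cast ((Finset.card_filter_le _ _).trans (card_divisors_le hd)).trans h2
  calc ((d.divisors.filter (fun δ => T ^ 10 ≤ δ)).card : ℝ) * (1 / (T : ℝ) ^ 6)
      ≤ T * (1 / (T : ℝ) ^ 6) := mul_le_mul_of_nonneg_right h4 (by positivity)
    _ = 1 / (T : ℝ) ^ 5 := by
        rw [show (T : ℝ) ^ 6 = (T : ℝ) ^ 5 * T by ring]
        field_simp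

-- MODULE c_d2
private theorem c_d2_w {w : ℕ} (hw : 2 ^ 12001 ≤ w) : 4 ≤ w :=
  le_trans (by
    calc 4 = 2 ^ 2 := by norm_num
      _ ≤ 2 ^ 12001 := Nat.pow_le_pow_right (by norm_num) (by norm_num)) hw

private theorem c_d2_Om {w δ X : ℕ} (hw : 4 ≤ w) (hδ : δ ≠ 0) (hX : δ ≤ X)
    (hr : ∀ p : ℕ, p.Prime → p ∣ δ → w < p) : (Om δ : ℝ) ≤ Real.log X := by
  have h1 : w ^ Om δ ≤ X := (pow_Om_le hδ hr).trans hX
  have hX0 : 0 < X := lt_of_lt_of_le (Nat.pos_of_ne_zero hδ) hX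
  have hwR : (4 : ℝ) ≤ w := by exact_mod_cast hw
  have h2 : Real.log ((w : ℝ) ^ Om δ) ≤ Real.log X := by
    refine Real.log_le_log (by positivity) ?_
    exact_mod_cast h1
  rw [Real.log_pow] at h2
  have h3 : 1 ≤ Real.log w := by
    rw [Real.le_log_iff_exp_le (by linarith)]
    have := Real.exp_one_lt_d9
    linarith
  have h4 : (Om δ : ℝ) * 1 ≤ Om δ * Real.log w :=
    mul_le_mul_of_nonneg_left h3 (Nat.cast_nonneg _)
  linarith

/-- facts about `d = ro w (φ m')` -/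
private theorem c_d2_ro {T w m' : ℕ} (hT : 2 ≤ T) (hm : m' ∈ Icc (T ^ 120) (T ^ 3000)) :
    0 < m' ∧ ro w m'.totient ≠ 0 ∧ ro w m'.totient ≤ T ^ 3000 := by
  have h1 := Finset.mem_Icc.1 hm
  have h2 : 0 < m' := lt_of_lt_of_le (Nat.pow_pos (by omega)) h1.1
  have h3 : m'.totient ≠ 0 := (Nat.totient_pos.2 h2).ne'
  refine ⟨h2, (ro_pos _ _).ne', ?_⟩
  exact ((Nat.le_of_dvd (Nat.pos_of_ne_zero h3) (ro_dvd w h3)).trans (Nat.totient_le m')).trans h1.2

private theorem c_d2_pow {T a b : ℕ} (hT : 2 ≤ T) (h : a ≤ b) : T ^ a ≤ T ^ b :=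
  Nat.pow_le_pow_right (by omega) h

theorem E4a_card (X T w : ℕ) (hT : 2 ≤ T) (hX : T ^ 12000 ≤ X) (hX2 : X < T ^ 12001)
    (hw : 2 ^ 12001 ≤ w) (hAw : (4 * (1 + Real.log X) * (1 + Real.log X)) ^ 3 ≤ w) :
    ((E4a X T w).card : ℝ) ≤ 6 * X * (1 + Real.log X) ^ 2 / T ^ 5 := by
  classical
  have hX0 : 0 < X := lt_of_lt_of_le (Nat.pow_pos (by omega)) hX
  have hX1 : 1 ≤ X := hX0
  have hXR : (0 : ℝ) < X := by exact_mod_cast hX0
  have hT0 : (0 : ℝ) < T := by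
    have : 0 < T := by omega
    exact_mod_cast this
  have hlog : 0 ≤ Real.log X := Real.log_natCast_nonneg X
  obtain ⟨L, hL⟩ : ∃ L, L = 1 + Real.log X := ⟨_, rfl⟩
  have hL1 : 1 ≤ L := by rw [hL]; linarith
  rw [← hL] at hAw ⊢
  have hsub : E4a X T w ⊆ (Icc (T ^ 120) (T ^ 3000)).biUnion fun m' =>
      ((ro w m'.totient).divisors.filter (fun δ => T ^ 10 ≤ δ)).biUnion fun δ =>
        ((Icc 1 (T ^ 6001)).filter (fun m => δ ∣ m.totient)).biUnion fun m =>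
          (Icc 1 (X + 1)).filter fun N => ∃ N', Nb N N' ∧ m' ∣ N ∧ m ∣ N' := by
    intro N hN
    unfold E4a at hN
    obtain ⟨h1, N', m', m, δ, h2, h3, h4, h5, h6, h7, h8, h9, h10, h11⟩ := Finset.mem_filter.1 hN
    refine Finset.mem_biUnion.2 ⟨m', h4, Finset.mem_biUnion.2 ⟨δ, ?_, Finset.mem_biUnion.2 ⟨m, ?_, ?_⟩⟩⟩
    · exact Finset.mem_filter.2 ⟨Nat.mem_divisors.2 ⟨h9, (c_d2_ro hT h4).2.1⟩, h11⟩
    · exact Finset.mem_filter.2 ⟨Finset.mem_Icc.2 ⟨h6, h7⟩, h10⟩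
    · exact Finset.mem_filter.2 ⟨h1, N', h2, h5, h8⟩
  have hc : ((E4a X T w).card : ℝ) ≤ ∑ m' ∈ Icc (T ^ 120) (T ^ 3000),
      ∑ δ ∈ (ro w m'.totient).divisors.filter (fun δ => T ^ 10 ≤ δ),
        ∑ m ∈ (Icc 1 (T ^ 6001)).filter (fun m => δ ∣ m.totient),
          (((Icc 1 (X + 1)).filter fun N => ∃ N', Nb N N' ∧ m' ∣ N ∧ m ∣ N').card : ℝ) := by
    have h1 := (Finset.card_le_card hsub).trans (Finset.card_biUnion_le.trans
      (Finset.sum_le_sum fun m' _ => Finset.card_biUnion_le.trans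
        (Finset.sum_le_sum fun δ _ => Finset.card_biUnion_le)))
    exact_mod_cast h1
  refine hc.trans ?_
  have hm' : ∀ m' ∈ Icc (T ^ 120) (T ^ 3000),
      ∑ δ ∈ (ro w m'.totient).divisors.filter (fun δ => T ^ 10 ≤ δ),
        ∑ m ∈ (Icc 1 (T ^ 6001)).filter (fun m => δ ∣ m.totient),
          (((Icc 1 (X + 1)).filter fun N => ∃ N', Nb N N' ∧ m' ∣ N ∧ m ∣ N').card : ℝ) ≤
        (6 * X * (L * (1 / (T : ℝ) ^ 5))) * (1 / (m' : ℝ)) := by
    intro m' hm
    obtain ⟨hm0, hr0, hrT⟩ := c_d2_ro (w := w) hT hm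
    have hmR : (0 : ℝ) < m' := by exact_mod_cast hm0
    have hδ : ∀ δ ∈ (ro w m'.totient).divisors.filter (fun δ => T ^ 10 ≤ δ),
        ∑ m ∈ (Icc 1 (T ^ 6001)).filter (fun m => δ ∣ m.totient),
          (((Icc 1 (X + 1)).filter fun N => ∃ N', Nb N N' ∧ m' ∣ N ∧ m ∣ N').card : ℝ) ≤
        (6 * X / m' * L) * ((4 * L * L) ^ Om δ / δ) := by
      intro δ hδ
      obtain ⟨hd1, hd2⟩ := Finset.mem_filter.1 hδ
      have hd3 := Nat.dvd_of_mem_divisors hd1
      have hδ0 : 0 < δ := Nat.pos_of_mem_divisors hd1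
      have hδT : δ ≤ T ^ 3000 := (Nat.le_of_dvd (Nat.pos_of_ne_zero hr0) hd3).trans hrT
      have hδX : δ ≤ X := hδT.trans ((c_d2_pow hT (by norm_num)).trans hX)
      have hOm : (Om δ : ℝ) ≤ L := by
        have := c_d2_Om (c_d2_w hw) hδ0.ne' hδX (fun p hp hpd => ro_prime hp (hpd.trans hd3))
        rw [hL]
        linarith
      have h1 : ∀ m ∈ (Icc 1 (T ^ 6001)).filter (fun m => δ ∣ m.totient),
          (((Icc 1 (X + 1)).filter fun N => ∃ N', Nb N N' ∧ m' ∣ N ∧ m ∣ N').card : ℝ) ≤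
            6 * X / m' * (1 / (m : ℝ)) := by
        intro m hm2
        have hm3 := Finset.mem_Icc.1 (Finset.mem_filter.1 hm2).1
        have hmm : m * m' ≤ X := by
          calc m * m' ≤ T ^ 6001 * T ^ 3000 := Nat.mul_le_mul hm3.2 (Finset.mem_Icc.1 hm).2
            _ = T ^ 9001 := by rw [← pow_add]
            _ ≤ T ^ 12000 := c_d2_pow hT (by norm_num)
            _ ≤ X := hX
        refine (card_two X m m' hm3.1 hm0 hmm _ (Finset.filter_subset _ _)
          (fun N hN => (Finset.mem_filter.1 hN).2)).trans (le_of_eq ?_)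
        have hm4 : (0 : ℝ) < m := by exact_mod_cast hm3.1
        field_simp
      refine (Finset.sum_le_sum h1).trans ?_
      rw [← Finset.mul_sum]
      have h2 : ∑ m ∈ (Icc 1 (T ^ 6001)).filter (fun m => δ ∣ m.totient), (1 : ℝ) / m ≤ SS X δ := by
        unfold SS
        refine Finset.sum_le_sum_of_subset_of_nonneg ?_ fun i _ _ => by positivity
        refine Finset.filter_subset_filter _ (Finset.Icc_subset_Icc le_rfl ?_)
        exact (c_d2_pow hT (by norm_num)).trans hX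
      have h3 := SS_le X hX1 L hL1 δ hδ0.ne' hOm
      rw [← hL] at h3
      calc 6 * X / m' * ∑ m ∈ (Icc 1 (T ^ 6001)).filter (fun m => δ ∣ m.totient), (1 : ℝ) / m
          ≤ 6 * X / m' * (L * (4 * L * L) ^ Om δ / δ) :=
            mul_le_mul_of_nonneg_left (h2.trans h3) (by positivity)
        _ = _ := by ring
    refine (Finset.sum_le_sum hδ).trans ?_
    rw [← Finset.mul_sum]
    have h4 := delta_sum T w (ro w m'.totient) (4 * L * L) hT (by nlinarith) hAw hw hr0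
      (hrT.trans (c_d2_pow hT (by norm_num))) (fun p hp hpd => ro_prime hp hpd)
    calc (6 * X / m' * L) * ∑ δ ∈ (ro w m'.totient).divisors.filter (fun δ => T ^ 10 ≤ δ),
          (4 * L * L) ^ Om δ / (δ : ℝ)
        ≤ (6 * X / m' * L) * (1 / (T : ℝ) ^ 5) := mul_le_mul_of_nonneg_left h4 (by positivity)
      _ = _ := by ring
  refine (Finset.sum_le_sum hm').trans ?_
  rw [← Finset.mul_sum]
  have h5 : ∑ m' ∈ Icc (T ^ 120) (T ^ 3000), (1 : ℝ) / m' ≤ L := by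
    rw [hL]
    refine le_trans ?_ (harm_le X hX1)
    refine Finset.sum_le_sum_of_subset_of_nonneg ?_ fun i _ _ => by positivity
    refine Finset.Icc_subset_Icc (Nat.pow_pos (by omega)) ?_
    exact (c_d2_pow hT (by norm_num)).trans hX
  calc (6 * X * (L * (1 / (T : ℝ) ^ 5))) * ∑ m' ∈ Icc (T ^ 120) (T ^ 3000), (1 : ℝ) / m'
      ≤ (6 * X * (L * (1 / (T : ℝ) ^ 5))) * L := mul_le_mul_of_nonneg_left h5 (by positivity)
    _ = _ := by ring

-- MODULE c_d3
private theorem c_d3_aux (X q : ℕ) (hq : 0 < q) (hX : q ≤ X) (s : Finset ℕ) (hs : s ⊆ Icc 1 (X + 1))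
    (h : ∀ a ∈ s, ∀ b ∈ s, a ≡ b [MOD q]) : (s.card : ℝ) ≤ 4 * X / q := by
  have h1 := card_mod (X + 1) q hq s hs h
  have hq' : (0 : ℝ) < q := by exact_mod_cast hq
  have hX' : (q : ℝ) ≤ X := by exact_mod_cast hX
  have hX1 : (1 : ℝ) ≤ X := by
    have : 1 ≤ X := by omega
    exact_mod_cast this
  have h2 : (((X + 1) / q : ℕ) : ℝ) ≤ ((X + 1 : ℕ) : ℝ) / q := Nat.cast_div_le
  have h3 : (s.card : ℝ) ≤ ((X + 1 : ℕ) : ℝ) / q + 1 := by
    have : (s.card : ℝ) ≤ (((X + 1) / q + 1 : ℕ) : ℝ) := by exact_mod_cast h1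
    push_cast at this h2 ⊢
    linarith
  refine h3.trans ?_
  rw [div_add_one hq'.ne', div_le_div_iff_of_pos_right hq']
  push_cast
  linarith

/-- one fibre of case (b): `k`, `m'`, `δ` and the sign are fixed -/
theorem E4b_fibre (X k m' δ : ℕ) (hk : 0 < k) (hm' : 0 < m') (hδ : 0 < δ) (hX : k * δ * m' ≤ X) (s : Finset ℕ)
    (hs : s ⊆ Icc 1 (X + 1)) (c : Bool)
    (h : ∀ N ∈ s, ∃ N', (if c then N' = N + 1 else N = N' + 1) ∧ N' ≤ X + 1 ∧ m' ∣ N ∧ k ∣ N' ∧ N' ≡ k [MOD k * δ]) :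
    (s.card : ℝ) ≤ 4 * X * (δ.gcd m' : ℕ) / (k * δ * m') := by
  rcases s.eq_empty_or_nonempty with rfl | ⟨N₀, hN₀⟩
  · simp only [Finset.card_empty, Nat.cast_zero]
    positivity
  have hcop : k.Coprime m' := by
    obtain ⟨N', h1, -, h2, h3, -⟩ := h N₀ hN₀
    have h4 : N'.Coprime N₀ := by
      cases c with
      | true =>
        simp only [if_true] at h1
        rw [h1]
        simp
      | false =>
        simp only [Bool.false_eq_true, if_false] at h1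
        rw [h1]
        simp
    exact Nat.Coprime.coprime_dvd_left h3 (h4.coprime_dvd_right h2)
  have hg : (k * δ).gcd m' = δ.gcd m' := Nat.Coprime.gcd_mul_left_cancel δ hcop
  have hlcm : (k * δ).lcm m' * δ.gcd m' = k * δ * m' := by
    rw [← hg, mul_comm, Nat.gcd_mul_lcm]
  have hpos : 0 < k * δ * m' := Nat.mul_pos (Nat.mul_pos hk hδ) hm'
  have hl0 : 0 < (k * δ).lcm m' := Nat.lcm_pos (Nat.mul_pos hk hδ) hm'
  have hg0 : 0 < δ.gcd m' := Nat.gcd_pos_of_pos_left _ hδ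
  have hlX : (k * δ).lcm m' ≤ X := by
    refine le_trans ?_ hX
    rw [← hlcm]
    exact Nat.le_mul_of_pos_right _ hg0
  have h1 := c_d3_aux X ((k * δ).lcm m') hl0 hlX s hs (by
    intro a ha b hb
    obtain ⟨a', ha1, -, ha2, -, ha3⟩ := h a ha
    obtain ⟨b', hb1, -, hb2, -, hb3⟩ := h b hb
    have h2 : a' ≡ b' [MOD k * δ] := ha3.trans hb3.symm
    have h3 : a ≡ b [MOD k * δ] := by
      cases c with
      | true =>
        simp only [if_true] at ha1 hb1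
        rw [ha1, hb1] at h2
        exact Nat.ModEq.add_right_cancel' 1 h2
      | false =>
        simp only [Bool.false_eq_true, if_false] at ha1 hb1
        rw [ha1, hb1]
        exact h2.add_right 1
    have h4 : a ≡ b [MOD m'] :=
      (Nat.modEq_zero_iff_dvd.2 ha2).trans (Nat.modEq_zero_iff_dvd.2 hb2).symm
    rw [Nat.modEq_iff_dvd, Int.natCast_dvd] at h3 h4 ⊢
    exact Nat.lcm_dvd h3 h4)
  refine h1.trans (le_of_eq ?_)
  have h5 : ((k * δ).lcm m' : ℝ) * (δ.gcd m' : ℕ) = k * δ * m' := by exact_mod_cast hlcm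
  have h6 : (((k * δ).lcm m' : ℕ) : ℝ) ≠ 0 := by exact_mod_cast hl0.ne'
  have h7 : ((δ.gcd m' : ℕ) : ℝ) ≠ 0 := by exact_mod_cast hg0.ne'
  rw [← h5]
  field_simp

-- MODULE c_d4
/-- the `k` of case (b) lie in one class mod `g = gcd(δ, m')` and `g ≤ k + 1` -/
theorem E4b_class {N N' m' p δ k : ℕ} (h : Nb N N') (hN : 2 ≤ N) (hφ : N.totient = N'.totient) (hm' : m' ∣ N) (hp : p.Prime)
    (hk : N' = k * p) (hδ : δ ∣ p - 1) :
    (N' = N + 1 → k ≡ 1 [MOD δ.gcd m']) ∧ (N = N' + 1 → δ.gcd m' ∣ k + 1) ∧ δ.gcd m' ≤ k + 1 ∧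
      N' ≡ k [MOD k * δ] := by
  obtain ⟨q, rfl⟩ : ∃ q, p = q + 1 := ⟨p - 1, by have := hp.pos; omega⟩
  rw [Nat.add_sub_cancel] at hδ
  have h1 : N' ≡ k [MOD k * δ] := by
    rw [hk, mul_add, mul_one]
    have h2 : k * q ≡ 0 [MOD k * δ] := Nat.modEq_zero_iff_dvd.2 (Nat.mul_dvd_mul_left k hδ)
    simpa using h2.add_right k
  have hgN : δ.gcd m' ∣ N := (Nat.gcd_dvd_right _ _).trans hm'
  have hgk : N' ≡ k [MOD δ.gcd m'] :=
    h1.of_dvd ((Nat.gcd_dvd_left δ m').trans (Dvd.intro_left k rfl))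
  have hA : N' = N + 1 → k ≡ 1 [MOD δ.gcd m'] := by
    intro h2
    have h3 : N + 1 ≡ 0 + 1 [MOD δ.gcd m'] := (Nat.modEq_zero_iff_dvd.2 hgN).add_right 1
    rw [← h2, zero_add] at h3
    exact hgk.symm.trans h3
  have hB : N = N' + 1 → δ.gcd m' ∣ k + 1 := by
    intro h2
    have h3 : N' + 1 ≡ k + 1 [MOD δ.gcd m'] := hgk.add_right 1
    rw [← h2] at h3
    exact Nat.modEq_zero_iff_dvd.1 (h3.symm.trans (Nat.modEq_zero_iff_dvd.2 hgN))
  refine ⟨hA, hB, ?_, h1⟩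
  rcases h with h | h
  · have h2 := hA h
    rcases Nat.lt_or_ge k 2 with h3 | h3
    · exfalso
      have h4 : k = 0 ∨ k = 1 := by omega
      rcases h4 with h4 | h4
      · rw [h4] at hk
        omega
      · rw [h4, one_mul] at hk
        have h5 : N = q := by omega
        rw [hk, Nat.totient_prime hp, Nat.add_sub_cancel, h5] at hφ
        have h6 := Nat.totient_lt q (by omega)
        omega
    · have h4 : δ.gcd m' ∣ k - 1 := (Nat.modEq_iff_dvd' (by omega)).1 h2.symm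
      have h5 := Nat.le_of_dvd (by omega) h4
      omega
  · exact Nat.le_of_dvd (by omega) (hB h)

-- MODULE c_d5
theorem E4b_card (X T w : ℕ) (hT : 2 ≤ T) (hX : T ^ 12000 ≤ X) (hX2 : X < T ^ 12001)
    (hw : 2 ^ 12001 ≤ w) :
    ((E4b X T w).card : ℝ) ≤ 32 * X * (1 + Real.log X) ^ 2 / T ^ 5 := by
  classical
  have hX0 : 0 < X := lt_of_lt_of_le (Nat.pow_pos (by omega)) hX
  have hX1 : 1 ≤ X := hX0
  have hXR : (0 : ℝ) < X := by exact_mod_cast hX0
  have hT0 : (0 : ℝ) < T := by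
    have : 0 < T := by omega
    exact_mod_cast this
  have hlog : 0 ≤ Real.log X := Real.log_natCast_nonneg X
  obtain ⟨L, hL⟩ : ∃ L, L = 1 + Real.log X := ⟨_, rfl⟩
  have hL1 : 1 ≤ L := by rw [hL]; linarith
  rw [← hL]
  obtain ⟨KK, hKK⟩ : ∃ KK : ℕ → Bool → Finset ℕ, ∀ g c, KK g c = (Icc 1 (T ^ 6000)).filter fun k =>
      (if c then k ≡ 1 [MOD g] else g ∣ k + 1) ∧ g ≤ k + 1 := ⟨_, fun _ _ => rfl⟩
  obtain ⟨FF, hFF⟩ : ∃ FF : ℕ → ℕ → Bool → ℕ → Finset ℕ, ∀ m' δ c k, FF m' δ c k =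
      (Icc 1 (X + 1)).filter fun N => ∃ N', (if c then N' = N + 1 else N = N' + 1) ∧ N' ≤ X + 1 ∧
        m' ∣ N ∧ k ∣ N' ∧ N' ≡ k [MOD k * δ] := ⟨_, fun _ _ _ _ => rfl⟩
  have hsub : E4b X T w ⊆ (Icc (T ^ 120) (T ^ 3000)).biUnion fun m' =>
      ((ro w m'.totient).divisors.filter (fun δ => T ^ 10 ≤ δ)).biUnion fun δ =>
        (Finset.univ : Finset Bool).biUnion fun c =>
          (KK (δ.gcd m') c).biUnion fun k => FF m' δ c k := by
    intro N hN
    unfold E4b at hN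
    obtain ⟨h1, N', m', p, δ, h2, h3, h3b, h4, h5, h6, h7, h8, h9, h10, h11, h12⟩ :=
      Finset.mem_filter.1 hN
    have hm2 : 2 ≤ m' := by
      refine le_trans ?_ (Finset.mem_Icc.1 h5).1
      calc 2 ≤ T := hT
        _ = T ^ 1 := (pow_one T).symm
        _ ≤ T ^ 120 := c_d2_pow hT (by norm_num)
    have hN1 := (Finset.mem_Icc.1 h1).1
    have hN2 : 2 ≤ N := hm2.trans (Nat.le_of_dvd hN1 h6)
    obtain ⟨k, hk⟩ := h9
    rw [mul_comm] at hk
    obtain ⟨c1, c2, c3, c4⟩ := E4b_class h2 hN2 h4 h6 h7 hk h11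
    have hk0 : 0 < k := by
      rcases Nat.eq_zero_or_pos k with h | h
      · rw [h, zero_mul] at hk
        omega
      · exact h
    have hkT : k ≤ T ^ 6000 := by
      by_contra h13
      push Not at h13
      have h14 : T ^ 6000 * T ^ 6001 < k * p := Nat.mul_lt_mul'' h13 h8
      rw [← hk, ← pow_add] at h14
      norm_num only at h14
      omega
    refine Finset.mem_biUnion.2 ⟨m', h5, Finset.mem_biUnion.2 ⟨δ, ?_, ?_⟩⟩
    · exact Finset.mem_filter.2 ⟨Nat.mem_divisors.2 ⟨h10, (c_d2_ro hT h5).2.1⟩, h12⟩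
    rcases h2 with h2 | h2
    · refine Finset.mem_biUnion.2 ⟨true, Finset.mem_univ _, Finset.mem_biUnion.2 ⟨k, ?_, ?_⟩⟩
      · rw [hKK]
        exact Finset.mem_filter.2 ⟨Finset.mem_Icc.2 ⟨hk0, hkT⟩, by simpa using c1 h2, c3⟩
      · rw [hFF]
        exact Finset.mem_filter.2 ⟨h1, N', by simpa using h2, h3b, h6, ⟨p, hk⟩, c4⟩
    · refine Finset.mem_biUnion.2 ⟨false, Finset.mem_univ _, Finset.mem_biUnion.2 ⟨k, ?_, ?_⟩⟩
      · rw [hKK]
        exact Finset.mem_filter.2 ⟨Finset.mem_Icc.2 ⟨hk0, hkT⟩, by simpa using c2 h2, c3⟩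
      · rw [hFF]
        exact Finset.mem_filter.2 ⟨h1, N', by simpa using h2, h3b, h6, ⟨p, hk⟩, c4⟩
  have hc : ((E4b X T w).card : ℝ) ≤ ∑ m' ∈ Icc (T ^ 120) (T ^ 3000),
      ∑ δ ∈ (ro w m'.totient).divisors.filter (fun δ => T ^ 10 ≤ δ),
        ∑ c : Bool, ∑ k ∈ KK (δ.gcd m') c, ((FF m' δ c k).card : ℝ) := by
    have h1 := (Finset.card_le_card hsub).trans (Finset.card_biUnion_le.trans
      (Finset.sum_le_sum fun m' _ => Finset.card_biUnion_le.trans
        (Finset.sum_le_sum fun δ _ => Finset.card_biUnion_le.trans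
          (Finset.sum_le_sum fun c _ => Finset.card_biUnion_le))))
    exact_mod_cast h1
  refine hc.trans ?_
  have hm' : ∀ m' ∈ Icc (T ^ 120) (T ^ 3000),
      ∑ δ ∈ (ro w m'.totient).divisors.filter (fun δ => T ^ 10 ≤ δ),
        ∑ c : Bool, ∑ k ∈ KK (δ.gcd m') c, ((FF m' δ c k).card : ℝ) ≤
        (32 * X * (L * (1 / (T : ℝ) ^ 5))) * (1 / (m' : ℝ)) := by
    intro m' hm
    obtain ⟨hm0, hr0, hrT⟩ := c_d2_ro (w := w) hT hm
    have hmR : (0 : ℝ) < m' := by exact_mod_cast hm0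
    have hδ : ∀ δ ∈ (ro w m'.totient).divisors.filter (fun δ => T ^ 10 ≤ δ),
        ∑ c : Bool, ∑ k ∈ KK (δ.gcd m') c, ((FF m' δ c k).card : ℝ) ≤
        (32 * X / m' * L) * ((1 : ℝ) ^ Om δ / δ) := by
      intro δ hδ
      obtain ⟨hd1, hd2⟩ := Finset.mem_filter.1 hδ
      have hd3 := Nat.dvd_of_mem_divisors hd1
      have hδ0 : 0 < δ := Nat.pos_of_mem_divisors hd1
      have hδR : (0 : ℝ) < δ := by exact_mod_cast hδ0
      have hδT : δ ≤ T ^ 3000 := (Nat.le_of_dvd (Nat.pos_of_ne_zero hr0) hd3).trans hrT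
      have hg0 : 0 < δ.gcd m' := Nat.gcd_pos_of_pos_left _ hδ0
      have hgR : (0 : ℝ) < (δ.gcd m' : ℕ) := by exact_mod_cast hg0
      have hone : ∀ c : Bool, ∑ k ∈ KK (δ.gcd m') c, ((FF m' δ c k).card : ℝ) ≤
          16 * X / m' * L / δ := by
        intro c
        have h1 : ∀ k ∈ KK (δ.gcd m') c, ((FF m' δ c k).card : ℝ) ≤
            4 * X * (δ.gcd m' : ℕ) / (δ * m') * (1 / (k : ℝ)) := by
          intro k hk
          rw [hKK] at hk
          have hk1 := Finset.mem_Icc.1 (Finset.mem_filter.1 hk).1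
          have hkR : (0 : ℝ) < k := by exact_mod_cast hk1.1
          have hprod : k * δ * m' ≤ X := by
            calc k * δ * m' ≤ T ^ 6000 * T ^ 3000 * T ^ 3000 :=
                  Nat.mul_le_mul (Nat.mul_le_mul hk1.2 hδT) (Finset.mem_Icc.1 hm).2
              _ = T ^ 12000 := by rw [← pow_add, ← pow_add]
              _ ≤ X := hX
          refine (E4b_fibre X k m' δ hk1.1 hm0 hδ0 hprod (FF m' δ c k) ?_ c ?_).trans (le_of_eq ?_)
          · rw [hFF]
            exact Finset.filter_subset _ _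
          · intro N hN
            rw [hFF] at hN
            exact (Finset.mem_filter.1 hN).2
          · field_simp
        refine (Finset.sum_le_sum h1).trans ?_
        rw [← Finset.mul_sum]
        have h2 : ∑ k ∈ KK (δ.gcd m') c, (1 : ℝ) / k ≤ 4 * L / (δ.gcd m' : ℕ) := by
          rw [hL]
          refine harm_class X (δ.gcd m') hX1 hg0 _ ?_ ?_ ?_
          · rw [hKK]
            refine (Finset.filter_subset _ _).trans (Finset.Icc_subset_Icc le_rfl ?_)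
            exact (c_d2_pow hT (by norm_num)).trans hX
          · intro a ha b hb
            rw [hKK] at ha hb
            have ha2 := (Finset.mem_filter.1 ha).2.1
            have hb2 := (Finset.mem_filter.1 hb).2.1
            cases c with
            | true =>
              simp only [if_true] at ha2 hb2
              exact ha2.trans hb2.symm
            | false =>
              simp only [Bool.false_eq_true, if_false] at ha2 hb2
              exact Nat.ModEq.add_right_cancel' 1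
                ((Nat.modEq_zero_iff_dvd.2 ha2).trans (Nat.modEq_zero_iff_dvd.2 hb2).symm)
          · intro a ha
            rw [hKK] at ha
            exact (Finset.mem_filter.1 ha).2.2
        calc 4 * X * (δ.gcd m' : ℕ) / (δ * m') * ∑ k ∈ KK (δ.gcd m') c, (1 : ℝ) / k
            ≤ 4 * X * (δ.gcd m' : ℕ) / (δ * m') * (4 * L / (δ.gcd m' : ℕ)) :=
              mul_le_mul_of_nonneg_left h2 (by positivity)
          _ = _ := by field_simp; ring
      rw [Fintype.sum_bool]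
      have h3 := hone true
      have h4 := hone false
      rw [one_pow]
      calc _ ≤ 16 * X / m' * L / δ + 16 * X / m' * L / δ := add_le_add h3 h4
        _ = _ := by ring
    refine (Finset.sum_le_sum hδ).trans ?_
    rw [← Finset.mul_sum]
    have h4 := delta_sum T w (ro w m'.totient) 1 hT le_rfl (by
        have := c_d2_w hw
        have h5 : (4 : ℝ) ≤ w := by exact_mod_cast this
        rw [one_pow]
        linarith) hw hr0
      (hrT.trans (c_d2_pow hT (by norm_num))) (fun p hp hpd => ro_prime hp hpd)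
    calc (32 * X / m' * L) * ∑ δ ∈ (ro w m'.totient).divisors.filter (fun δ => T ^ 10 ≤ δ),
          (1 : ℝ) ^ Om δ / (δ : ℝ)
        ≤ (32 * X / m' * L) * (1 / (T : ℝ) ^ 5) := mul_le_mul_of_nonneg_left h4 (by positivity)
      _ = _ := by ring
  refine (Finset.sum_le_sum hm').trans ?_
  rw [← Finset.mul_sum]
  have h5 : ∑ m' ∈ Icc (T ^ 120) (T ^ 3000), (1 : ℝ) / m' ≤ L := by
    rw [hL]
    refine le_trans ?_ (harm_le X hX1)
    refine Finset.sum_le_sum_of_subset_of_nonneg ?_ fun i _ _ => by positivity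
    refine Finset.Icc_subset_Icc (Nat.pow_pos (by omega)) ?_
    exact (c_d2_pow hT (by norm_num)).trans hX
  calc (32 * X * (L * (1 / (T : ℝ) ^ 5))) * ∑ m' ∈ Icc (T ^ 120) (T ^ 3000), (1 : ℝ) / m'
      ≤ (32 * X * (L * (1 / (T : ℝ) ^ 5))) * L := mul_le_mul_of_nonneg_left h5 (by positivity)
    _ = _ := by ring

-- MODULE c_d6
/-- the dichotomy -/
theorem E4_dicho {X T w N N' m' : ℕ} (hT : 2 ≤ T) (hX : T ^ 12000 ≤ X) (hX2 : X < T ^ 12001) (hb : Nb N N') (hN : 1 ≤ N)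
    (hN' : 1 ≤ N') (hNX : N ≤ X + 1) (hN'X : N' ≤ X + 1) (hφ : N.totient = N'.totient)
    (hm' : m' ∈ Icc (T ^ 120) (T ^ 3000)) (hd : m' ∣ N) (hr : T ^ 30 ≤ ro w m'.totient) (hsq : ¬ HasSq T N') :
    N ∈ E4a X T w ∨ N ∈ E4b X T w := by
  classical
  have hNm : N ∈ Icc 1 (X + 1) := Finset.mem_Icc.2 ⟨hN, hNX⟩
  have hTpos : ∀ a, 0 < T ^ a := fun a => Nat.pow_pos (by omega)
  have hN'Y : N' ≤ (T ^ 6001) ^ 2 := by
    have h1 : (T ^ 6001) ^ 2 = T ^ 12001 * T := by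
      rw [← pow_mul, ← pow_succ]
    have h2 := hTpos 12001
    rw [h1]
    have h3 : T ^ 12001 * 2 ≤ T ^ 12001 * T := Nat.mul_le_mul_left _ hT
    omega
  obtain ⟨m1, P, m3, h1, h2, h3, h4, h5, h6⟩ := split3 N' (T ^ 6001) hN' (hTpos _) hN'Y
  obtain ⟨hm0, hr0, hrT⟩ := c_d2_ro (w := w) hT hm'
  obtain ⟨d, hdd⟩ : ∃ d, d = ro w m'.totient := ⟨_, rfl⟩
  have hdφ : d ∣ N'.totient := by
    rw [← hφ, hdd]
    exact (ro_dvd w (Nat.totient_pos.2 hm0).ne').trans (Nat.totient_dvd_of_dvd hd)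
  rw [← hdd] at hr hr0
  have hd0 : 0 < d := Nat.pos_of_ne_zero hr0
  have hprod : N'.totient = m1.totient * P.totient * m3.totient := by
    rw [h1, Nat.totient_mul h3, Nat.totient_mul h2]
  have hm1 : 0 < m1 := by
    rcases Nat.eq_zero_or_pos m1 with h | h
    · rw [h] at h1; omega
    · exact h
  have hP0 : 0 < P := by
    rcases Nat.eq_zero_or_pos P with h | h
    · rw [h] at h1; omega
    · exact h
  have hm3 : 0 < m3 := by
    rcases Nat.eq_zero_or_pos m3 with h | h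
    · rw [h] at h1; omega
    · exact h
  -- case (a) from a component `m` of size at most `T^6001`
  have caseA : ∀ m, 0 < m → m ≤ T ^ 6001 → m ∣ N' → T ^ 10 ≤ d.gcd m.totient → N ∈ E4a X T w := by
    intro m k1 k2 k3 k4
    unfold E4a
    refine Finset.mem_filter.2 ⟨hNm, N', m', m, d.gcd m.totient, hb, hN', hm', hd, k1, k2, k3, ?_,
      Nat.gcd_dvd_right _ _, k4⟩
    rw [← hdd]
    exact Nat.gcd_dvd_left _ _
  by_cases g1 : T ^ 10 ≤ d.gcd m1.totient
  · exact Or.inl (caseA m1 hm1 h4 ⟨P * m3, by rw [h1]; ring⟩ g1)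
  by_cases g3 : T ^ 10 ≤ d.gcd m3.totient
  · exact Or.inl (caseA m3 hm3 h5 ⟨m1 * P, by rw [h1]; ring⟩ g3)
  have g2 : T ^ 10 ≤ d.gcd P.totient := by
    by_contra g2
    push Not at g1 g2 g3
    rw [hprod] at hdφ
    have e1 := le_gcd_mul hd0 hdφ
    have e2 : d.gcd (m1.totient * P.totient) ≤ d.gcd m1.totient * d.gcd P.totient :=
      Nat.le_of_dvd (Nat.mul_pos (Nat.gcd_pos_of_pos_left _ hd0) (Nat.gcd_pos_of_pos_left _ hd0))
        (Nat.gcd_mul_right_dvd_mul_gcd d _ _)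
    have e3 : d.gcd m1.totient * d.gcd P.totient < T ^ 10 * T ^ 10 := Nat.mul_lt_mul'' g1 g2
    have e4 : d.gcd (m1.totient * P.totient) * d.gcd m3.totient < T ^ 10 * T ^ 10 * T ^ 10 :=
      Nat.mul_lt_mul'' (lt_of_le_of_lt e2 e3) g3
    have e5 : T ^ 10 * T ^ 10 * T ^ 10 = T ^ 30 := by rw [← pow_add, ← pow_add]
    rw [e5] at e4
    exact absurd (hr.trans e1) (not_le.2 e4)
  by_cases hPT : P ≤ T ^ 6001
  · exact Or.inl (caseA P hP0 hPT ⟨m1 * m3, by rw [h1]; ring⟩ g2)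
  push Not at hPT
  have hPd : P ∣ N' := ⟨m1 * m3, by rw [h1]; ring⟩
  have hPP : IsPrimePow P := by
    rcases h6 with h6 | h6
    · rw [h6] at hPT
      have := hTpos 6001
      omega
    · exact h6
  obtain ⟨p, e, hp, he, hpe⟩ := (isPrimePow_nat_iff P).1 hPP
  rcases Nat.lt_or_ge e 2 with h7 | h7
  · right
    have h8 : e = 1 := by omega
    rw [h8, pow_one] at hpe
    subst hpe
    unfold E4b
    refine Finset.mem_filter.2 ⟨hNm, N', m', p, d.gcd p.totient, hb, hN', hN'X, hφ, hm', hd, hp, hPT,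
      hPd, ?_, ?_, g2⟩
    · rw [← hdd]
      exact Nat.gcd_dvd_left _ _
    · rw [← Nat.totient_prime hp]
      exact Nat.gcd_dvd_right _ _
  · exfalso
    apply hsq
    refine ⟨p ^ (e / 2), ?_, ?_⟩
    · by_contra h8
      push Not at h8
      have h9 : P ≤ (p ^ (e / 2)) ^ 3 := by
        rw [← hpe, ← pow_mul]
        exact Nat.pow_le_pow_right hp.pos (by omega)
      have h10 : (p ^ (e / 2)) ^ 3 ≤ (T ^ 1800) ^ 3 := Nat.pow_le_pow_left h8 3
      have h11 : (T ^ 1800) ^ 3 ≤ T ^ 6001 := by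
        rw [← pow_mul]
        exact c_d2_pow hT (by norm_num)
      omega
    · refine dvd_trans ?_ hPd
      rw [← hpe, ← pow_mul]
      exact pow_dvd_pow p (by omega)

end Pool.Agent.Cnt
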