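import Pool.Agent.Cnt.Elem

/-! # Theorem C: the exceptional set E5 -/

set_option autoImplicit false

namespace Pool.Agent.Cnt

open Finset

-- MODULE c_f1
/-- the structure of integers without middle divisors -/
theorem no_mid {X T N : ℕ} (hT : 2 ≤ T) (hX2 : X < T ^ 12001) (hN1 : T ^ 120 ≤ N) (hNX : N ≤ X + 1)
    (h : ¬ HasMid T N) (hsq : ¬ HasSq T N) : ∃ (s : ℕ) (S : Finset ℕ), 0 < s ∧ s < T ^ 120 ∧ N = s * ∏ p ∈ S, p ∧
      (∀ p ∈ S, p.Prime ∧ T ^ 2880 < p ∧ p.Coprime s) ∧ S.card ≤ 4 ∧ S.Nonempty := by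
  classical
  have hT0 : 0 < T := by omega
  have hN0 : 0 < N := lt_of_lt_of_le (pow_pos hT0 _) hN1
  set S := N.primeFactors.filter (fun p => T ^ 2880 < p) with hS
  have hSp : ∀ p ∈ S, p.Prime ∧ T ^ 2880 < p ∧ p ∣ N := by
    intro p hp
    rw [hS, mem_filter, Nat.mem_primeFactors] at hp
    exact ⟨hp.1.1, hp.2, hp.1.2.1⟩
  have hdvd : (∏ p ∈ S, p) ∣ N := by
    refine Finset.prod_primes_dvd N (fun p hp => (hSp p hp).1.prime) (fun p hp => (hSp p hp).2.2)
  obtain ⟨s, hs⟩ := hdvd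
  have hs0 : 0 < s := by
    rcases Nat.eq_zero_or_pos s with h0 | h0
    · rw [h0, mul_zero] at hs; omega
    · exact h0
  have hcop : ∀ p ∈ S, p.Coprime s := by
    intro p hp
    rw [(hSp p hp).1.coprime_iff_not_dvd]
    intro hps
    apply hsq
    refine ⟨p, lt_of_le_of_lt (Nat.pow_le_pow_right hT0 (by norm_num)) (hSp p hp).2.1, ?_⟩
    rw [hs, pow_two]
    exact Nat.mul_dvd_mul (dvd_prod_of_mem _ hp) hps
  have hsN : s ∣ N := ⟨_, by rw [hs, mul_comm]⟩
  have hslt : s < T ^ 120 := by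
    by_contra hcon
    push Not at hcon
    have hex : ∃ d, T ^ 120 ≤ d ∧ d ∣ s := ⟨s, hcon, dvd_rfl⟩
    obtain ⟨hd1, hd2⟩ := Nat.find_spec hex
    set d := Nat.find hex with hd
    have hmin : ∀ e, e < d → ¬ (T ^ 120 ≤ e ∧ e ∣ s) := fun e he => Nat.find_min hex he
    have hd0 : 0 < d := lt_of_lt_of_le (pow_pos hT0 _) hd1
    have hd1' : d ≠ 1 := by
      intro h1
      have : 2 ^ 120 ≤ T ^ 120 := Nat.pow_le_pow_left hT _
      have h2 : (2 : ℕ) ≤ 2 ^ 120 := by norm_num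
      omega
    obtain ⟨q, hq, hqd⟩ := Nat.exists_prime_and_dvd hd1'
    obtain ⟨e, he⟩ := hqd
    have he0 : 0 < e := by
      rcases Nat.eq_zero_or_pos e with h0 | h0
      · rw [h0, mul_zero] at he; omega
      · exact h0
    have hed : e < d := by
      rw [he]
      nlinarith [hq.two_le]
    have hes : e ∣ s := dvd_trans ⟨q, by rw [he, mul_comm]⟩ hd2
    have helt : e < T ^ 120 := by
      by_contra h1
      push Not at h1
      exact hmin e hed ⟨h1, hes⟩
    have hqs : q ∣ s := dvd_trans ⟨e, he⟩ hd2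
    have hqle : q ≤ T ^ 2880 := by
      by_contra h1
      push Not at h1
      have hqS : q ∈ S := by
        rw [hS, mem_filter, Nat.mem_primeFactors]
        exact ⟨⟨hq, dvd_trans hqs hsN, hN0.ne'⟩, h1⟩
      have := hcop q hqS
      rw [hq.coprime_iff_not_dvd] at this
      exact this hqs
    apply h
    refine ⟨d, mem_Icc.2 ⟨hd1, ?_⟩, dvd_trans hd2 hsN⟩
    rw [he]
    calc q * e ≤ T ^ 2880 * T ^ 120 := Nat.mul_le_mul hqle helt.le
      _ = T ^ 3000 := by rw [← pow_add]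
  have hprod : N = s * ∏ p ∈ S, p := by rw [mul_comm]; exact hs
  refine ⟨s, S, hs0, hslt, hprod, fun p hp => ⟨(hSp p hp).1, (hSp p hp).2.1, hcop p hp⟩, ?_, ?_⟩
  · by_contra hcon
    push Not at hcon
    have h5 : (T ^ 2880) ^ 5 ≤ ∏ p ∈ S, p := by
      calc (T ^ 2880) ^ 5 ≤ (T ^ 2880) ^ S.card := Nat.pow_le_pow_right (pow_pos hT0 _) hcon
        _ = ∏ p ∈ S, T ^ 2880 := by rw [prod_const]
        _ ≤ ∏ p ∈ S, p := prod_le_prod' fun p hp => (hSp p hp).2.1.le
    have h6 : ∏ p ∈ S, p ≤ N := by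
      rw [hprod]; exact Nat.le_mul_of_pos_left _ hs0
    have h7 : (T ^ 2880) ^ 5 = T ^ 14400 := by rw [← pow_mul]
    have h8 : T ^ 12002 ≤ T ^ 14400 := Nat.pow_le_pow_right hT0 (by norm_num)
    have h9 : T ^ 12002 = T ^ 12001 * T := by rw [pow_succ]
    have h10 : 0 < T ^ 12001 := pow_pos hT0 _
    have h11 : T ^ 12001 + 1 ≤ T ^ 12001 * T := by nlinarith
    have h12 : T ^ 14400 ≤ N := by rw [← h7]; exact le_trans h5 h6
    generalize T ^ 12001 = a at *
    generalize T ^ 14400 = b at *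
    generalize T ^ 12002 = c at *
    omega
  · rw [Finset.nonempty_iff_ne_empty]
    intro he
    rw [he, prod_empty, mul_one] at hprod
    omega

-- MODULE c_f2
/-- a large common divisor `g` of `p - 1` and `q - 1` -/
theorem E5_pair {X T n : ℕ} (hT : 2 ≤ T) (hX2 : X < T ^ 12001) (hn : n ∈ E5 X T) : ∃ p q k k' : ℕ, p.Prime ∧ q.Prime ∧
    T ^ 600 < (p - 1).gcd (q - 1) ∧ n = k * p ∧ n + 1 = k' * q ∧ p.Coprime k ∧ q.Coprime k' := by
  classical
  unfold E5 Sol at hn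
  simp only [mem_filter, mem_Icc] at hn
  obtain ⟨⟨⟨hn1, hnX⟩, hφ⟩, hn120, hm, hm1, hq, hq1⟩ := hn
  have hT0 : 0 < T := by omega
  obtain ⟨s, S, hs0, hs, hN, hS, hSc, hSn⟩ := no_mid hT hX2 hn120 (by omega) hm hq
  obtain ⟨s', S', hs0', hs', hN', hS', hSc', hSn'⟩ := no_mid hT hX2 (by omega : T ^ 120 ≤ n + 1) (by omega) hm1 hq1
  obtain ⟨p, hp⟩ := hSn
  have hpp := (hS p hp).1
  have hcopS : ∀ (s : ℕ) (S : Finset ℕ), (∀ p ∈ S, p.Prime ∧ T ^ 2880 < p ∧ p.Coprime s) →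
      (s * ∏ p ∈ S, p).totient = s.totient * ∏ p ∈ S, (p - 1) := by
    intro s S hS
    have h1 : s.Coprime (∏ p ∈ S, p) := Nat.Coprime.prod_right fun p hp => (hS p hp).2.2.symm
    rw [Nat.totient_mul h1]
    congr 1
    clear h1
    induction S using Finset.induction_on with
    | empty => simp
    | insert a S ha ih =>
      rw [prod_insert ha, prod_insert ha, Nat.totient_mul, ih (fun p hp => hS p (mem_insert_of_mem hp)),
        Nat.totient_prime (hS a (mem_insert_self _ _)).1]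
      refine Nat.Coprime.prod_right fun b hb => ?_
      rw [Nat.coprime_primes (hS a (mem_insert_self _ _)).1 (hS b (mem_insert_of_mem hb)).1]
      rintro rfl
      exact ha hb
  have hsplit : ∀ (s : ℕ) (S : Finset ℕ) (q : ℕ), (∀ p ∈ S, p.Prime ∧ T ^ 2880 < p ∧ p.Coprime s) → q ∈ S →
      s * ∏ p ∈ S, p = (s * ∏ p ∈ S.erase q, p) * q ∧ q.Coprime (s * ∏ p ∈ S.erase q, p) := by
    intro s S q hS hq
    refine ⟨by rw [mul_assoc, prod_erase_mul _ _ hq], ?_⟩
    refine Nat.Coprime.mul_right (hS q hq).2.2 (Nat.Coprime.prod_right fun b hb => ?_)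
    rw [Nat.coprime_primes (hS q hq).1 (hS b (mem_of_mem_erase hb)).1]
    rintro rfl
    exact (ne_of_mem_erase hb) rfl
  have hp1 : 0 < p - 1 := by have := hpp.two_le; omega
  have hdvd : p - 1 ∣ s'.totient * ∏ q ∈ S', (q - 1) := by
    rw [← hcopS s' S' hS', ← hN', ← hφ, hN, hcopS s S hS]
    exact dvd_mul_of_dvd_right (dvd_prod_of_mem (fun p => p - 1) hp) _
  have hex : ∃ q ∈ S', T ^ 600 < (p - 1).gcd (q - 1) := by
    by_contra hcon
    push Not at hcon
    have h1 := le_gcd_prod hp1 (Nat.totient_pos.2 hs0') (pow_pos hT0 600) S' (fun q => q - 1) hdvd hcon hSc'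
    have h2 : s'.totient ≤ T ^ 120 := le_trans (Nat.totient_le s') hs'.le
    have h3 : s'.totient * (T ^ 600) ^ 4 ≤ T ^ 120 * (T ^ 600) ^ 4 := Nat.mul_le_mul_right _ h2
    have h4 : T ^ 120 * (T ^ 600) ^ 4 = T ^ 2520 := by rw [← pow_mul, ← pow_add]
    have h5 : T ^ 2520 < T ^ 2880 := Nat.pow_lt_pow_right (by omega) (by norm_num)
    have h6 := (hS p hp).2.1
    rw [h4] at h3
    generalize T ^ 2520 = a at *
    generalize T ^ 2880 = b at *
    omega
  obtain ⟨q, hq', hg⟩ := hex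
  obtain ⟨e1, c1⟩ := hsplit s S p hS hp
  obtain ⟨e2, c2⟩ := hsplit s' S' q hS' hq'
  exact ⟨p, q, s * ∏ p ∈ S.erase p, p, s' * ∏ p ∈ S'.erase q, p, hpp, (hS' q hq').1, hg, by rw [← e1]; exact hN,
    by rw [← e2]; exact hN', c1, c2⟩

-- MODULE c_f3
/-- `(k, k')` determines `n` -/
theorem det {n n' k k' p q p' q' : ℕ} (hp : p.Prime) (hq : q.Prime) (hp' : p'.Prime) (hq' : q'.Prime)
    (h1 : n = k * p) (h2 : n + 1 = k' * q) (h1' : n' = k * p') (h2' : n' + 1 = k' * q')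
    (c1 : p.Coprime k) (c2 : q.Coprime k') (c1' : p'.Coprime k) (c2' : q'.Coprime k')
    (hφ : n.totient = (n + 1).totient) (hφ' : n'.totient = (n' + 1).totient) (hn : 3 ≤ n) (hn' : 3 ≤ n') : n = n' := by
  have key : ∀ {n p q : ℕ}, p.Prime → q.Prime → n = k * p → n + 1 = k' * q → p.Coprime k → q.Coprime k' →
      n.totient = (n + 1).totient →
      (p : ℤ) * ((k.totient : ℤ) * k' - k'.totient * k) = k.totient * k' + k'.totient * (1 - k') := by
    intro n p q hp hq h1 h2 c1 c2 hφ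
    have e1 : n.totient = k.totient * (p - 1) := by
      rw [h1, Nat.totient_mul c1.symm, Nat.totient_prime hp]
    have e2 : (n + 1).totient = k'.totient * (q - 1) := by
      rw [h2, Nat.totient_mul c2.symm, Nat.totient_prime hq]
    rw [e1, e2] at hφ
    have e3 : (k.totient : ℤ) * (p - 1) = k'.totient * (q - 1) := by
      have h3 : ((k.totient * (p - 1) : ℕ) : ℤ) = ((k'.totient * (q - 1) : ℕ) : ℤ) := by rw [hφ]
      rw [Nat.cast_mul, Nat.cast_mul, Nat.cast_sub hp.one_le, Nat.cast_sub hq.one_le] at h3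
      exact_mod_cast h3
    have e4 : (k : ℤ) * p + 1 = k' * q := by
      have : k * p + 1 = k' * q := by rw [← h1, h2]
      exact_mod_cast this
    have e5 : (k' : ℤ) * ((k.totient : ℤ) * (p - 1)) = k' * (k'.totient * (q - 1)) := by rw [e3]
    linear_combination e5 - (k'.totient : ℤ) * e4
  have hD : (k.totient : ℤ) * k' - k'.totient * k ≠ 0 := by
    intro h0
    have h3 : k.totient * k' = k'.totient * k := by
      have : (k.totient : ℤ) * k' = k'.totient * k := by linarith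
      exact_mod_cast this
    have hcop : k.Coprime k' := by
      have h4 : n.Coprime (n + 1) := by simp
      exact Nat.Coprime.coprime_dvd_left ⟨p, h1⟩ (Nat.Coprime.coprime_dvd_right ⟨q, h2⟩ h4)
    have hk0 : 0 < k := by
      rcases Nat.eq_zero_or_pos k with h0 | h0
      · rw [h0, zero_mul] at h1; omega
      · exact h0
    have hk0' : 0 < k' := by
      rcases Nat.eq_zero_or_pos k' with h0 | h0
      · rw [h0, zero_mul] at h2; omega
      · exact h0
    have hk1 : k = 1 := by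
      have h5 : k ∣ k.totient := hcop.dvd_of_dvd_mul_right ⟨k'.totient, by rw [h3, mul_comm]⟩
      have h6 := Nat.le_of_dvd (Nat.totient_pos.2 hk0) h5
      by_contra hne
      have := Nat.totient_lt k (by omega)
      omega
    have hk1' : k' = 1 := by
      have h5 : k' ∣ k'.totient := hcop.symm.dvd_of_dvd_mul_right ⟨k.totient, by rw [← h3, mul_comm]⟩
      have h6 := Nat.le_of_dvd (Nat.totient_pos.2 hk0') h5
      by_contra hne
      have := Nat.totient_lt k' (by omega)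
      omega
    rw [hk1, one_mul] at h1
    rw [hk1', one_mul] at h2
    have o1 : ¬ Even p := by
      intro he
      have := hp.even_iff.1 he
      omega
    have o2 : ¬ Even q := by
      intro he
      have := hq.even_iff.1 he
      omega
    rw [← h1] at o1
    rw [← h2, Nat.even_add_one] at o2
    exact o2 o1
  have E1 := key hp hq h1 h2 c1 c2 hφ
  have E2 := key hp' hq' h1' h2' c1' c2' hφ'
  have E3 : (p : ℤ) = p' := by
    apply mul_right_cancel₀ hD
    rw [E1, E2]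
  have E4 : p = p' := by exact_mod_cast E3
  rw [h1, h1', E4]

-- MODULE c_f4
/-- case (ii): `p q > T^12240` -/
theorem E5_ii (X T : ℕ) (hT : 100 ≤ T) (hL : 2 + Real.log X ≤ T) (hX : T ^ 12000 ≤ X) (hX2 : X < T ^ 12001) (s : Finset ℕ)
    (hs : s ⊆ Sol X) (h3 : ∀ n ∈ s, 3 ≤ n)
    (h : ∀ n ∈ s, ∃ p q k k' : ℕ, p.Prime ∧ q.Prime ∧ n = k * p ∧ n + 1 = k' * q ∧ p.Coprime k ∧ q.Coprime k' ∧
      T ^ 12240 < p * q) : (s.card : ℝ) ≤ X / (2 * T ^ 2) := by
  classical
  choose! p q k k' hp hq h1 h2 c1 c2 hlt using h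
  have hT0 : 0 < T := by omega
  have hX0 : 0 < X := lt_of_lt_of_le (pow_pos hT0 _) hX
  set Z := X / T ^ 238 with hZ
  have hZ1 : 1 ≤ Z := by
    rw [hZ, Nat.le_div_iff_mul_le (pow_pos hT0 _), one_mul]
    exact le_trans (Nat.pow_le_pow_right hT0 (by norm_num)) hX
  have hbd : ∀ n ∈ s, 1 ≤ k n ∧ 1 ≤ k' n ∧ k n * k' n ≤ Z := by
    intro n hn
    have hnX : n ≤ X := by
      have := hs hn
      unfold Sol at this
      exact (mem_Icc.1 (mem_filter.1 this).1).2
    have hk0 : 0 < k n := by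
      rcases Nat.eq_zero_or_pos (k n) with h0 | h0
      · have := h1 n hn
        rw [h0, zero_mul] at this
        have := h3 n hn
        omega
      · exact h0
    have hk0' : 0 < k' n := by
      rcases Nat.eq_zero_or_pos (k' n) with h0 | h0
      · have := h2 n hn
        rw [h0, zero_mul] at this
        omega
      · exact h0
    refine ⟨hk0, hk0', ?_⟩
    rw [hZ, Nat.le_div_iff_mul_le (pow_pos hT0 _)]
    have e1 : k n * k' n * (p n * q n) = n * (n + 1) := by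
      calc k n * k' n * (p n * q n) = (k n * p n) * (k' n * q n) := by ring
        _ = n * (n + 1) := by rw [← h1 n hn, ← h2 n hn]
    have e2 : k n * k' n * T ^ 12240 ≤ n * (n + 1) := by
      rw [← e1]
      exact Nat.mul_le_mul_left _ (hlt n hn).le
    have e3 : n * (n + 1) ≤ X * (2 * X) := Nat.mul_le_mul hnX (by omega)
    have e4 : X * (2 * X) ≤ X * (T * T ^ 12001) := by
      refine Nat.mul_le_mul_left _ (Nat.mul_le_mul (by omega) hX2.le)
    have e5 : X * (T * T ^ 12001) = X * T ^ 12002 := by rw [← pow_succ']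
    have e6 : k n * k' n * T ^ 12240 = k n * k' n * T ^ 238 * T ^ 12002 := by
      rw [mul_assoc (k n * k' n), ← pow_add]
    have e7 : k n * k' n * T ^ 238 * T ^ 12002 ≤ X * T ^ 12002 := by
      rw [← e6, ← e5]
      exact e2.trans (e3.trans e4)
    exact Nat.le_of_mul_le_mul_right e7 (pow_pos hT0 _)
  have hcard : s.card ≤ (((Icc 1 Z) ×ˢ (Icc 1 Z)).filter fun q => q.1 * q.2 ≤ Z).card := by
    refine card_le_card_of_injOn (fun n => (k n, k' n)) ?_ ?_
    · intro n hn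
      obtain ⟨a, b, c⟩ := hbd n hn
      simp only [coe_filter, mem_product, mem_Icc, Set.mem_ofPred_eq]
      exact ⟨⟨⟨a, le_trans (Nat.le_mul_of_pos_right _ b) c⟩, ⟨b, le_trans (Nat.le_mul_of_pos_left _ a) c⟩⟩, c⟩
    · intro n hn m hm hnm
      simp only [Prod.mk.injEq] at hnm
      have hφ : ∀ n ∈ s, n.totient = (n + 1).totient := by
        intro n hn
        have := hs hn
        unfold Sol at this
        exact (mem_filter.1 this).2
      refine det (k := k n) (k' := k' n) (hp n hn) (hq n hn) (hp m hm) (hq m hm) (h1 n hn) (h2 n hn) ?_ ?_ (c1 n hn)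
        (c2 n hn) ?_ ?_ (hφ n hn) (hφ m hm) (h3 n hn) (h3 m hm)
      · rw [hnm.1]; exact h1 m hm
      · rw [hnm.2]; exact h2 m hm
      · rw [hnm.1]; exact c1 m hm
      · rw [hnm.2]; exact c2 m hm
  have hh := card_hyp Z hZ1
  have hTR : (100 : ℝ) ≤ T := by exact_mod_cast hT
  have hTR0 : (0 : ℝ) < T := by linarith
  have hZR : (Z : ℝ) ≤ X / (T : ℝ) ^ 238 := by
    rw [hZ]
    refine Nat.cast_div_le.trans ?_
    push_cast
    exact le_rfl
  have hZX : (Z : ℝ) ≤ X := by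
    have : Z ≤ X := Nat.div_le_self _ _
    exact_mod_cast this
  have hlog : 1 + Real.log Z ≤ T := by
    have hz : (0 : ℝ) < Z := by exact_mod_cast hZ1
    have := Real.log_le_log hz hZX
    linarith
  have hlog0 : 0 ≤ 1 + Real.log Z := by
    have : 0 ≤ Real.log Z := Real.log_nonneg (by exact_mod_cast hZ1)
    linarith
  have hXR : (0 : ℝ) < X := by exact_mod_cast hX0
  calc (s.card : ℝ) ≤ ((((Icc 1 Z) ×ˢ (Icc 1 Z)).filter fun q => q.1 * q.2 ≤ Z).card : ℝ) := by exact_mod_cast hcard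
    _ ≤ Z * (1 + Real.log Z) := hh
    _ ≤ X / (T : ℝ) ^ 238 * T := mul_le_mul hZR hlog hlog0 (by positivity)
    _ = X / (T : ℝ) ^ 237 := by
        field_simp
    _ ≤ X / (2 * T ^ 2) := by
        refine div_le_div_of_nonneg_left hXR.le (by positivity) ?_
        calc (2 : ℝ) * (T : ℝ) ^ 2 ≤ (T : ℝ) ^ 235 * (T : ℝ) ^ 2 := by
              refine mul_le_mul_of_nonneg_right ?_ (by positivity)
              calc (2 : ℝ) ≤ (T : ℝ) ^ 1 := by rw [pow_one]; linarith
                _ ≤ (T : ℝ) ^ 235 := pow_le_pow_right₀ (by linarith) (by norm_num)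
          _ = (T : ℝ) ^ 237 := by rw [← pow_add]

-- MODULE c_f5
/-- case (i): `p q ≤ T^12240` -/
theorem E5_i (X T : ℕ) (hT : 100 ≤ T) (hL : 2 + Real.log X ≤ T) (hX : T ^ 12000 ≤ X) (hX2 : X < T ^ 12001) (s : Finset ℕ)
    (hs : s ⊆ Icc 1 X)
    (h : ∀ n ∈ s, ∃ p q : ℕ, p.Prime ∧ q.Prime ∧ p ∣ n ∧ q ∣ n + 1 ∧ T ^ 600 < (p - 1).gcd (q - 1) ∧
      p * q ≤ T ^ 12240) : (s.card : ℝ) ≤ X / (2 * T ^ 2) := by
  classical
  have hT0 : 0 < T := by omega
  have hX0 : 0 < X := lt_of_lt_of_le (pow_pos hT0 _) hX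
  have hTR : (100 : ℝ) ≤ T := by exact_mod_cast hT
  have hTR0 : (0 : ℝ) < T := by linarith
  have hlogX : 0 ≤ Real.log X := Real.log_nonneg (by exact_mod_cast hX0)
  -- fibres
  have hfib : ∀ p q : ℕ, p.Coprime q → 0 < p → 0 < q → p * q ≤ T ^ 12240 →
      ((s.filter fun n => p ∣ n ∧ q ∣ n + 1).card : ℝ) ≤ 2 * T ^ 12240 / (p * q) := by
    intro p q hpq hp hq hle
    have h1 := card_mod X (p * q) (Nat.mul_pos hp hq) (s.filter fun n => p ∣ n ∧ q ∣ n + 1)
      ((filter_subset _ _).trans hs) (by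
        intro a ha b hb
        rw [mem_filter] at ha hb
        refine (Nat.modEq_and_modEq_iff_modEq_mul hpq).1 ⟨?_, ?_⟩
        · exact ((Nat.modEq_zero_iff_dvd).2 ha.2.1).trans ((Nat.modEq_zero_iff_dvd).2 hb.2.1).symm
        · have : a + 1 ≡ b + 1 [MOD q] :=
            ((Nat.modEq_zero_iff_dvd).2 ha.2.2).trans ((Nat.modEq_zero_iff_dvd).2 hb.2.2).symm
          exact Nat.ModEq.add_right_cancel' 1 this)
    have hpq0 : (0 : ℝ) < (p : ℝ) * q := by
      have : (0 : ℝ) < p := by exact_mod_cast hp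
      have : (0 : ℝ) < q := by exact_mod_cast hq
      positivity
    have h2 : ((s.filter fun n => p ∣ n ∧ q ∣ n + 1).card : ℝ) ≤ (X : ℝ) / (p * q) + 1 := by
      have h3 : ((s.filter fun n => p ∣ n ∧ q ∣ n + 1).card : ℝ) ≤ ((X / (p * q) : ℕ) : ℝ) + 1 := by exact_mod_cast h1
      have h4 : ((X / (p * q) : ℕ) : ℝ) ≤ (X : ℝ) / ((p * q : ℕ) : ℝ) := Nat.cast_div_le
      push_cast at h4
      linarith
    refine h2.trans ?_
    rw [div_add_one hpq0.ne']
    refine div_le_div_of_nonneg_right ?_ hpq0.le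
    have h5 : (X : ℝ) ≤ T ^ 12240 := by
      have : X ≤ T ^ 12240 := hX2.le.trans (Nat.pow_le_pow_right hT0 (by norm_num))
      exact_mod_cast this
    have h6 : (p : ℝ) * q ≤ T ^ 12240 := by exact_mod_cast hle
    linarith
  set G := Ioc (T ^ 600) (X + 1) with hG
  set A := Icc 1 (X + 1) with hA
  -- covering
  have hcov : s ⊆ G.biUnion fun g => ((A ×ˢ A).filter fun ab => (g * ab.1 + 1).Coprime (g * ab.2 + 1) ∧
      (g * ab.1 + 1) * (g * ab.2 + 1) ≤ T ^ 12240).biUnion fun ab =>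
        s.filter fun n => g * ab.1 + 1 ∣ n ∧ g * ab.2 + 1 ∣ n + 1 := by
    intro n hn
    obtain ⟨p, q, hp, hq, hpn, hqn, hg, hle⟩ := h n hn
    have hnX := mem_Icc.1 (hs hn)
    have hpX : p ≤ X := le_trans (Nat.le_of_dvd (by omega) hpn) hnX.2
    have hqX : q ≤ X + 1 := le_trans (Nat.le_of_dvd (by omega) hqn) (by omega)
    have hp2 := hp.two_le
    have hq2 := hq.two_le
    obtain ⟨a, ha⟩ := Nat.gcd_dvd_left (p - 1) (q - 1)
    obtain ⟨b, hb⟩ := Nat.gcd_dvd_right (p - 1) (q - 1)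
    set g := (p - 1).gcd (q - 1) with hgdef
    have hg0 : 0 < g := lt_of_le_of_lt (Nat.zero_le _) hg
    have ha0 : 0 < a := by
      rcases Nat.eq_zero_or_pos a with h0 | h0
      · rw [h0, mul_zero] at ha; omega
      · exact h0
    have hb0 : 0 < b := by
      rcases Nat.eq_zero_or_pos b with h0 | h0
      · rw [h0, mul_zero] at hb; omega
      · exact h0
    have hpe : g * a + 1 = p := by omega
    have hqe : g * b + 1 = q := by omega
    have haX : a ≤ X + 1 := by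
      have : a ≤ g * a := Nat.le_mul_of_pos_left _ hg0
      omega
    have hbX : b ≤ X + 1 := by
      have : b ≤ g * b := Nat.le_mul_of_pos_left _ hg0
      omega
    have hgX : g ≤ X + 1 := by
      have : g ≤ g * a := Nat.le_mul_of_pos_right _ ha0
      omega
    have hcop : p.Coprime q := by
      have h4 : n.Coprime (n + 1) := by simp
      exact Nat.Coprime.coprime_dvd_left hpn (Nat.Coprime.coprime_dvd_right hqn h4)
    simp only [mem_biUnion, mem_filter, mem_product]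
    refine ⟨g, mem_Ioc.2 ⟨hg, hgX⟩, (a, b), ⟨⟨mem_Icc.2 ⟨ha0, haX⟩, mem_Icc.2 ⟨hb0, hbX⟩⟩, ?_, ?_⟩, hn, ?_, ?_⟩
    · simpa only [hpe, hqe] using hcop
    · simpa only [hpe, hqe] using hle
    · simpa only [hpe] using hpn
    · simpa only [hqe] using hqn
  have hsum : (s.card : ℝ) ≤ ∑ g ∈ G, ∑ ab ∈ A ×ˢ A, 2 * (T : ℝ) ^ 12240 / ((g : ℝ) ^ 2 * (ab.1 * ab.2)) := by
    have h1 : s.card ≤ ∑ g ∈ G, ∑ ab ∈ (A ×ˢ A).filter fun ab => (g * ab.1 + 1).Coprime (g * ab.2 + 1) ∧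
      (g * ab.1 + 1) * (g * ab.2 + 1) ≤ T ^ 12240,
        (s.filter fun n => g * ab.1 + 1 ∣ n ∧ g * ab.2 + 1 ∣ n + 1).card :=
      (card_le_card hcov).trans (card_biUnion_le.trans (sum_le_sum fun g _ => card_biUnion_le))
    have h2 : (s.card : ℝ) ≤ ∑ g ∈ G, ∑ ab ∈ (A ×ˢ A).filter fun ab => (g * ab.1 + 1).Coprime (g * ab.2 + 1) ∧
      (g * ab.1 + 1) * (g * ab.2 + 1) ≤ T ^ 12240,
        ((s.filter fun n => g * ab.1 + 1 ∣ n ∧ g * ab.2 + 1 ∣ n + 1).card : ℝ) := by exact_mod_cast h1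
    refine h2.trans (sum_le_sum fun g hg => ?_)
    have hg0 : 0 < g := lt_of_le_of_lt (Nat.zero_le _) (mem_Ioc.1 hg).1
    have hgR : (0 : ℝ) < g := by exact_mod_cast hg0
    refine le_trans (sum_le_sum fun ab hab => ?_)
      (sum_le_sum_of_subset_of_nonneg (filter_subset _ _) fun ab hab _ => ?_)
    · rw [mem_filter, mem_product] at hab
      have ha := (mem_Icc.1 hab.1.1).1
      have hb := (mem_Icc.1 hab.1.2).1
      have haR : (0 : ℝ) < ab.1 := by exact_mod_cast ha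
      have hbR : (0 : ℝ) < ab.2 := by exact_mod_cast hb
      refine (hfib _ _ hab.2.1 (by omega) (by omega) hab.2.2).trans ?_
      refine div_le_div_of_nonneg_left (by positivity) (by positivity) ?_
      push_cast
      have : 0 ≤ (g : ℝ) * ab.1 + g * ab.2 + 1 := by positivity
      nlinarith
    · rw [mem_product] at hab
      positivity
  have hHX : ∑ m ∈ A, (1 : ℝ) / m ≤ T := by
    refine (harm_le (X + 1) (by omega)).trans ?_
    have h1 : Real.log ((X + 1 : ℕ) : ℝ) ≤ Real.log X + 1 := by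
      have h2 : (((X + 1 : ℕ) : ℝ)) ≤ X * Real.exp 1 := by
        have h3 : (2 : ℝ) ≤ Real.exp 1 := by linarith [Real.add_one_le_exp (1 : ℝ)]
        have h4 : (1 : ℝ) ≤ X := by exact_mod_cast hX0
        push_cast
        nlinarith
      have h5 : (0 : ℝ) < ((X + 1 : ℕ) : ℝ) := by positivity
      have h6 := Real.log_le_log h5 h2
      rw [Real.log_mul (by positivity) (by positivity), Real.log_exp] at h6
      exact h6
    linarith
  have hHX0 : 0 ≤ ∑ m ∈ A, (1 : ℝ) / m := sum_nonneg fun _ _ => by positivity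
  have hin : ∀ g ∈ G, ∑ ab ∈ A ×ˢ A, 2 * (T : ℝ) ^ 12240 / ((g : ℝ) ^ 2 * (ab.1 * ab.2)) ≤
      2 * (T : ℝ) ^ 12242 * ((g : ℝ) ^ 2)⁻¹ := by
    intro g hg
    have e1 : ∑ ab ∈ A ×ˢ A, 2 * (T : ℝ) ^ 12240 / ((g : ℝ) ^ 2 * (ab.1 * ab.2)) =
        2 * (T : ℝ) ^ 12240 * ((g : ℝ) ^ 2)⁻¹ * ((∑ a ∈ A, (1 : ℝ) / a) * ∑ b ∈ A, (1 : ℝ) / b) := by
      rw [sum_mul_sum, ← sum_product', mul_sum]
      refine sum_congr rfl fun ab _ => ?_
      rw [one_div, one_div, div_eq_mul_inv, mul_inv, mul_inv]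
      ring
    rw [e1]
    have e2 : (∑ a ∈ A, (1 : ℝ) / a) * ∑ b ∈ A, (1 : ℝ) / b ≤ T * T := mul_le_mul hHX hHX hHX0 hTR0.le
    calc 2 * (T : ℝ) ^ 12240 * ((g : ℝ) ^ 2)⁻¹ * ((∑ a ∈ A, (1 : ℝ) / a) * ∑ b ∈ A, (1 : ℝ) / b)
        ≤ 2 * (T : ℝ) ^ 12240 * ((g : ℝ) ^ 2)⁻¹ * (T * T) := mul_le_mul_of_nonneg_left e2 (by positivity)
      _ = 2 * (T : ℝ) ^ 12242 * ((g : ℝ) ^ 2)⁻¹ := by
          rw [show (12242 : ℕ) = 12240 + 2 from rfl, pow_add]
          generalize (T : ℝ) ^ 12240 = a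
          ring
  have hGs : ∑ g ∈ G, ((g : ℝ) ^ 2)⁻¹ ≤ ((T : ℝ) ^ 600)⁻¹ := by
    rcases le_or_gt (T ^ 600) (X + 1) with hle | hgt
    · have := sum_Ioc_inv_sq_le_sub (α := ℝ) (pow_pos hT0 600).ne' hle
      refine this.trans ?_
      push_cast
      have : (0 : ℝ) ≤ ((X : ℝ) + 1)⁻¹ := by positivity
      linarith
    · rw [hG, Ioc_eq_empty (by omega), sum_empty]
      positivity
  have hfin : (s.card : ℝ) ≤ 2 * (T : ℝ) ^ 11642 := by
    calc (s.card : ℝ) ≤ ∑ g ∈ G, 2 * (T : ℝ) ^ 12242 * ((g : ℝ) ^ 2)⁻¹ := hsum.trans (sum_le_sum hin)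
      _ = 2 * (T : ℝ) ^ 12242 * ∑ g ∈ G, ((g : ℝ) ^ 2)⁻¹ := by rw [mul_sum]
      _ ≤ 2 * (T : ℝ) ^ 12242 * ((T : ℝ) ^ 600)⁻¹ := mul_le_mul_of_nonneg_left hGs (by positivity)
      _ = 2 * (T : ℝ) ^ 11642 := by
          rw [show (12242 : ℕ) = 11642 + 600 from rfl, pow_add, mul_assoc, mul_assoc,
            mul_inv_cancel₀ (pow_pos hTR0 600).ne', mul_one]
  have hXT : (T : ℝ) ^ 12000 ≤ X := by exact_mod_cast hX
  rw [le_div_iff₀ (by positivity)]
  calc (s.card : ℝ) * (2 * T ^ 2) ≤ 2 * (T : ℝ) ^ 11642 * (2 * T ^ 2) := mul_le_mul_of_nonneg_right hfin (by positivity)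
    _ = 4 * (T : ℝ) ^ 11644 := by
        rw [show (11644 : ℕ) = 11642 + 2 from rfl, pow_add]
        generalize (T : ℝ) ^ 11642 = a
        ring
    _ ≤ (T : ℝ) ^ 1 * (T : ℝ) ^ 11644 := by
        refine mul_le_mul_of_nonneg_right ?_ (by positivity)
        rw [pow_one]; linarith
    _ = (T : ℝ) ^ 11645 := by rw [← pow_add]
    _ ≤ (T : ℝ) ^ 12000 := pow_le_pow_right₀ (by linarith) (by norm_num)
    _ ≤ X := hXT

-- MODULE c_f6
theorem E5_card (X T : ℕ) (hT : 100 ≤ T) (hL : 2 + Real.log X ≤ T) (hX : T ^ 12000 ≤ X) (hX2 : X < T ^ 12001) :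
    ((E5 X T).card : ℝ) ≤ X / T ^ 2 := by
  classical
  have hT2 : 2 ≤ T := by omega
  have hn3 : ∀ n ∈ E5 X T, 3 ≤ n := by
    intro n hn
    unfold E5 at hn
    simp only [mem_filter] at hn
    have h1 : 2 ^ 120 ≤ T ^ 120 := Nat.pow_le_pow_left hT2 _
    have h2 : (3 : ℕ) ≤ 2 ^ 120 := by norm_num
    omega
  have hsol : E5 X T ⊆ Sol X := by
    unfold E5
    exact filter_subset _ _
  set s1 := (E5 X T).filter fun n => ∃ p q k k' : ℕ, p.Prime ∧ q.Prime ∧ n = k * p ∧ n + 1 = k' * q ∧ p.Coprime k ∧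
    q.Coprime k' ∧ T ^ 12240 < p * q with hs1
  set s2 := (E5 X T).filter fun n => ∃ p q : ℕ, p.Prime ∧ q.Prime ∧ p ∣ n ∧ q ∣ n + 1 ∧
    T ^ 600 < (p - 1).gcd (q - 1) ∧ p * q ≤ T ^ 12240 with hs2
  have hsub : E5 X T ⊆ s1 ∪ s2 := by
    intro n hn
    obtain ⟨p, q, k, k', hp, hq, hg, h1, h2, c1, c2⟩ := E5_pair hT2 hX2 hn
    rw [mem_union, hs1, hs2, mem_filter, mem_filter]
    rcases lt_or_ge (T ^ 12240) (p * q) with hlt | hge
    · exact Or.inl ⟨hn, p, q, k, k', hp, hq, h1, h2, c1, c2, hlt⟩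
    · exact Or.inr ⟨hn, p, q, hp, hq, ⟨k, by rw [h1, mul_comm]⟩, ⟨k', by rw [h2, mul_comm]⟩, hg, hge⟩
  have hc := card_le_card hsub
  have hc2 := card_union_le s1 s2
  have h1 := E5_ii X T hT hL hX hX2 s1 ((filter_subset _ _).trans hsol) (fun n hn => hn3 n (mem_filter.1 hn).1)
    (fun n hn => (mem_filter.1 hn).2)
  have h2 := E5_i X T hT hL hX hX2 s2
    (fun n hn => by
      have := hsol (mem_filter.1 hn).1
      unfold Sol at this
      exact (mem_filter.1 this).1)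
    (fun n hn => (mem_filter.1 hn).2)
  have h3 : ((E5 X T).card : ℝ) ≤ s1.card + s2.card := by
    exact_mod_cast hc.trans hc2
  have h4 : (X : ℝ) / T ^ 2 = X / (2 * T ^ 2) + X / (2 * T ^ 2) := by
    have hT0 : (T : ℝ) ≠ 0 := by positivity
    field_simp
    norm_num
  linarith

end Pool.Agent.Cnt
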