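import Pool.Agent.Cnt.Smooth

/-! # Theorem C: elementary lemmas -/

set_option autoImplicit false

namespace Pool.Agent.Cnt

open Finset

-- MODULE c_e1
private theorem c_e1_aux (Y : ℕ) (hY : 0 < Y) (N : ℕ) : 0 < N → ∀ c : ℕ, 0 < c → c ≤ Y →
    ∃ m1 P m3 : ℕ, N = m1 * P * m3 ∧ m1.Coprime P ∧ (m1 * P).Coprime m3 ∧ c * m1 ≤ Y ∧
      ((P = 1 ∧ m3 = 1) ∨ (IsPrimePow P ∧ Y < c * m1 * P)) := by
  induction N using Nat.recOnPosPrimePosCoprime with
  | prime_pow p n hp hn =>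
    intro _ c hc hcY
    by_cases h : c * p ^ n ≤ Y
    · exact ⟨p ^ n, 1, 1, by ring, Nat.coprime_one_right _, Nat.coprime_one_right _, h,
        Or.inl ⟨rfl, rfl⟩⟩
    · exact ⟨1, p ^ n, 1, by ring, Nat.coprime_one_left _, Nat.coprime_one_right _, by omega,
        Or.inr ⟨hp.isPrimePow.pow hn.ne', by simpa using h⟩⟩
  | zero => intro h; exact absurd h (lt_irrefl 0)
  | one =>
    intro _ c hc hcY
    exact ⟨1, 1, 1, by norm_num, Nat.coprime_one_right _, Nat.coprime_one_right _, by omega,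
      Or.inl ⟨rfl, rfl⟩⟩
  | coprime a b ha hb hab iha ihb =>
    intro _ c hc hcY
    obtain ⟨m1, P, m3, h1, h2, h3, h4, h5⟩ := iha (by omega) c hc hcY
    rcases h5 with ⟨hP, hm3⟩ | ⟨hP, hlt⟩
    · subst hP; subst hm3
      have ham : a = m1 := by rw [h1]; ring
      subst ham
      obtain ⟨n1, Q, n3, k1, k2, k3, k4, k5⟩ := ihb (by omega) (c * a) (Nat.mul_pos hc (by omega)) h4
      have hdn1 : n1 ∣ b := ⟨Q * n3, by rw [k1]; ring⟩
      have hdQ : Q ∣ b := ⟨n1 * n3, by rw [k1]; ring⟩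
      have hdn3 : n3 ∣ b := ⟨n1 * Q, by rw [k1]; ring⟩
      refine ⟨a * n1, Q, n3, by rw [k1]; ring, ?_, ?_, by rw [← mul_assoc]; exact k4, ?_⟩
      · exact Nat.Coprime.mul_left (hab.coprime_dvd_right hdQ) k2
      · rw [mul_assoc]
        exact Nat.Coprime.mul_left (hab.coprime_dvd_right hdn3) k3
      · rcases k5 with k5 | ⟨k5, k6⟩
        · exact Or.inl k5
        · exact Or.inr ⟨k5, by rw [← mul_assoc]; exact k6⟩
    · have hd1 : m1 * P ∣ a := ⟨m3, h1⟩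
      refine ⟨m1, P, m3 * b, by rw [h1]; ring, h2, ?_, h4, Or.inr ⟨hP, hlt⟩⟩
      exact Nat.Coprime.mul_right h3 (hab.coprime_dvd_left hd1)

/-- **L7** splitting into three coprime parts -/
theorem split3 (N Y : ℕ) (hN : 0 < N) (hY : 0 < Y) (h : N ≤ Y ^ 2) : ∃ m1 P m3 : ℕ, N = m1 * P * m3 ∧
    m1.Coprime P ∧ (m1 * P).Coprime m3 ∧ m1 ≤ Y ∧ m3 ≤ Y ∧ (P = 1 ∨ IsPrimePow P) := by
  obtain ⟨m1, P, m3, h1, h2, h3, h4, h5⟩ := c_e1_aux Y hY N hN 1 one_pos hY
  rw [one_mul] at h4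
  rcases h5 with ⟨hP, hm3⟩ | ⟨hP, hlt⟩
  · exact ⟨m1, P, m3, h1, h2, h3, h4, by omega, Or.inl hP⟩
  · refine ⟨m1, P, m3, h1, h2, h3, h4, ?_, Or.inr hP⟩
    rw [one_mul] at hlt
    by_contra h6
    have h7 : Y * Y < m1 * P * m3 := Nat.mul_lt_mul'' hlt (by omega)
    rw [← h1] at h7
    nlinarith

-- MODULE c_e2
private theorem c_e2_aux (s : Finset ℕ) : (∀ p ∈ s, 2 ≤ p) →
    ∏ p ∈ s, p ≤ (s.card + 1) * ∏ p ∈ s, (p - 1) := by
  induction s using Finset.induction_on_max with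
  | empty => intro _; simp
  | insert a s hs ih =>
    intro h
    have ha : a ∉ s := fun h1 => lt_irrefl a (hs a h1)
    have h2 := ih fun p hp => h p (Finset.mem_insert_of_mem hp)
    have ha2 := h a (Finset.mem_insert_self a s)
    have hc : s.card ≤ a - 2 := by
      have h3 : s ⊆ Finset.Ico 2 a := fun p hp =>
        Finset.mem_Ico.2 ⟨h p (Finset.mem_insert_of_mem hp), hs p hp⟩
      simpa using Finset.card_le_card h3
    rw [Finset.prod_insert ha, Finset.prod_insert ha, Finset.card_insert_of_notMem ha]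
    obtain ⟨b, rfl⟩ : ∃ b, a = b + 2 := ⟨a - 2, by omega⟩
    have h4 : b + 2 - 1 = b + 1 := by omega
    have h5 : s.card ≤ b := by omega
    rw [h4]
    calc (b + 2) * ∏ p ∈ s, p ≤ (b + 2) * ((s.card + 1) * ∏ p ∈ s, (p - 1)) :=
          Nat.mul_le_mul_left _ h2
      _ = ((b + 2) * (s.card + 1)) * ∏ p ∈ s, (p - 1) := by ring
      _ ≤ ((s.card + 1 + 1) * (b + 1)) * ∏ p ∈ s, (p - 1) :=
          Nat.mul_le_mul_right _ (by nlinarith)
      _ = _ := by ring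

/-- **L8** `φ(m) ≥ m / (ω(m) + 1)` -/
theorem totient_ge (m : ℕ) : m ≤ (om m + 1) * m.totient := by
  rcases Nat.eq_zero_or_pos m with rfl | hm
  · simp
  have h1 := Nat.totient_mul_prod_primeFactors m
  have h2 := c_e2_aux m.primeFactors fun p hp => (Nat.prime_of_mem_primeFactors hp).two_le
  have h3 : 0 < ∏ p ∈ m.primeFactors, (p - 1) :=
    Finset.prod_pos fun p hp => by
      have := (Nat.prime_of_mem_primeFactors hp).two_le
      omega
  have h4 : m * ∏ p ∈ m.primeFactors, (p - 1) ≤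
      ((om m + 1) * m.totient) * ∏ p ∈ m.primeFactors, (p - 1) := by
    rw [← h1]
    calc m.totient * ∏ p ∈ m.primeFactors, p
        ≤ m.totient * ((m.primeFactors.card + 1) * ∏ p ∈ m.primeFactors, (p - 1)) :=
          Nat.mul_le_mul_left _ h2
      _ = _ := by unfold om; ring
  exact Nat.le_of_mul_le_mul_right h4 h3

-- MODULE c_e3
/-- **L9** -/
theorem le_gcd_mul {a b c : ℕ} (ha : 0 < a) (h : a ∣ b * c) : a ≤ a.gcd b * a.gcd c := by
  have h1 := Nat.gcd_mul_right_dvd_mul_gcd a b c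
  rw [Nat.gcd_eq_left h] at h1
  exact Nat.le_of_dvd (Nat.mul_pos (Nat.gcd_pos_of_pos_left _ ha) (Nat.gcd_pos_of_pos_left _ ha)) h1

private theorem c_e3_aux {a M : ℕ} (ha : 0 < a) (S : Finset ℕ) (f : ℕ → ℕ)
    (hf : ∀ i ∈ S, a.gcd (f i) ≤ M) : a.gcd (∏ i ∈ S, f i) ≤ M ^ S.card := by
  classical
  induction S using Finset.induction_on with
  | empty => simp
  | insert i S hi ih =>
    rw [Finset.prod_insert hi, Finset.card_insert_of_notMem hi, pow_succ']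
    have h1 := Nat.gcd_mul_right_dvd_mul_gcd a (f i) (∏ i ∈ S, f i)
    have h2 := Nat.le_of_dvd (Nat.mul_pos (Nat.gcd_pos_of_pos_left _ ha)
      (Nat.gcd_pos_of_pos_left _ ha)) h1
    exact h2.trans (Nat.mul_le_mul (hf i (Finset.mem_insert_self i S))
      (ih fun j hj => hf j (Finset.mem_insert_of_mem hj)))

theorem le_gcd_prod {a b M : ℕ} (ha : 0 < a) (hb : 0 < b) (hM : 0 < M) (S : Finset ℕ) (f : ℕ → ℕ)
    (h : a ∣ b * ∏ i ∈ S, f i) (hf : ∀ i ∈ S, a.gcd (f i) ≤ M) (hS : S.card ≤ 4) : a ≤ b * M ^ 4 := by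
  refine (le_gcd_mul ha h).trans (Nat.mul_le_mul (Nat.gcd_le_right _ hb) ?_)
  exact (c_e3_aux ha S f hf).trans (Nat.pow_le_pow_right hM hS)

-- MODULE c_e4
/-- integers in one residue class -/
theorem card_mod (X q : ℕ) (hq : 0 < q) (s : Finset ℕ) (hs : s ⊆ Icc 1 X)
    (h : ∀ a ∈ s, ∀ b ∈ s, a ≡ b [MOD q]) : s.card ≤ X / q + 1 := by
  have h1 : s.card ≤ (Finset.range (X / q + 1)).card := by
    refine Finset.card_le_card_of_injOn (fun a => a / q) (fun a ha => ?_) ?_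
    · have h2 := Finset.mem_Icc.1 (hs ha)
      exact Finset.mem_coe.2 (Finset.mem_range.2 (Nat.lt_succ_of_le (Nat.div_le_div_right h2.2)))
    · intro a ha b hb hab
      have h2 : a % q = b % q := h a ha b hb
      have h3 : a / q = b / q := hab
      rw [← Nat.div_add_mod a q, ← Nat.div_add_mod b q, h2, h3]
  simpa using h1

private theorem c_e4_aux (X q : ℕ) (hq : 0 < q) (hX : q ≤ X) (s : Finset ℕ) (hs : s ⊆ Icc 1 (X + 1))
    (h : ∀ a ∈ s, ∀ b ∈ s, a ≡ b [MOD q]) : (s.card : ℝ) ≤ 3 * X / q := by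
  have h1 := card_mod (X + 1) q hq s hs h
  have hq' : (0 : ℝ) < q := by exact_mod_cast hq
  have hX' : (q : ℝ) ≤ X := by exact_mod_cast hX
  have hX1 : (1 : ℝ) ≤ X := by
    have : 1 ≤ X := by omega
    exact_mod_cast this
  have h2 : (((X + 1) / q : ℕ) : ℝ) ≤ ((X + 1 : ℕ) : ℝ) / q := Nat.cast_div_le
  have h3 : (s.card : ℝ) ≤ ((X + 1 : ℕ) : ℝ) / q + 1 := by
    have : (s.card : ℝ) ≤ (((X + 1) / q + 1 : ℕ) : ℝ) := by exact_mod_cast h1
    push_cast at this h2 ⊢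
    linarith
  refine h3.trans ?_
  rw [div_add_one hq'.ne', div_le_div_iff_of_pos_right hq']
  push_cast
  linarith

/-- `m' ∣ N`, `m ∣ N'`, `N'` one of the two neighbours of `N` -/
theorem card_two (X m m' : ℕ) (hm : 0 < m) (hm' : 0 < m') (hX : m * m' ≤ X) (s : Finset ℕ) (hs : s ⊆ Icc 1 (X + 1))
    (h : ∀ N ∈ s, ∃ N', Nb N N' ∧ m' ∣ N ∧ m ∣ N') : (s.card : ℝ) ≤ 6 * X / (m * m') := by
  classical
  set s1 := s.filter fun N => m' ∣ N ∧ m ∣ N + 1 with hs1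
  set s2 := s.filter fun N => ∃ N', N = N' + 1 ∧ m' ∣ N ∧ m ∣ N' with hs2
  have hcov : s ⊆ s1 ∪ s2 := by
    intro N hN
    obtain ⟨N', h1, h2, h3⟩ := h N hN
    rcases h1 with h1 | h1
    · exact Finset.mem_union_left _ (Finset.mem_filter.2 ⟨hN, h2, by rw [← h1]; exact h3⟩)
    · exact Finset.mem_union_right _ (Finset.mem_filter.2 ⟨hN, N', h1, h2, h3⟩)
  have hc : (s.card : ℝ) ≤ s1.card + s2.card := by
    exact_mod_cast (Finset.card_le_card hcov).trans (Finset.card_union_le _ _)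
  have hmm : 0 < m * m' := Nat.mul_pos hm hm'
  have e1 : (s1.card : ℝ) ≤ 3 * X / (m * m' : ℕ) := by
    refine c_e4_aux X (m * m') hmm hX s1 ((Finset.filter_subset _ _).trans hs) ?_
    intro a ha b hb
    obtain ⟨-, ha1, ha2⟩ := Finset.mem_filter.1 ha
    obtain ⟨-, hb1, hb2⟩ := Finset.mem_filter.1 hb
    have hcop : m.Coprime m' := by
      have h1 : Nat.Coprime (a + 1) a := by simp
      exact Nat.Coprime.coprime_dvd_left ha2 (h1.coprime_dvd_right ha1)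
    rw [← Nat.modEq_and_modEq_iff_modEq_mul hcop]
    refine ⟨?_, ?_⟩
    · have h2 : a + 1 ≡ b + 1 [MOD m] :=
        ((Nat.modEq_zero_iff_dvd.2 ha2).trans (Nat.modEq_zero_iff_dvd.2 hb2).symm)
      exact Nat.ModEq.add_right_cancel' 1 h2
    · exact (Nat.modEq_zero_iff_dvd.2 ha1).trans (Nat.modEq_zero_iff_dvd.2 hb1).symm
  have e2 : (s2.card : ℝ) ≤ 3 * X / (m * m' : ℕ) := by
    refine c_e4_aux X (m * m') hmm hX s2 ((Finset.filter_subset _ _).trans hs) ?_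
    intro a ha b hb
    obtain ⟨-, a', rfl, ha1, ha2⟩ := Finset.mem_filter.1 ha
    obtain ⟨-, b', rfl, hb1, hb2⟩ := Finset.mem_filter.1 hb
    have hcop : m.Coprime m' := by
      have h1 : Nat.Coprime a' (a' + 1) := by simp
      exact Nat.Coprime.coprime_dvd_left ha2 (h1.coprime_dvd_right ha1)
    rw [← Nat.modEq_and_modEq_iff_modEq_mul hcop]
    refine ⟨?_, ?_⟩
    · exact Nat.ModEq.add_right 1
        ((Nat.modEq_zero_iff_dvd.2 ha2).trans (Nat.modEq_zero_iff_dvd.2 hb2).symm)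
    · exact (Nat.modEq_zero_iff_dvd.2 ha1).trans (Nat.modEq_zero_iff_dvd.2 hb1).symm
  have e3 : (6 : ℝ) * X / (m * m') = 3 * X / (m * m' : ℕ) + 3 * X / (m * m' : ℕ) := by
    push_cast
    ring
  rw [e3]
  linarith

-- MODULE c_e5
theorem harm_le (X : ℕ) (hX : 1 ≤ X) : ∑ m ∈ Icc 1 X, (1 : ℝ) / m ≤ 1 + Real.log X := by
  have h1 := harmonic_le_one_add_log X
  rw [harmonic_eq_sum_Icc] at h1
  push_cast at h1
  simpa [one_div] using h1

/-- a residue class mod `g`, without very small members -/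
theorem harm_class (X g : ℕ) (hX : 1 ≤ X) (hg : 0 < g) (s : Finset ℕ) (hs : s ⊆ Icc 1 X)
    (h : ∀ a ∈ s, ∀ b ∈ s, a ≡ b [MOD g]) (h1 : ∀ m ∈ s, g ≤ m + 1) :
    ∑ m ∈ s, (1 : ℝ) / m ≤ 4 * (1 + Real.log X) / g := by
  classical
  have hlog : 0 ≤ Real.log X := Real.log_natCast_nonneg X
  have hg' : (0 : ℝ) < g := by exact_mod_cast hg
  rcases s.eq_empty_or_nonempty with rfl | hne
  · simp only [Finset.sum_empty]
    positivity
  obtain ⟨a, ha, hmin⟩ := Finset.exists_min_image s id hne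
  simp only [id] at hmin
  have ha1 := Finset.mem_Icc.1 (hs ha)
  have hga := h1 a ha
  have key : ∀ m ∈ s, m = a + g * ((m - a) / g) := by
    intro m hm
    have h2 : g ∣ m - a := (Nat.modEq_iff_dvd' (hmin m hm)).1 (h a ha m hm)
    rw [Nat.mul_div_cancel' h2]
    have := hmin m hm
    omega
  have hinj : Set.InjOn (fun m => (m - a) / g + 1) (s : Set ℕ) := by
    intro m hm n hn hmn
    have h2 : (m - a) / g = (n - a) / g := Nat.succ_injective hmn
    rw [key m hm, key n hn, h2]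
  have hbd : ∀ m ∈ s, (1 : ℝ) / m ≤ 2 / g * (1 / (((m - a) / g + 1 : ℕ) : ℝ)) := by
    intro m hm
    have h2 := key m hm
    set j := (m - a) / g with hj
    have h3 : (j + 1) * g ≤ 2 * m := by
      have : g ≤ 2 * a := by omega
      nlinarith
    have hm0 : (0 : ℝ) < m := by
      have := (Finset.mem_Icc.1 (hs hm)).1
      exact_mod_cast this
    have hj0 : (0 : ℝ) < ((j + 1 : ℕ) : ℝ) := by positivity
    rw [div_mul_div_comm, div_le_div_iff₀ hm0 (by positivity)]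
    have h4 : (((j + 1 : ℕ) : ℝ)) * g ≤ 2 * m := by exact_mod_cast h3
    linarith
  have himg : s.image (fun m => (m - a) / g + 1) ⊆ Icc 1 X := by
    intro i hi
    obtain ⟨m, hm, rfl⟩ := Finset.mem_image.1 hi
    have h2 := key m hm
    have h3 := Finset.mem_Icc.1 (hs hm)
    rw [Finset.mem_Icc]
    refine ⟨Nat.le_add_left 1 _, ?_⟩
    show (m - a) / g + 1 ≤ X
    obtain ⟨j, hj⟩ : ∃ j, j = (m - a) / g := ⟨_, rfl⟩
    rw [← hj] at h2 ⊢
    have h4 : j ≤ g * j := Nat.le_mul_of_pos_left j hg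
    have h5 := ha1.1
    have h6 := h3.2
    clear hj
    omega
  calc ∑ m ∈ s, (1 : ℝ) / m ≤ ∑ m ∈ s, 2 / g * (1 / (((m - a) / g + 1 : ℕ) : ℝ)) :=
        Finset.sum_le_sum hbd
    _ = 2 / g * ∑ i ∈ s.image (fun m => (m - a) / g + 1), (1 : ℝ) / (i : ℝ) := by
        rw [← Finset.mul_sum, Finset.sum_image hinj]
    _ ≤ 2 / g * ∑ i ∈ Icc 1 X, (1 : ℝ) / (i : ℝ) := by
        refine mul_le_mul_of_nonneg_left ?_ (by positivity)
        exact Finset.sum_le_sum_of_subset_of_nonneg himg fun i _ _ => by positivity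
    _ ≤ 2 / g * (1 + Real.log X) := mul_le_mul_of_nonneg_left (harm_le X hX) (by positivity)
    _ ≤ 4 * (1 + Real.log X) / g := by
        rw [div_mul_eq_mul_div, div_le_div_iff_of_pos_right hg']
        linarith

-- MODULE c_e6
theorem E3_card (X T : ℕ) (hT : 2 ≤ T) (hX : T ^ 12000 ≤ X) : ((E3 X T).card : ℝ) ≤ 4 * X / T ^ 2 := by
  classical
  have hX0 : 0 < X := lt_of_lt_of_le (Nat.pow_pos (by omega)) hX
  obtain ⟨F, hF⟩ : ∃ F, F = T ^ 1800 := ⟨_, rfl⟩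
  have hF2 : T ^ 2 ≤ F := by
    rw [hF]
    exact Nat.pow_le_pow_right (by omega) (by norm_num)
  have hsub : E3 X T ⊆ (Ioo F (X + 2)).biUnion fun f =>
      (Icc 1 (X + 1)).filter fun N => f ^ 2 ∣ N := by
    intro N hN
    unfold E3 at hN
    obtain ⟨h1, f, h2, h3⟩ := Finset.mem_filter.1 hN
    rw [← hF] at h2
    rw [Finset.mem_biUnion]
    have h4 := Finset.mem_Icc.1 h1
    refine ⟨f, Finset.mem_Ioo.2 ⟨h2, ?_⟩, Finset.mem_filter.2 ⟨h1, h3⟩⟩
    have h5 := Nat.le_of_dvd (by omega) h3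
    have h6 : f ≤ f ^ 2 := Nat.le_self_pow (by norm_num) f
    omega
  have hone : ∀ f ∈ Ioo F (X + 2), (((Icc 1 (X + 1)).filter fun N => f ^ 2 ∣ N).card : ℝ) ≤
      (X + 1 : ℝ) * ((f : ℝ) ^ 2)⁻¹ := by
    intro f hf
    have hf0 : 0 < f := by
      have := (Finset.mem_Ioo.1 hf).1
      omega
    have h1 : ((Icc 1 (X + 1)).filter fun N => f ^ 2 ∣ N).card = (X + 1) / f ^ 2 := by
      have h2 := Nat.Ioc_filter_dvd_card_eq_div (X + 1) (f ^ 2)
      rw [← h2]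
      rfl
    rw [h1]
    refine (Nat.cast_div_le).trans (le_of_eq ?_)
    push_cast
    rw [div_eq_mul_inv]
  have h1 : ((E3 X T).card : ℝ) ≤ ∑ f ∈ Ioo F (X + 2), (X + 1 : ℝ) * ((f : ℝ) ^ 2)⁻¹ := by
    have h2 := (Finset.card_le_card hsub).trans Finset.card_biUnion_le
    have h3 : ((E3 X T).card : ℝ) ≤ ∑ f ∈ Ioo F (X + 2),
        (((Icc 1 (X + 1)).filter fun N => f ^ 2 ∣ N).card : ℝ) := by exact_mod_cast h2
    exact h3.trans (Finset.sum_le_sum hone)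
  rw [← Finset.mul_sum] at h1
  have h2 := sum_Ioo_inv_sq_le (α := ℝ) F (X + 2)
  have hXR : (1 : ℝ) ≤ X := by exact_mod_cast hX0
  have hT2 : (0 : ℝ) < (T : ℝ) ^ 2 := by
    have : (0 : ℝ) < T := by
      have : 0 < T := by omega
      exact_mod_cast this
    positivity
  have hFT : (T : ℝ) ^ 2 ≤ F + 1 := by
    have : ((T ^ 2 : ℕ) : ℝ) ≤ F := by exact_mod_cast hF2
    push_cast at this
    linarith
  calc ((E3 X T).card : ℝ) ≤ (X + 1) * (2 / (F + 1)) :=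
        h1.trans (mul_le_mul_of_nonneg_left h2 (by positivity))
    _ ≤ (2 * X) * (2 / (T : ℝ) ^ 2) := by
        refine mul_le_mul (by linarith) ?_ (by positivity) (by positivity)
        exact div_le_div_of_nonneg_left (by norm_num) hT2 hFT
    _ = _ := by ring

-- MODULE c_e7
/-- pairs `(k, k')` with `k k' ≤ Z` -/
theorem card_hyp (Z : ℕ) (hZ : 1 ≤ Z) :
    ((((Icc 1 Z) ×ˢ (Icc 1 Z)).filter fun q => q.1 * q.2 ≤ Z).card : ℝ) ≤ Z * (1 + Real.log Z) := by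
  classical
  have hsub : (((Icc 1 Z) ×ˢ (Icc 1 Z)).filter fun q => q.1 * q.2 ≤ Z) ⊆
      (Icc 1 Z).biUnion fun k => (Icc 1 (Z / k)).image fun l => (k, l) := by
    rintro ⟨k, l⟩ h
    obtain ⟨h1, h2⟩ := Finset.mem_filter.1 h
    obtain ⟨h3, h4⟩ := Finset.mem_product.1 h1
    have hk := Finset.mem_Icc.1 h3
    have hl := Finset.mem_Icc.1 h4
    rw [Finset.mem_biUnion]
    refine ⟨k, h3, Finset.mem_image.2 ⟨l, Finset.mem_Icc.2 ⟨hl.1, ?_⟩, rfl⟩⟩
    rw [Nat.le_div_iff_mul_le (by exact hk.1)]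
    have h5 : k * l ≤ Z := h2
    rw [mul_comm]
    exact h5
  have h1 := (Finset.card_le_card hsub).trans Finset.card_biUnion_le
  have h2 : ((((Icc 1 Z) ×ˢ (Icc 1 Z)).filter fun q => q.1 * q.2 ≤ Z).card : ℝ) ≤
      ∑ k ∈ Icc 1 Z, (((Icc 1 (Z / k)).image fun l => (k, l)).card : ℝ) := by exact_mod_cast h1
  refine h2.trans ?_
  have h3 : ∀ k ∈ Icc 1 Z, (((Icc 1 (Z / k)).image fun l => (k, l)).card : ℝ) ≤ Z * (1 / (k : ℝ)) := by
    intro k _
    have h4 : ((Icc 1 (Z / k)).image fun l => (k, l)).card ≤ Z / k := by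
      refine Finset.card_image_le.trans ?_
      rw [Nat.card_Icc, Nat.add_sub_cancel]
    have h5 : (((Icc 1 (Z / k)).image fun l => (k, l)).card : ℝ) ≤ ((Z / k : ℕ) : ℝ) := by
      exact_mod_cast h4
    refine h5.trans ((Nat.cast_div_le).trans (le_of_eq ?_))
    ring
  refine (Finset.sum_le_sum h3).trans ?_
  rw [← Finset.mul_sum]
  exact mul_le_mul_of_nonneg_left (harm_le Z hZ) (by positivity)

end Pool.Agent.Cnt
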