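import Pool.Agent.Cnt.Main

/-! # Theorem C, second part: solutions with few prime factors -/

set_option autoImplicit false

namespace Pool.Agent.Cnt

open Finset

open Classical in
/-- the solutions `n` for which `n` and `n+1` have fewer than `K` prime factors -/
noncomputable def Sf (X K : ℕ) : Finset ℕ := (Sol X).filter fun n => om n < K ∧ om (n + 1) < K

theorem few_ineq (X T w K : ℕ) (s : ℝ) (hs : 0 ≤ s) (hT : 1000 ≤ T) (hL : 2 + Real.log X ≤ T) (hX : T ^ 12000 ≤ X)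
    (hX2 : X < T ^ 12001) (hK : K ≤ T) (hw : 2 ^ 12001 ≤ w)
    (hAw : (4 * (1 + Real.log X) * (1 + Real.log X)) ^ 3 ≤ w) :
    ((Sf X K).card : ℝ) ≤ X / T + 4 * X * ((T : ℝ) ^ 60) ^ (-s) * (K * VV X w s ^ K) := by
  classical
  have hT2 : 2 ≤ T := by omega
  obtain ⟨EE, hEE⟩ : ∃ EE, EE = E2 X T w K ∪ (E3 X T ∪ (E4a X T w ∪ E4b X T w)) := ⟨_, rfl⟩
  have hsub : Sf X K ⊆ range (T ^ 120) ∪ (EE ∪ (EE.image (fun N => N - 1) ∪ E5 X T)) := by
    intro n hn
    have hn' := hn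
    rw [Sf, mem_filter] at hn'
    obtain ⟨hnS, ho1, ho2⟩ := hn'
    rcases lt_or_ge n (T ^ 120) with h1 | h1
    · exact mem_union_left _ (mem_range.2 h1)
    · rcases cover (w := w) (K := K) hT2 hX hX2 hnS h1 with ⟨N, hN, hE⟩ | h
      · have hNE : N ∈ EE := by
          rcases hE with hE | hE
          · exfalso
            rw [E1, mem_filter] at hE
            rcases hN with rfl | rfl
            · exact absurd hE.2 (not_le.2 ho1)
            · exact absurd hE.2 (not_le.2 ho2)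
          · rw [hEE]; simp only [mem_union]; exact hE
        rcases hN with rfl | rfl
        · exact mem_union_right _ (mem_union_left _ hNE)
        · exact mem_union_right _ (mem_union_right _ (mem_union_left _ (mem_image.2 ⟨n + 1, hNE, by omega⟩)))
      · exact mem_union_right _ (mem_union_right _ (mem_union_right _ h))
  have hcEE : EE.card ≤ ((E2 X T w K).card + ((E3 X T).card + ((E4a X T w).card + (E4b X T w).card))) := by
    rw [hEE]
    refine ((card_union_le _ _).trans (Nat.add_le_add_left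
      ((card_union_le _ _).trans (Nat.add_le_add_left (card_union_le _ _) _)) _))
  have hc : (Sf X K).card ≤ T ^ 120 + (EE.card + (EE.card + (E5 X T).card)) := by
    refine (card_le_card hsub).trans ((card_union_le _ _).trans ?_)
    rw [card_range]
    refine Nat.add_le_add_left ((card_union_le _ _).trans (Nat.add_le_add_left ((card_union_le _ _).trans ?_) _)) _
    exact Nat.add_le_add_right card_image_le _
  have hc' : ((Sf X K).card : ℝ) ≤ (T : ℝ) ^ 120 + 2 * (((E2 X T w K).card + ((E3 X T).card +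
      ((E4a X T w).card + (E4b X T w).card)))) + (E5 X T).card := by
    have h1 : ((Sf X K).card : ℝ) ≤ ((T ^ 120 + (EE.card + (EE.card + (E5 X T).card)) : ℕ) : ℝ) := by exact_mod_cast hc
    have h2 : (EE.card : ℝ) ≤ ((((E2 X T w K).card + ((E3 X T).card +
      ((E4a X T w).card + (E4b X T w).card))) : ℕ) : ℝ) := by exact_mod_cast hcEE
    push_cast at h1 h2
    linarith
  have b2 := E2_card X T w K s hs hT2 hX hK
  have b3 := E3_card X T hT2 hX
  have b4 := E4a_card X T w hT2 hX hX2 hw hAw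
  have b5 := E4b_card X T w hT2 hX hX2 hw
  have b6 := E5_card X T (by omega) hL hX hX2
  have hTr : (1000 : ℝ) ≤ T := by exact_mod_cast hT
  have hT0 : (0 : ℝ) < T := by linarith
  have hX0 : (0 : ℝ) ≤ X := Nat.cast_nonneg X
  have hLX : 0 ≤ Real.log X := Real.log_natCast_nonneg X
  have c1 : (1 + Real.log X) ^ 2 ≤ (T : ℝ) ^ 2 := pow_le_pow_left₀ (by linarith) (by linarith) 2
  have c2 : (X : ℝ) * (1 + Real.log X) ^ 2 / (T : ℝ) ^ 5 ≤ X / (T : ℝ) ^ 3 := by
    rw [div_le_div_iff₀ (by positivity) (by positivity)]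
    have : (X : ℝ) * (1 + Real.log X) ^ 2 ≤ X * (T : ℝ) ^ 2 := mul_le_mul_of_nonneg_left c1 hX0
    calc (X : ℝ) * (1 + Real.log X) ^ 2 * (T : ℝ) ^ 3 ≤ X * (T : ℝ) ^ 2 * (T : ℝ) ^ 3 :=
          mul_le_mul_of_nonneg_right this (by positivity)
      _ = X * (T : ℝ) ^ 5 := by ring
  have c3 : (X : ℝ) / (T : ℝ) ^ 3 ≤ X / (T : ℝ) / 1000000 := by
    rw [div_div, div_le_div_iff₀ (by positivity) (by positivity)]
    have : (T : ℝ) * 1000000 ≤ (T : ℝ) ^ 3 := by nlinarith [mul_nonneg hT0.le hT0.le]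
    nlinarith
  have c4 : (X : ℝ) / (T : ℝ) ^ 2 ≤ X / (T : ℝ) / 1000 := by
    rw [div_div, div_le_div_iff₀ (by positivity) (by positivity)]
    have : (T : ℝ) * 1000 ≤ (T : ℝ) ^ 2 := by nlinarith
    nlinarith
  have c5 : (T : ℝ) ^ 120 ≤ X / (T : ℝ) ^ 2 := by
    rw [le_div_iff₀ (by positivity), ← pow_add]
    have h1 : T ^ (120 + 2) ≤ X := (Nat.pow_le_pow_right (by omega) (by omega)).trans hX
    exact_mod_cast h1
  have c6 : 0 ≤ (X : ℝ) / T := by positivity
  have e1 : 6 * (X : ℝ) * (1 + Real.log X) ^ 2 / (T : ℝ) ^ 5 = 6 * (X * (1 + Real.log X) ^ 2 / (T : ℝ) ^ 5) := by ring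
  have e2 : 32 * (X : ℝ) * (1 + Real.log X) ^ 2 / (T : ℝ) ^ 5 = 32 * (X * (1 + Real.log X) ^ 2 / (T : ℝ) ^ 5) := by ring
  have e3 : 4 * (X : ℝ) / (T : ℝ) ^ 2 = 4 * (X / (T : ℝ) ^ 2) := by ring
  have e5 : 4 * (X : ℝ) * ((T : ℝ) ^ 60) ^ (-s) * (K * VV X w s ^ K) =
      2 * (2 * X * ((T : ℝ) ^ 60) ^ (-s) * (K * VV X w s ^ K)) := by ring
  rw [e5]
  rw [e1] at b4
  rw [e2] at b5
  rw [e3] at b3
  linarith

private theorem few_ev {P : ℝ → Prop} (h : ∀ᶠ t : ℝ in Filter.atTop, P t) :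
    ∀ᶠ X : ℕ in Filter.atTop, P (Real.log (Real.log X)) ∧ Real.exp (Real.log (Real.log X)) = Real.log X ∧
      0 < Real.log X := by
  have h1 : Filter.Tendsto (fun X : ℕ => Real.log (Real.log X)) Filter.atTop Filter.atTop :=
    Real.tendsto_log_atTop.comp (Real.tendsto_log_atTop.comp tendsto_natCast_atTop_atTop)
  filter_upwards [h1.eventually h, Filter.eventually_ge_atTop 3] with X hX hX3
  have hL : 0 < Real.log X := Real.log_pos (by exact_mod_cast (show 1 < X by omega))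
  exact ⟨hX, Real.exp_log hL, hL⟩

/-- facts about `lam = log (L / K)` -/
private theorem few_lam {η L t u K : ℝ} (hη0 : 0 < η) (hη1 : η ≤ 1) (hL0 : 0 < L) (ht : t = Real.log L) (hu' : u = Real.log t)
    (ht0 : 0 < t) (hu : 1 ≤ u) (hK1 : 1 ≤ K) (hKc : K ≤ η ^ 2 * L * u / t ^ 2) {lam : ℝ} (hlam : lam = Real.log (L / K)) :
    K = L * Real.exp (-lam) ∧ Real.exp (-lam) ≤ η ^ 2 * u / t ^ 2 ∧ lam ≤ t ∧ u ≤ lam := by
  have hK0 : (0 : ℝ) < K := by linarith
  have hu0 : 0 < u := by linarith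
  have hKL : K = L * Real.exp (-lam) := by
    rw [hlam, Real.exp_neg, Real.exp_log (by positivity)]
    field_simp
  have hexpl : Real.exp (-lam) ≤ η ^ 2 * u / t ^ 2 := by
    have h1 : L * Real.exp (-lam) ≤ L * (η ^ 2 * u / t ^ 2) := by
      rw [← hKL]
      calc (K : ℝ) ≤ _ := hKc
        _ = _ := by ring
    exact le_of_mul_le_mul_left h1 hL0
  refine ⟨hKL, hexpl, ?_, ?_⟩
  · rw [hlam, Real.log_div hL0.ne' hK0.ne', ← ht]
    have := Real.log_nonneg hK1
    linarith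
  · have h1 : -lam ≤ Real.log (η ^ 2 * u / t ^ 2) := by
      rw [Real.le_log_iff_exp_le (by positivity)]; exact hexpl
    rw [Real.log_div (by positivity) (by positivity), Real.log_mul (by positivity) hu0.ne', Real.log_pow, Real.log_pow,
      ← hu'] at h1
    have h2 : Real.log η ≤ 0 := Real.log_nonpos hη0.le hη1
    have h3 : Real.log u ≤ u - 1 := Real.log_le_sub_one_of_pos hu0
    push_cast at h1
    linarith

/-- the parameter `w` -/
private theorem few_w {W : ℕ} {L t : ℝ} (hL0 : 0 < L) (ht : t = Real.log L) (ht3 : 3 ≤ t) (hW : 2 ^ 12001 ≤ W)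
    (hE2 : (W : ℝ) ≤ L) (hE3 : 100 ≤ L) : ∃ w : ℕ, 2 ^ 12001 ≤ w ∧ (4 * (1 + L) * (1 + L)) ^ 3 ≤ w ∧ 3 ≤ w ∧
      0 < Real.log w ∧ Real.log w ≤ 9 * t := by
  obtain ⟨w, hw⟩ : ∃ w : ℕ, w = ⌊L ^ 9⌋₊ := ⟨_, rfl⟩
  have hw1 : (w : ℝ) ≤ L ^ 9 := by rw [hw]; exact Nat.floor_le (by positivity)
  have hw2 : L ^ 9 - 1 ≤ w := by
    have := Nat.lt_floor_add_one (L ^ 9)
    rw [← hw] at this
    linarith only [this]
  have hL6 : (1 : ℝ) ≤ L ^ 6 := one_le_pow₀ (by linarith)
  have hL3 : (1000000 : ℝ) ≤ L ^ 3 := by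
    calc (1000000 : ℝ) = 100 ^ 3 := by norm_num
      _ ≤ L ^ 3 := pow_le_pow_left₀ (by norm_num) hE3 3
  have hw3 : 4096 * L ^ 6 ≤ w := by
    have e : L ^ 9 = L ^ 6 * L ^ 3 := by ring
    have e2 : L ^ 6 * 1000000 ≤ L ^ 6 * L ^ 3 := mul_le_mul_of_nonneg_left hL3 (by positivity)
    linarith only [e, e2, hw2, hL6]
  have hw4 : L ≤ w := by
    have : L ≤ L ^ 6 := le_self_pow₀ (by linarith only [hE3]) (by norm_num)
    linarith only [this, hw3, hL6]
  have hwr0 : (0 : ℝ) < w := by linarith only [hw4, hL0]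
  have hlogw1 : Real.log w ≤ 9 * t := by
    calc Real.log w ≤ Real.log (L ^ 9) := Real.log_le_log hwr0 hw1
      _ = 9 * t := by rw [Real.log_pow, ← ht]; norm_num
  have hlogw2 : 6 * t ≤ Real.log w := by
    calc 6 * t = Real.log (L ^ 6) := by rw [Real.log_pow, ← ht]; norm_num
      _ ≤ Real.log w := Real.log_le_log (by positivity) (by linarith)
  refine ⟨w, ?_, ?_, ?_, by linarith, hlogw1⟩
  · refine hW.trans ?_
    have : (W : ℝ) ≤ w := hE2.trans hw4
    exact_mod_cast this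
  · have a1 : (4 * (1 + L) * (1 + L)) ≤ 16 * L ^ 2 := by nlinarith only [hE3]
    calc (4 * (1 + L) * (1 + L)) ^ 3 ≤ (16 * L ^ 2) ^ 3 := pow_le_pow_left₀ (by positivity) a1 3
      _ = 4096 * L ^ 6 := by ring
      _ ≤ w := hw3
  · have : ((3 : ℕ) : ℝ) ≤ w := by push_cast; linarith
    exact_mod_cast this

private theorem few_logV {C1 L t B V lw E : ℝ} (hC1 : 0 < C1) (hL1 : 1 ≤ L) (ht : t = Real.log L) (ht3 : 3 ≤ t)
    (hlogw0 : 0 < lw) (hlogw1 : lw ≤ 9 * t) (hB : B ≤ E) (hV1 : 1 ≤ V)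
    (hV2 : V ≤ 3 * (1 + L) * Real.exp (C1 * (Real.log lw + B + 1))) :
    1 + Real.log V ≤ (3 + 9 * C1) * t + C1 * E := by
  have hL0 : 0 < L := by linarith
  have h1 : Real.log V ≤ Real.log (3 * (1 + L) * Real.exp (C1 * (Real.log lw + B + 1))) :=
    Real.log_le_log (by linarith) hV2
  rw [Real.log_mul (by positivity) (Real.exp_pos _).ne', Real.log_exp,
    Real.log_mul (by norm_num) (by positivity)] at h1
  have h2 : Real.log 3 ≤ 2 - Real.log 2 := by
    have : Real.log 3 + Real.log 2 = Real.log 6 := by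
      rw [← Real.log_mul (by norm_num) (by norm_num)]; norm_num
    have h6 : Real.log 6 ≤ 2 := by
      rw [Real.log_le_iff_le_exp (by norm_num)]
      have := Real.exp_one_gt_d9
      have e : Real.exp 2 = Real.exp 1 * Real.exp 1 := by rw [← Real.exp_add]; norm_num
      rw [e]; nlinarith
    linarith
  have h3 : Real.log (1 + L) ≤ Real.log 2 + t := by
    calc Real.log (1 + L) ≤ Real.log (2 * L) := Real.log_le_log (by positivity) (by linarith)
      _ = Real.log 2 + t := by rw [Real.log_mul (by norm_num) hL0.ne', ht]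
  have h4 : Real.log lw ≤ 9 * t - 1 := by
    calc Real.log lw ≤ Real.log (9 * t) := Real.log_le_log hlogw0 hlogw1
      _ ≤ 9 * t - 1 := Real.log_le_sub_one_of_pos (by linarith)
  have h5 : C1 * (Real.log lw + B + 1) ≤ C1 * (9 * t + E) :=
    mul_le_mul_of_nonneg_left (by linarith) hC1.le
  have h6 : C1 * (9 * t + E) = 9 * C1 * t + C1 * E := by ring
  have h7 : (3 + 9 * C1) * t = 3 * t + 9 * C1 * t := by ring
  linarith only [h1, h2, h3, h5, h6, h7, ht3]

private theorem few_KV {C1 D η δ L t u lam K lV : ℝ} (hC1 : 0 < C1) (hδ0 : 0 < δ) (hη0 : 0 < η) (hη1 : η ≤ 1)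
    (hD : 0 < D) (hηD : D * η = δ / 108) (hηC : C1 * η ≤ δ / 108) (hL0 : 0 < L) (ht0 : 0 < t) (hu : 1 ≤ u)
    (hKL : K = L * Real.exp (-lam)) (hexpl : Real.exp (-lam) ≤ η ^ 2 * u / t ^ 2) (hlamu : u ≤ lam)
    (hlogV : 1 + lV ≤ D * t + C1 * Real.exp (lam / 2)) :
    K * (1 + lV) ≤ δ / 108 * (L / t * lam) + δ / 108 * (L / t * lam) := by
  have hu0 : 0 < u := by linarith
  have h1 : (K : ℝ) * (1 + lV) ≤ L * Real.exp (-lam) * (D * t + C1 * Real.exp (lam / 2)) := by
    rw [hKL]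
    exact mul_le_mul_of_nonneg_left hlogV (by positivity)
  have h2 : L * Real.exp (-lam) * (D * t + C1 * Real.exp (lam / 2)) =
      L * (D * t * Real.exp (-lam)) + L * (C1 * Real.exp (-(lam / 2))) := by
    have : Real.exp (-(lam / 2)) = Real.exp (-lam) * Real.exp (lam / 2) := by
      rw [← Real.exp_add]; congr 1; ring
    rw [this]; ring
  have hul : u / t ≤ lam / t := div_le_div_of_nonneg_right hlamu ht0.le
  have hut0 : 0 ≤ u / t := by positivity
  have h3 : D * t * Real.exp (-lam) ≤ δ / 108 * (lam / t) := by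
    have h4 : D * t * Real.exp (-lam) ≤ D * t * (η ^ 2 * u / t ^ 2) :=
      mul_le_mul_of_nonneg_left hexpl (by positivity)
    have h5 : D * t * (η ^ 2 * u / t ^ 2) = (D * η) * η * (u / t) := by field_simp
    rw [h5, hηD] at h4
    have h6 : δ / 108 * η * (u / t) ≤ δ / 108 * (lam / t) := by
      calc δ / 108 * η * (u / t) ≤ δ / 108 * 1 * (u / t) :=
            mul_le_mul_of_nonneg_right (mul_le_mul_of_nonneg_left hη1 (by positivity)) hut0
        _ = δ / 108 * (u / t) := by ring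
        _ ≤ _ := mul_le_mul_of_nonneg_left hul (by positivity)
    linarith only [h4, h6]
  have h7 : C1 * Real.exp (-(lam / 2)) ≤ δ / 108 * (lam / t) := by
    have h8 : Real.exp (-(lam / 2)) ≤ η * u / t := by
      have h9 : Real.exp (-(lam / 2)) ^ 2 ≤ (η * u / t) ^ 2 := by
        have e : Real.exp (-(lam / 2)) ^ 2 = Real.exp (-lam) := by
          rw [sq, ← Real.exp_add]; congr 1; ring
        rw [e, div_pow, mul_pow]
        have e3 : u ≤ u ^ 2 := by nlinarith only [hu]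
        exact hexpl.trans (div_le_div_of_nonneg_right (mul_le_mul_of_nonneg_left e3 (by positivity)) (by positivity))
      exact le_of_sq_le_sq h9 (by positivity)
    calc C1 * Real.exp (-(lam / 2)) ≤ C1 * (η * u / t) := mul_le_mul_of_nonneg_left h8 hC1.le
      _ = (C1 * η) * (u / t) := by ring
      _ ≤ δ / 108 * (u / t) := mul_le_mul_of_nonneg_right hηC hut0
      _ ≤ _ := mul_le_mul_of_nonneg_left hul (by positivity)
  have h10 : L * (δ / 108 * (lam / t)) = δ / 108 * (L / t * lam) := by ring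
  have h11 := mul_le_mul_of_nonneg_left h3 hL0.le
  have h12 := mul_le_mul_of_nonneg_left h7 hL0.le
  rw [h10] at h11 h12
  linarith only [h1, h2, h11, h12]

private theorem few_pow {δ z V : ℝ} {K : ℕ} (hV1 : 1 ≤ V) (hz4 : Real.log 4 ≤ δ / 108 * z)
    (hKV : (K : ℝ) * (1 + Real.log V) ≤ δ / 108 * z + δ / 108 * z) : (4 : ℝ) * (K * V ^ K) ≤ Real.exp (δ / 36 * z) := by
  have h1 : (K : ℝ) ≤ Real.exp K := by linarith [Real.add_one_le_exp (K : ℝ)]
  have h2 : V ^ K = Real.exp (K * Real.log V) := by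
    rw [Real.exp_nat_mul, Real.exp_log (by linarith)]
  calc (4 : ℝ) * (K * V ^ K) ≤ Real.exp (Real.log 4) * (Real.exp K * Real.exp (K * Real.log V)) := by
        rw [Real.exp_log (by norm_num), h2]
        have := mul_le_mul_of_nonneg_right h1 (Real.exp_pos (K * Real.log V)).le
        linarith
    _ = Real.exp (Real.log 4 + (K + K * Real.log V)) := by rw [Real.exp_add, Real.exp_add]
    _ ≤ Real.exp (δ / 36 * z) := by
        apply Real.exp_le_exp.2
        have e : (K : ℝ) + K * Real.log V = K * (1 + Real.log V) := by ring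
        rw [e]
        linarith

private theorem few_fin {X T K : ℕ} {δ s z L t lam V : ℝ} {F : ℝ} (hδ : δ = 60 / 12001) (hT : 1 ≤ T) (hz : z = L / t * lam)
    (ht0 : 0 < t) (hs : s = lam / (18 * t)) (hs0 : 0 ≤ s) (hz0 : 0 ≤ z) (hzL : z ≤ L) (hTlog : L / 12001 ≤ Real.log T)
    (hmain : (4 : ℝ) * (K * V ^ K) ≤ Real.exp (δ / 36 * z)) (hV0 : 0 ≤ V) (hz2 : Real.log 2 ≤ 1 / 24002 * z)
    (hF : F ≤ X / T + 4 * X * ((T : ℝ) ^ 60) ^ (-s) * (K * V ^ K)) :
    F ≤ X * Real.exp (-(1 / 24002 * z)) := by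
  have hTr : (0 : ℝ) < T := by exact_mod_cast (show 0 < T by omega)
  have hX0 : (0 : ℝ) ≤ X := Nat.cast_nonneg X
  have hTs : ((T : ℝ) ^ 60) ^ (-s) ≤ Real.exp (-(δ / 18 * z)) := by
    rw [Real.rpow_def_of_pos (by positivity), Real.log_pow]
    apply Real.exp_le_exp.2
    have h2 : L / 12001 * s ≤ Real.log T * s := mul_le_mul_of_nonneg_right hTlog hs0
    have h3 : δ / 18 * z = 60 * (L / 12001 * s) := by
      rw [hδ, hz, hs]; field_simp
    rw [h3]
    push_cast
    linarith only [h2]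
  have B0 : (X : ℝ) / T ≤ X * Real.exp (-(1 / 12001 * z)) := by
    rw [div_eq_mul_inv]
    refine mul_le_mul_of_nonneg_left ?_ hX0
    rw [Real.exp_neg]
    refine inv_anti₀ (Real.exp_pos _) ?_
    rw [← Real.le_log_iff_exp_le hTr]
    refine le_trans ?_ hTlog
    linarith only [hzL]
  have B2 : 4 * (X : ℝ) * ((T : ℝ) ^ 60) ^ (-s) * (K * V ^ K) ≤ X * Real.exp (-(1 / 12001 * z)) := by
    calc 4 * (X : ℝ) * ((T : ℝ) ^ 60) ^ (-s) * (K * V ^ K) = X * (((T : ℝ) ^ 60) ^ (-s) * (4 * (K * V ^ K))) := by ring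
      _ ≤ X * (Real.exp (-(δ / 18 * z)) * Real.exp (δ / 36 * z)) := by
          refine mul_le_mul_of_nonneg_left ?_ hX0
          exact mul_le_mul hTs hmain (by positivity) (Real.exp_pos _).le
      _ = X * Real.exp (-(δ / 36 * z)) := by
          rw [← Real.exp_add]; congr 2; ring
      _ ≤ X * Real.exp (-(1 / 12001 * z)) := by
          refine mul_le_mul_of_nonneg_left (Real.exp_le_exp.2 (neg_le_neg (mul_le_mul_of_nonneg_right ?_ hz0))) hX0
          rw [hδ]; norm_num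
  calc F ≤ X * Real.exp (-(1 / 12001 * z)) + X * Real.exp (-(1 / 12001 * z)) := by linarith only [hF, B0, B2]
    _ = X * (Real.exp (Real.log 2) * Real.exp (-(1 / 12001 * z))) := by
        rw [Real.exp_log (by norm_num)]; ring
    _ ≤ X * Real.exp (-(1 / 24002 * z)) := by
        refine mul_le_mul_of_nonneg_left ?_ hX0
        rw [← Real.exp_add]
        apply Real.exp_le_exp.2
        linarith only [hz2]

/-- the range of small `K` -/
theorem few_small : ∃ c c1 : ℝ, 0 < c ∧ 0 < c1 ∧ c1 ≤ 1 ∧ ∀ᶠ X : ℕ in Filter.atTop, ∀ K : ℕ, 1 ≤ K →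
    (K : ℝ) ≤ c1 * Real.log X * Real.log (Real.log (Real.log X)) / Real.log (Real.log X) ^ 2 →
    Real.log (Real.log (Real.log X)) ≤ Real.log (Real.log X / K) ∧
    ((Sf X K).card : ℝ) ≤ X * Real.exp (-(c * (Real.log X / Real.log (Real.log X)) * Real.log (Real.log X / K))) := by
  obtain ⟨C1, hC1, hVV⟩ := VV_le
  obtain ⟨δ, hδ⟩ : ∃ δ : ℝ, δ = 60 / 12001 := ⟨_, rfl⟩
  have hδ0 : 0 < δ := by rw [hδ]; norm_num
  have hδ1 : δ ≤ 1 := by rw [hδ]; norm_num
  obtain ⟨D, hD⟩ : ∃ D : ℝ, D = 3 + 9 * C1 := ⟨_, rfl⟩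
  have hD3 : 3 ≤ D := by rw [hD]; linarith
  obtain ⟨η, hη⟩ : ∃ η : ℝ, η = δ / (108 * D) := ⟨_, rfl⟩
  have hη0 : 0 < η := by rw [hη]; positivity
  have hηD : D * η = δ / 108 := by rw [hη]; field_simp
  have hη1 : η ≤ 1 := by nlinarith
  have hηC : C1 * η ≤ δ / 108 := by rw [← hηD]; exact mul_le_mul_of_nonneg_right (by linarith) hη0.le
  refine ⟨1 / 24002, η ^ 2, by norm_num, by positivity, by nlinarith, ?_⟩
  obtain ⟨W, hW⟩ : ∃ W : ℕ, 2 ^ 12001 ≤ W := ⟨_, le_rfl⟩
  have hlog4 : 0 < Real.log 4 := Real.log_pos (by norm_num)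
  have hlog2 : 0 < Real.log 2 := Real.log_pos (by norm_num)
  have ev : ∀ᶠ t : ℝ in Filter.atTop, 3 ≤ t ∧ 1 ≤ Real.log t ∧ 108 * Real.log 4 / δ + 24002 * Real.log 2 ≤ Real.exp t / t ^ 2 ∧
      (W : ℝ) ≤ Real.exp t ∧ 100 ≤ Real.exp t := by
    have g1 := Real.tendsto_exp_div_pow_atTop 2
    filter_upwards [Filter.eventually_ge_atTop 3, Real.tendsto_log_atTop.eventually_ge_atTop 1,
      g1.eventually_ge_atTop (108 * Real.log 4 / δ + 24002 * Real.log 2),
      Real.tendsto_exp_atTop.eventually_ge_atTop (W : ℝ),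
      Real.tendsto_exp_atTop.eventually_ge_atTop 100] with t a1 a2 a4 a5 a6
    exact ⟨a1, a2, a4, a5, a6⟩
  filter_upwards [few_ev ev, Filter.eventually_ge_atTop 3, exists_T] with X hX hX3 hXT K hK1 hKc
  obtain ⟨⟨ht3, hu, hE1, hE2, hE3⟩, hLt, hL0⟩ := hX
  obtain ⟨T, hT1000, hTL, hTX, hTX2, hTlog⟩ := hXT
  set L := Real.log X with hL
  set t := Real.log L with ht
  set u := Real.log t with hu'
  clear_value u t L
  rw [hLt] at hE1 hE2 hE3
  have ht0 : 0 < t := by linarith only [ht3]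
  have hu0 : 0 < u := by linarith only [hu]
  have hKr : (1 : ℝ) ≤ K := by exact_mod_cast hK1
  obtain ⟨lam, hlam⟩ : ∃ lam : ℝ, lam = Real.log (L / K) := ⟨_, rfl⟩
  obtain ⟨hKL, hexpl, hlamt, hlamu⟩ := few_lam hη0 hη1 hL0 ht hu' ht0 hu hKr hKc hlam
  have hlam0 : 0 < lam := by linarith only [hu0, hlamu]
  rw [← hlam]
  refine ⟨hlamu, ?_⟩
  obtain ⟨w, hwn, hwA, hw3n, hlogw0, hlogw1⟩ := few_w hL0 ht ht3 hW hE2 hE3
  obtain ⟨s, hs⟩ : ∃ s, s = lam / (18 * t) := ⟨_, rfl⟩
  have hs0 : 0 ≤ s := by rw [hs]; positivity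
  have hs1 : s ≤ 1 / 10 := by
    rw [hs, div_le_iff₀ (by positivity)]; linarith only [hlamt, ht0]
  obtain ⟨B, hB⟩ : ∃ B, B = Real.exp (s * Real.log w) := ⟨_, rfl⟩
  have hB1 : 1 ≤ B := by rw [hB]; exact Real.one_le_exp (by positivity)
  have hsw : s * Real.log w = Real.log B := by rw [hB, Real.log_exp]
  have hBle : B ≤ Real.exp (lam / 2) := by
    rw [hB]
    apply Real.exp_le_exp.2
    have h1 : s * Real.log w ≤ s * (9 * t) := mul_le_mul_of_nonneg_left hlogw1 hs0
    have h2 : s * (9 * t) = lam / 2 := by rw [hs]; field_simp; ring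
    linarith only [h1, h2]
  have hKT : K ≤ T := by
    have a2 : η ^ 2 * L * u / t ^ 2 ≤ L := by
      rw [div_le_iff₀ (by positivity)]
      have a0 : η ^ 2 ≤ 1 := pow_le_one₀ hη0.le hη1
      have hut : u ≤ t := hlamu.trans hlamt
      have a3 : η ^ 2 * u ≤ t * t := mul_le_mul (a0.trans (by linarith only [ht3])) hut hu0.le ht0.le
      calc η ^ 2 * L * u = L * (η ^ 2 * u) := by ring
        _ ≤ L * (t * t) := mul_le_mul_of_nonneg_left a3 hL0.le
        _ = L * t ^ 2 := by ring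
    have a4 : (K : ℝ) ≤ T := by linarith only [a2, hKc, hTL]
    exact_mod_cast a4
  have hV1 : 1 ≤ VV X w s := by
    rw [VV]
    have : 0 ≤ ∑ P ∈ PP X, (sm w P.totient : ℝ) ^ s / P := sum_nonneg fun P _ => by positivity
    linarith only [this]
  have hV2 := hVV X w B s hX3 hw3n hB1 hs0 hs1 hsw
  rw [← hL] at hV2
  have hineq := few_ineq X T w K s hs0 hT1000 (by rw [← hL]; exact hTL) hTX hTX2 hKT hwn (by rw [← hL]; exact hwA)
  obtain ⟨V, hVd⟩ : ∃ V, V = VV X w s := ⟨_, rfl⟩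
  rw [← hVd] at hV1 hV2 hineq
  have hlogV := few_logV hC1 (by linarith only [hE3]) ht ht3 hlogw0 hlogw1 hBle hV1 hV2
  rw [← hD] at hlogV
  have hKV := few_KV hC1 hδ0 hη0 hη1 (by linarith only [hD3]) hηD hηC hL0 ht0 hu hKL hexpl hlamu hlogV
  obtain ⟨z, hz⟩ : ∃ z, z = L / t * lam := ⟨_, rfl⟩
  rw [← hz] at hKV
  have hz0 : 0 ≤ z := by rw [hz]; positivity
  have hzu : L / t ^ 2 ≤ z := by
    rw [hz]
    have h1 : L / t ^ 2 = L / t * (1 / t) := by field_simp
    rw [h1]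
    refine mul_le_mul_of_nonneg_left ?_ (by positivity)
    have : 1 / t ≤ 1 := by rw [div_le_one ht0]; linarith only [ht3]
    linarith only [this, hu, hlamu]
  have hz4 : Real.log 4 ≤ δ / 108 * z := by
    have h1 := hE1.trans hzu
    have h2 : 108 * Real.log 4 / δ ≤ z := by
      have : 0 ≤ 24002 * Real.log 2 := by positivity
      linarith only [h1, this]
    rw [div_le_iff₀ hδ0] at h2
    linarith only [h2]
  have hz2 : Real.log 2 ≤ 1 / 24002 * z := by
    have h1 := hE1.trans hzu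
    have h2 : 0 ≤ 108 * Real.log 4 / δ := by positivity
    linarith only [h1, h2]
  have hzL : z ≤ L := by
    rw [hz]
    have : L / t * lam ≤ L / t * t := mul_le_mul_of_nonneg_left hlamt (by positivity)
    rwa [div_mul_cancel₀ _ ht0.ne'] at this
  have hmain := few_pow hV1 hz4 hKV
  have hfin := few_fin (X := X) hδ (by omega) hz ht0 hs hs0 hz0 hzL hTlog hmain (by linarith only [hV1]) hz2 hineq
  have e1 : 1 / 24002 * (L / t) * lam = 1 / 24002 * z := by rw [hz]; ring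
  rw [e1]
  exact hfin

/-- **THEOREM C, uniform form** -/
theorem count_unif : ∃ c : ℝ, 0 < c ∧ ∃ X₀ : ℕ, ∀ X : ℕ, X₀ ≤ X → ∀ K : ℕ, 1 ≤ K →
    ((Sf X K).card : ℝ) ≤ X * Real.exp (-(c * (Real.log X / Real.log (Real.log X)) *
      max (Real.log (Real.log (Real.log X))) (Real.log (Real.log X / K)))) := by
  obtain ⟨c2, c1, hc2, hc1, hc11, h1⟩ := few_small
  obtain ⟨c3, hc3, X3, h3⟩ := count_sol
  obtain ⟨c, hc⟩ : ∃ c : ℝ, c = min c2 (c3 / 3) := ⟨_, rfl⟩
  have hc0 : 0 < c := by rw [hc]; exact lt_min hc2 (by positivity)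
  have hcc2 : c ≤ c2 := hc ▸ min_le_left _ _
  have hcc3 : c ≤ c3 / 3 := hc ▸ min_le_right _ _
  refine ⟨c, hc0, ?_⟩
  rw [← Filter.eventually_atTop (p := fun X : ℕ => ∀ K : ℕ, 1 ≤ K →
    ((Sf X K).card : ℝ) ≤ X * Real.exp (-(c * (Real.log X / Real.log (Real.log X)) *
      max (Real.log (Real.log (Real.log X))) (Real.log (Real.log X / K)))))]
  have ev : ∀ᶠ t : ℝ in Filter.atTop, 3 ≤ t ∧ 1 + Real.log (1 / c1) ≤ Real.log t ∧ 1 ≤ Real.log t := by
    filter_upwards [Filter.eventually_ge_atTop 3, Real.tendsto_log_atTop.eventually_ge_atTop (1 + Real.log (1 / c1)),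
      Real.tendsto_log_atTop.eventually_ge_atTop 1] with t a1 a2 a3
    exact ⟨a1, a2, a3⟩
  filter_upwards [few_ev ev, Filter.eventually_ge_atTop X3, h1] with X hX hX3 hX1 K hK1
  obtain ⟨⟨ht3, hu1, hu⟩, hLt, hL0⟩ := hX
  have hs := h3 X hX3
  have hXK := hX1 K hK1
  set L := Real.log X with hL
  set t := Real.log L with ht
  set u := Real.log t with hu'
  have ht0 : 0 < t := by linarith
  have hKr : (1 : ℝ) ≤ K := by exact_mod_cast hK1
  have hX0 : (0 : ℝ) ≤ X := Nat.cast_nonneg X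
  rcases le_or_gt (K : ℝ) (c1 * L * u / t ^ 2) with h | h
  · obtain ⟨a1, a2⟩ := hXK h
    rw [max_eq_right a1]
    refine a2.trans (mul_le_mul_of_nonneg_left (Real.exp_le_exp.2 (neg_le_neg ?_)) hX0)
    have : 0 ≤ L / t * Real.log (L / K) := by
      have : 0 ≤ Real.log (L / K) := by linarith
      positivity
    calc c * (L / t) * Real.log (L / K) = c * (L / t * Real.log (L / K)) := by ring
      _ ≤ c2 * (L / t * Real.log (L / K)) := mul_le_mul_of_nonneg_right hcc2 this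
      _ = _ := by ring
  · have hcard : ((Sf X K).card : ℝ) ≤ (Sol X).card := by
      have : (Sf X K).card ≤ (Sol X).card := card_le_card (filter_subset _ _)
      exact_mod_cast this
    refine (hcard.trans hs).trans (mul_le_mul_of_nonneg_left (Real.exp_le_exp.2 (neg_le_neg ?_)) hX0)
    have hmax : max u (Real.log (L / K)) ≤ 3 * u := by
      refine max_le (by linarith) ?_
      have h4 : L / K ≤ t ^ 2 / (c1 * u) := by
        rw [div_le_div_iff₀ (by linarith) (by positivity)]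
        rw [div_lt_iff₀ (by positivity)] at h
        nlinarith
      have h5 : Real.log (L / K) ≤ Real.log (t ^ 2 / (c1 * u)) := Real.log_le_log (by positivity) h4
      have h7 : Real.log (t ^ 2 / (c1 * u)) = 2 * u - (Real.log c1 + Real.log u) := by
        rw [Real.log_div (by positivity) (by positivity), Real.log_mul hc1.ne' (by positivity), Real.log_pow, ← hu']
        push_cast; ring
      rw [h7] at h5
      rw [one_div, Real.log_inv] at hu1
      have h6 : 0 ≤ Real.log u := Real.log_nonneg hu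
      linarith only [h5, h6, hu1]
    calc c * (L / t) * max u (Real.log (L / K)) ≤ c * (L / t) * (3 * u) :=
          mul_le_mul_of_nonneg_left hmax (by positivity)
      _ = 3 * c * (L / t * u) := by ring
      _ ≤ c3 * (L / t * u) := mul_le_mul_of_nonneg_right (by linarith) (by positivity)
      _ = c3 * L * u / t := by ring

end Pool.Agent.Cnt
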