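import Mathlib
import Pool.Agent.BrunHooley.Mertens
import Pool.Agent.MP_67227b_nt.Gk.GkMert

/-! # Theorem C: Mertens sums (upper bounds) -/

set_option autoImplicit false

namespace Pool.Agent.Cnt

open Finset

-- MODULE c_v1
/-- Mertens, upper bounds -/
theorem sum_inv_prime : ∃ C : ℝ, 0 < C ∧ ∀ w : ℕ, 3 ≤ w →
    ∑ p ∈ (Icc 1 w).filter Nat.Prime, (1 : ℝ) / p ≤ Real.log (Real.log w) + C := by
  obtain ⟨C, hC, h⟩ := Pool.Agent.MP_67227b_nt.Gk.mert
  refine ⟨C / Real.log 2 + |Real.log (Real.log 2)| + 1, ?_, fun w hw => ?_⟩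
  · have := Real.log_pos (by norm_num : (1 : ℝ) < 2)
    positivity
  have hw2 : (2 : ℝ) ≤ w := by
    have : (3 : ℝ) ≤ w := by exact_mod_cast hw
    linarith
  have h1 := h 2 w le_rfl hw2
  have e2 : ⌊(2 : ℝ)⌋₊ = 2 := by norm_num
  rw [e2, Nat.floor_natCast] at h1
  have hsub : (Icc 1 w).filter Nat.Prime = insert 2 ((Ioc 2 w).filter Nat.Prime) := by
    ext p
    simp only [mem_filter, mem_Icc, mem_insert, mem_Ioc]
    constructor
    · rintro ⟨⟨h1, h2⟩, h3⟩
      by_cases hp : p = 2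
      · left; exact hp
      · right
        exact ⟨⟨lt_of_le_of_ne h3.two_le (Ne.symm hp), h2⟩, h3⟩
    · rintro (rfl | ⟨⟨h1, h2⟩, h3⟩)
      · exact ⟨⟨by norm_num, by omega⟩, Nat.prime_two⟩
      · exact ⟨⟨by omega, h2⟩, h3⟩
  rw [hsub, sum_insert (by simp)]
  have h2 := (abs_le.1 h1).2
  have h3 : -Real.log (Real.log 2) ≤ |Real.log (Real.log 2)| := neg_le_abs _
  push_cast
  linarith

theorem sum_log_prime : ∃ C : ℝ, 0 < C ∧ ∀ w : ℕ, 1 ≤ w →
    ∑ p ∈ (Icc 1 w).filter Nat.Prime, Real.log p / p ≤ Real.log w + C := by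
  refine ⟨Real.log 4 + 4, ?_, fun w hw => ?_⟩
  · have := Real.log_pos (by norm_num : (1 : ℝ) < 4)
    linarith
  have h := Pool.Agent.BrunHooley.MertensAux.M_le w (by omega)
  refine le_trans ?_ h
  unfold Pool.Agent.BrunHooley.MertensAux.M
  calc ∑ p ∈ (Icc 1 w).filter Nat.Prime, Real.log p / p
      = ∑ p ∈ (Icc 1 w).filter Nat.Prime, ArithmeticFunction.vonMangoldt p / p := by
        refine sum_congr rfl fun p hp => ?_
        rw [ArithmeticFunction.vonMangoldt_apply_prime (mem_filter.1 hp).2]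
    _ ≤ ∑ d ∈ Ioc 0 w, ArithmeticFunction.vonMangoldt d / d := by
        refine sum_le_sum_of_subset_of_nonneg ?_ ?_
        · intro p hp
          have := mem_Icc.1 (mem_filter.1 hp).1
          exact mem_Ioc.2 ⟨by omega, this.2⟩
        · intro d _ _
          exact div_nonneg ArithmeticFunction.vonMangoldt_nonneg (Nat.cast_nonneg _)

end Pool.Agent.Cnt
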