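import Pool.Agent.Cnt.Defs

/-! # Theorem C: prime powers with `g ∣ φ(P)` -/

set_option autoImplicit false

namespace Pool.Agent.Cnt

open Finset

-- MODULE c_pp1
private theorem c_pp1_le {p q e f : ℕ} (hp : p.Prime) (hq : q.Prime) (he : 2 ≤ e) (hf : 2 ≤ f)
    (h : (p ^ e).totient = (q ^ f).totient) : p ≤ q := by
  rw [Nat.totient_prime_pow hp (by omega), Nat.totient_prime_pow hq (by omega)] at h
  have h1 : p ∣ q ^ (f - 1) * (q - 1) := by
    rw [← h]
    exact Dvd.dvd.mul_right (dvd_pow_self p (by omega)) _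
  rcases hp.dvd_mul.1 h1 with h2 | h2
  · exact Nat.le_of_dvd hq.pos (hp.dvd_of_dvd_pow h2)
  · have := hq.two_le
    have := Nat.le_of_dvd (by omega) h2
    omega

/-- `φ` is injective on prime powers with exponent `≥ 2` -/
theorem totient_inj {p q e f : ℕ} (hp : p.Prime) (hq : q.Prime) (he : 2 ≤ e) (hf : 2 ≤ f)
    (h : (p ^ e).totient = (q ^ f).totient) : p ^ e = q ^ f := by
  have h1 : p = q := le_antisymm (c_pp1_le hp hq he hf h) (c_pp1_le hq hp hf he h.symm)
  subst h1
  rw [Nat.totient_prime_pow hp (by omega), Nat.totient_prime_pow hp (by omega)] at h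
  have h2 : 0 < p - 1 := by have := hp.two_le; omega
  have h3 : p ^ (e - 1) = p ^ (f - 1) := Nat.eq_of_mul_eq_mul_right h2 h
  have h4 : e - 1 = f - 1 := Nat.pow_right_injective hp.two_le h3
  have h5 : e = f := by omega
  rw [h5]

/-- at most two prime powers have `φ(P) = v` -/
theorem card_totient (X v : ℕ) : ((PP X).filter fun P => P.totient = v).card ≤ 2 := by
  classical
  set S := (PP X).filter fun P => P.totient = v with hS
  have h1 : (S.filter Nat.Prime).card ≤ 1 := by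
    refine Finset.card_le_one.2 fun a ha b hb => ?_
    obtain ⟨ha1, ha2⟩ := Finset.mem_filter.1 ha
    obtain ⟨hb1, hb2⟩ := Finset.mem_filter.1 hb
    have ha3 := (Finset.mem_filter.1 ha1).2
    have hb3 := (Finset.mem_filter.1 hb1).2
    rw [Nat.totient_prime ha2] at ha3
    rw [Nat.totient_prime hb2] at hb3
    have := ha2.two_le
    have := hb2.two_le
    omega
  have h2 : (S.filter (fun P => ¬ Nat.Prime P)).card ≤ 1 := by
    refine Finset.card_le_one.2 fun a ha b hb => ?_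
    obtain ⟨ha1, ha2⟩ := Finset.mem_filter.1 ha
    obtain ⟨hb1, hb2⟩ := Finset.mem_filter.1 hb
    obtain ⟨ha3, ha4⟩ := Finset.mem_filter.1 ha1
    obtain ⟨hb3, hb4⟩ := Finset.mem_filter.1 hb1
    have ha5 : IsPrimePow a := (Finset.mem_filter.1 ha3).2
    have hb5 : IsPrimePow b := (Finset.mem_filter.1 hb3).2
    rw [isPrimePow_nat_iff] at ha5 hb5
    obtain ⟨p, e, hp, he, rfl⟩ := ha5
    obtain ⟨q, f, hq, hf, rfl⟩ := hb5
    have he2 : 2 ≤ e := by
      by_contra hc
      have : e = 1 := by omega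
      rw [this, pow_one] at ha2
      exact ha2 hp
    have hf2 : 2 ≤ f := by
      by_contra hc
      have : f = 1 := by omega
      rw [this, pow_one] at hb2
      exact hb2 hq
    exact totient_inj hp hq he2 hf2 (ha4.trans hb4.symm)
  have h3 := Finset.card_filter_add_card_filter_not (s := S) Nat.Prime
  omega

-- MODULE c_pp2
private theorem c_pp2_mem {X P : ℕ} (h : P ∈ PP X) : 2 ≤ P ∧ P ≤ X := by
  have := (Finset.mem_filter.1 h).1
  exact Finset.mem_Icc.1 this

/-- a sum over prime powers is at most twice the sum over the values `φ(P) < P` -/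
theorem sum_pp_le (X : ℕ) (f : ℕ → ℝ) (hf : ∀ v, 0 ≤ f v) :
    ∑ P ∈ PP X, f P.totient / P ≤ 2 * ∑ v ∈ Icc 1 X, f v / v := by
  have h1 : ∑ P ∈ PP X, f P.totient / P ≤ ∑ P ∈ PP X, f P.totient / P.totient := by
    refine Finset.sum_le_sum fun P hP => ?_
    obtain ⟨h2, h3⟩ := c_pp2_mem hP
    have h4 : 0 < P.totient := Nat.totient_pos.2 (by omega)
    have h5 : (P.totient : ℝ) ≤ P := by exact_mod_cast Nat.totient_le P
    exact div_le_div_of_nonneg_left (hf _) (by exact_mod_cast h4) h5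
  have hmaps : ∀ P ∈ PP X, P.totient ∈ Icc 1 X := by
    intro P hP
    obtain ⟨h2, h3⟩ := c_pp2_mem hP
    have h4 : 0 < P.totient := Nat.totient_pos.2 (by omega)
    exact Finset.mem_Icc.2 ⟨h4, (Nat.totient_le P).trans h3⟩
  rw [← Finset.sum_fiberwise_of_maps_to hmaps (fun P => f P.totient / (P.totient : ℝ))] at h1
  refine h1.trans ?_
  rw [Finset.mul_sum]
  refine Finset.sum_le_sum fun v hv => ?_
  have h6 : ∑ P ∈ (PP X).filter (fun P => P.totient = v), f P.totient / (P.totient : ℝ) =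
      ∑ P ∈ (PP X).filter (fun P => P.totient = v), f v / (v : ℝ) := by
    refine Finset.sum_congr rfl fun P hP => ?_
    rw [(Finset.mem_filter.1 hP).2]
  rw [h6, Finset.sum_const, nsmul_eq_mul]
  have h7 : (((PP X).filter fun P => P.totient = v).card : ℝ) ≤ 2 := by
    exact_mod_cast card_totient X v
  exact mul_le_mul_of_nonneg_right h7 (div_nonneg (hf v) (Nat.cast_nonneg v))

-- MODULE c_pp3
/-- `∑_{P ≤ X, g ∣ φ(P)} 1/P ≤ 2(1 + log X)/g` -/
theorem sum_pp_dvd (X g : ℕ) (hX : 1 ≤ X) (hg : 0 < g) :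
    ∑ P ∈ (PP X).filter (fun P => g ∣ P.totient), (1 : ℝ) / P ≤ 2 * (1 + Real.log X) / g := by
  classical
  have h1 := sum_pp_le X (fun v => if g ∣ v then (1 : ℝ) else 0) (fun v => by split_ifs <;> norm_num)
  have h2 : ∑ P ∈ (PP X).filter (fun P => g ∣ P.totient), (1 : ℝ) / P =
      ∑ P ∈ PP X, (if g ∣ P.totient then (1 : ℝ) else 0) / P := by
    rw [Finset.sum_filter]
    refine Finset.sum_congr rfl fun P _ => ?_
    split_ifs <;> simp
  rw [h2]
  refine h1.trans ?_
  have h3 : ∑ v ∈ Icc 1 X, (if g ∣ v then (1 : ℝ) else 0) / v ≤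
      ∑ u ∈ Icc 1 X, (1 : ℝ) / g * (1 / u) := by
    have h4 : ∑ v ∈ Icc 1 X, (if g ∣ v then (1 : ℝ) else 0) / v =
        ∑ v ∈ (Icc 1 X).filter (fun v => g ∣ v), (1 : ℝ) / v := by
      rw [Finset.sum_filter]
      refine Finset.sum_congr rfl fun P _ => ?_
      split_ifs <;> simp
    rw [h4]
    have h5 : (Icc 1 X).filter (fun v => g ∣ v) ⊆ (Icc 1 X).image (fun u => g * u) := by
      intro v hv
      obtain ⟨h6, u, rfl⟩ := Finset.mem_filter.1 hv
      obtain ⟨h7, h8⟩ := Finset.mem_Icc.1 h6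
      have h9 : 0 < u := Nat.pos_of_ne_zero (by rintro rfl; simp at h7)
      exact Finset.mem_image.2 ⟨u, Finset.mem_Icc.2 ⟨h9, (Nat.le_mul_of_pos_left u hg).trans h8⟩, rfl⟩
    refine (Finset.sum_le_sum_of_subset_of_nonneg h5 (fun i _ _ => by positivity)).trans ?_
    rw [Finset.sum_image (fun a _ b _ hab => Nat.eq_of_mul_eq_mul_left hg hab)]
    refine Finset.sum_le_sum fun u hu => ?_
    push_cast
    rw [one_div_mul_one_div]
  have h10 : ∑ u ∈ Icc 1 X, (1 : ℝ) / u ≤ 1 + Real.log X := by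
    have h11 := harmonic_le_one_add_log X
    rw [harmonic_eq_sum_Icc] at h11
    push_cast at h11
    simpa [one_div] using h11
  rw [← Finset.mul_sum] at h3
  have hg' : (0 : ℝ) < g := by exact_mod_cast hg
  calc 2 * ∑ v ∈ Icc 1 X, (if g ∣ v then (1 : ℝ) else 0) / v
      ≤ 2 * (1 / g * ∑ u ∈ Icc 1 X, (1 : ℝ) / u) := by linarith
    _ ≤ 2 * (1 / g * (1 + Real.log X)) := by
        have : 1 / (g : ℝ) * ∑ u ∈ Icc 1 X, (1 : ℝ) / u ≤ 1 / g * (1 + Real.log X) :=
          mul_le_mul_of_nonneg_left h10 (by positivity)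
        linarith
    _ = 2 * (1 + Real.log X) / g := by ring

end Pool.Agent.Cnt
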