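import Pool.Agent.Cnt.Smooth
import Pool.Agent.Cnt.Pp
import Pool.Agent.Cnt.Mert

/-! # Theorem C: Mertens sums and the smooth sum -/

set_option autoImplicit false

namespace Pool.Agent.Cnt

open Finset

private theorem v2_geom (X p : ℕ) (hp : 2 ≤ p) : ∑ k ∈ Icc 2 X, (1 : ℝ) / (p : ℝ) ^ k ≤ 2 * ((p : ℝ) ^ 2)⁻¹ := by
  have hpR : (2 : ℝ) ≤ p := by exact_mod_cast hp
  set r : ℝ := (p : ℝ)⁻¹ with hr
  have hr0 : 0 ≤ r := by positivity
  have hr1 : r ≤ 1 / 2 := by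
    rw [hr, one_div]
    exact inv_anti₀ (by norm_num) hpR
  have h1 : ∀ n : ℕ, ∑ k ∈ range n, r ^ k ≤ 2 := by
    intro n
    have h2 := (hasSum_geometric_of_lt_one hr0 (by linarith : r < 1))
    have h3 := sum_le_hasSum (range n) (fun i _ => pow_nonneg hr0 i) h2
    refine h3.trans ?_
    rw [inv_le_comm₀ (by linarith) (by norm_num)]
    linarith
  calc ∑ k ∈ Icc 2 X, (1 : ℝ) / (p : ℝ) ^ k = ∑ k ∈ Icc 2 X, r ^ k := by
        refine sum_congr rfl fun k _ => ?_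
        rw [hr, inv_pow, one_div]
    _ ≤ ∑ k ∈ (range X).image (fun j => j + 2), r ^ k := by
        refine sum_le_sum_of_subset_of_nonneg ?_ fun k _ _ => pow_nonneg hr0 k
        intro k hk
        rw [mem_Icc] at hk
        rw [mem_image]
        exact ⟨k - 2, mem_range.2 (by omega), by omega⟩
    _ = ∑ j ∈ range X, r ^ (j + 2) := by
        rw [sum_image (fun a _ b _ h => by simpa using h)]
    _ = (∑ j ∈ range X, r ^ j) * r ^ 2 := by
        rw [sum_mul]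
        exact sum_congr rfl fun j _ => pow_add _ _ _
    _ ≤ 2 * r ^ 2 := mul_le_mul_of_nonneg_right (h1 X) (by positivity)
    _ = 2 * ((p : ℝ) ^ 2)⁻¹ := by rw [hr, inv_pow]

-- MODULE c_v2
/-- prime powers -/
theorem sum_inv_pp : ∃ C : ℝ, 0 < C ∧ ∀ X : ℕ, 3 ≤ X →
    ∑ P ∈ PP X, (1 : ℝ) / P ≤ Real.log (Real.log X) + C := by
  classical
  obtain ⟨C, hC, h⟩ := sum_inv_prime
  refine ⟨C + 2, by linarith, fun X hX => ?_⟩
  rw [← sum_filter_add_sum_filter_not (PP X) Nat.Prime]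
  have h1 : ∑ P ∈ (PP X).filter Nat.Prime, (1 : ℝ) / P ≤ Real.log (Real.log X) + C := by
    refine le_trans (sum_le_sum_of_subset_of_nonneg ?_ fun _ _ _ => by positivity) (h X hX)
    intro p hp
    rw [mem_filter] at hp ⊢
    unfold PP at hp
    rw [mem_filter, mem_Icc] at hp
    exact ⟨mem_Icc.2 ⟨by omega, hp.1.1.2⟩, hp.2⟩
  have h2 : ∑ P ∈ (PP X).filter (fun P => ¬ P.Prime), (1 : ℝ) / P ≤ 2 := by
    have hmap : (PP X).filter (fun P => ¬ P.Prime) ⊆ ((Icc 2 X) ×ˢ (Icc 2 X)).image fun q => q.1 ^ q.2 := by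
      intro P hP
      rw [mem_filter] at hP
      unfold PP at hP
      rw [mem_filter, mem_Icc] at hP
      obtain ⟨⟨⟨hP2, hPX⟩, hPP⟩, hnp⟩ := hP
      obtain ⟨p, k, hp, hk, rfl⟩ := (isPrimePow_nat_iff _).1 hPP
      rw [mem_image]
      have hk1 : k ≠ 1 := by
        rintro rfl
        rw [pow_one] at hnp
        exact hnp hp
      have hpk : p ≤ p ^ k := Nat.le_self_pow hk.ne' p
      have hkk : k < p ^ k := Nat.lt_pow_self hp.one_lt
      refine ⟨(p, k), mem_product.2 ⟨mem_Icc.2 ⟨hp.two_le, by omega⟩, mem_Icc.2 ⟨by omega, by omega⟩⟩, rfl⟩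
    calc ∑ P ∈ (PP X).filter (fun P => ¬ P.Prime), (1 : ℝ) / P
        ≤ ∑ P ∈ ((Icc 2 X) ×ˢ (Icc 2 X)).image (fun q => q.1 ^ q.2), (1 : ℝ) / P :=
          sum_le_sum_of_subset_of_nonneg hmap fun _ _ _ => by positivity
      _ ≤ ∑ q ∈ (Icc 2 X) ×ˢ (Icc 2 X), (1 : ℝ) / ((q.1 ^ q.2 : ℕ) : ℝ) :=
          sum_image_le_of_nonneg (g := fun q : ℕ × ℕ => q.1 ^ q.2) (f := fun P : ℕ => (1 : ℝ) / P)
            (fun _ _ => by positivity)
      _ = ∑ p ∈ Icc 2 X, ∑ k ∈ Icc 2 X, (1 : ℝ) / (p : ℝ) ^ k := by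
          rw [sum_product]
          refine sum_congr rfl fun p _ => sum_congr rfl fun k _ => ?_
          push_cast
          rfl
      _ ≤ ∑ p ∈ Icc 2 X, 2 * ((p : ℝ) ^ 2)⁻¹ := sum_le_sum fun p hp => v2_geom X p (mem_Icc.1 hp).1
      _ = 2 * ∑ p ∈ Ioc 1 X, ((p : ℝ) ^ 2)⁻¹ := by
          rw [mul_sum]
          refine sum_congr ?_ fun _ _ => rfl
          ext a; simp only [mem_Icc, mem_Ioc]; omega
      _ ≤ 2 * 1 := by
          refine mul_le_mul_of_nonneg_left ?_ (by norm_num)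
          refine (sum_Ioc_inv_sq_le_sub (α := ℝ) one_ne_zero (by omega : 1 ≤ X)).trans ?_
          have : (0 : ℝ) ≤ (X : ℝ)⁻¹ := by positivity
          push_cast
          linarith
      _ = 2 := by norm_num
  linarith

private theorem v3_smooth (X w : ℕ) (s : ℝ) (hs : s ≤ 1 / 10) :
    ∑ a ∈ (Icc 1 X).filter (fun a => a ∈ (w + 1).smoothNumbers), (a : ℝ) ^ (s - 1) ≤
      ∏ p ∈ (Icc 1 w).filter Nat.Prime, (1 - (p : ℝ) ^ (s - 1))⁻¹ := by
  let f : ℕ →* ℝ :=
    { toFun := fun n => (n : ℝ) ^ (s - 1)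
      map_one' := by simp
      map_mul' := fun a b => by
        push_cast
        exact Real.mul_rpow (Nat.cast_nonneg _) (Nat.cast_nonneg _) }
  have hf : ∀ {p : ℕ}, p.Prime → ‖f p‖ < 1 := by
    intro p hp
    change ‖(p : ℝ) ^ (s - 1)‖ < 1
    rw [Real.norm_of_nonneg (by positivity)]
    exact Real.rpow_lt_one_of_one_lt_of_neg (by exact_mod_cast hp.one_lt) (by linarith)
  obtain ⟨hsum, hhas⟩ := EulerProduct.summable_and_hasSum_smoothNumbers_prod_primesBelow_geometric hf (w + 1)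
  have hp : (w + 1).primesBelow = (Icc 1 w).filter Nat.Prime := by
    ext p
    rw [Nat.mem_primesBelow, mem_filter, mem_Icc]
    constructor
    · rintro ⟨h1, h2⟩
      exact ⟨⟨h2.one_le, by omega⟩, h2⟩
    · rintro ⟨h1, h2⟩
      exact ⟨by omega, h2⟩
  rw [hp] at hhas
  have h2 : ∑ a ∈ (Icc 1 X).filter (fun a => a ∈ (w + 1).smoothNumbers), (a : ℝ) ^ (s - 1) =
      ∑ a ∈ ((Icc 1 X).subtype (fun a => a ∈ (w + 1).smoothNumbers)), f a := by
    rw [← sum_subtype_eq_sum_filter]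
    rfl
  rw [h2]
  exact sum_le_hasSum _ (fun a _ => by
    change 0 ≤ ((a : ℕ) : ℝ) ^ (s - 1)
    positivity) hhas

-- MODULE c_v3
/-- `∑_{v ≤ X} sm(v)^s / v ≤ (1 + log X) ∏_{p ≤ w} (1 - p^(s-1))⁻¹` -/
theorem sum_sm_le (X w : ℕ) (hX : 1 ≤ X) (s : ℝ) (hs0 : 0 ≤ s) (hs : s ≤ 1 / 10) :
    ∑ v ∈ Icc 1 X, (sm w v : ℝ) ^ s / v ≤
      (1 + Real.log X) * ∏ p ∈ (Icc 1 w).filter Nat.Prime, (1 - (p : ℝ) ^ (s - 1))⁻¹ := by
  classical
  have hsm : ∀ v : ℕ, v ≠ 0 → sm w v ∈ (w + 1).smoothNumbers := by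
    intro v hv
    rw [Nat.mem_smoothNumbers']
    intro p hp hpd
    unfold sm at hpd
    rw [hp.prime.dvd_finsetProd_iff] at hpd
    obtain ⟨q, hq, hpq⟩ := hpd
    rw [mem_filter] at hq
    have := (Nat.prime_dvd_prime_iff_eq hp (Nat.prime_of_mem_primeFactors hq.1)).1 (hp.dvd_of_dvd_pow hpq)
    omega
  set S := (Icc 1 X).filter (fun a => a ∈ (w + 1).smoothNumbers) with hS
  have hharm : ∑ m ∈ Icc 1 X, (1 : ℝ) / m ≤ 1 + Real.log X := by
    have h1 := harmonic_le_one_add_log X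
    have h2 : ((harmonic X : ℚ) : ℝ) = ∑ m ∈ Icc 1 X, (1 : ℝ) / m := by
      rw [harmonic_eq_sum_Icc]
      push_cast
      exact sum_congr rfl fun m _ => by rw [one_div]
    rw [h2] at h1
    exact h1
  have hmain : ∑ v ∈ Icc 1 X, (sm w v : ℝ) ^ s / v ≤
      ∑ q ∈ S ×ˢ Icc 1 X, (q.1 : ℝ) ^ (s - 1) * (1 / q.2) := by
    have h1 : ∑ v ∈ Icc 1 X, (sm w v : ℝ) ^ s / v =
        ∑ q ∈ (Icc 1 X).image (fun v => (sm w v, ro w v)), (q.1 : ℝ) ^ (s - 1) * (1 / q.2) := by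
      rw [sum_image]
      · refine sum_congr rfl fun v hv => ?_
        have hv0 : v ≠ 0 := by have := (mem_Icc.1 hv).1; omega
        have e := sm_mul_ro w hv0
        have a0 : (0 : ℝ) < sm w v := by exact_mod_cast sm_pos w v
        have b0 : (0 : ℝ) < ro w v := by exact_mod_cast ro_pos w v
        have e2 : (v : ℝ) = sm w v * ro w v := by exact_mod_cast e.symm
        rw [Real.rpow_sub_one a0.ne']
        conv_lhs => rw [e2]
        field_simp
      · intro a ha b hb hab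
        simp only [Prod.mk.injEq] at hab
        have ha0 : a ≠ 0 := by have := (mem_Icc.1 (mem_coe.1 ha)).1; omega
        have hb0 : b ≠ 0 := by have := (mem_Icc.1 (mem_coe.1 hb)).1; omega
        rw [← sm_mul_ro w ha0, ← sm_mul_ro w hb0, hab.1, hab.2]
    rw [h1]
    refine sum_le_sum_of_subset_of_nonneg ?_ fun q _ _ => by positivity
    intro q hq
    rw [mem_image] at hq
    obtain ⟨v, hv, rfl⟩ := hq
    have hv' := mem_Icc.1 hv
    have hv0 : v ≠ 0 := by omega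
    rw [mem_product, hS, mem_filter]
    refine ⟨⟨mem_Icc.2 ⟨sm_pos w v, (sm_le w hv0).trans hv'.2⟩, hsm v hv0⟩, mem_Icc.2 ⟨ro_pos w v, ?_⟩⟩
    exact (Nat.le_of_dvd (by omega) (ro_dvd w hv0)).trans hv'.2
  refine hmain.trans ?_
  rw [sum_product]
  simp only
  rw [← sum_mul_sum, mul_comm]
  refine mul_le_mul hharm (v3_smooth X w s hs) (sum_nonneg fun _ _ => by positivity) ?_
  have : 0 ≤ Real.log X := Real.log_nonneg (by exact_mod_cast hX)
  linarith

-- MODULE c_v4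
/-- the product, `B = w^s` -/
theorem prod_le : ∃ C : ℝ, 0 < C ∧ ∀ (w : ℕ) (B s : ℝ), 3 ≤ w → 1 ≤ B → 0 ≤ s → s ≤ 1 / 10 →
    s * Real.log w = Real.log B →
    ∏ p ∈ (Icc 1 w).filter Nat.Prime, (1 - (p : ℝ) ^ (s - 1))⁻¹ ≤
      Real.exp (C * (Real.log (Real.log w) + B + 1)) := by
  obtain ⟨C1, hC1, h1⟩ := sum_inv_prime
  obtain ⟨C2, hC2, h2⟩ := sum_log_prime
  refine ⟨3 * (C1 + C2 + 1), by positivity, fun w B s hw hB hs0 hs hsB => ?_⟩
  have hwR : (3 : ℝ) ≤ w := by exact_mod_cast hw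
  have hlw1 : 1 ≤ Real.log w := by
    have h3 : Real.exp 1 ≤ w := by linarith [Real.exp_one_lt_d9]
    have := Real.log_le_log (Real.exp_pos 1) h3
    rwa [Real.log_exp] at this
  have hllw : 0 ≤ Real.log (Real.log w) := Real.log_nonneg hlw1
  -- each factor
  have hfac : ∀ p ∈ (Icc 1 w).filter Nat.Prime, 0 ≤ (1 - (p : ℝ) ^ (s - 1))⁻¹ ∧
      (1 - (p : ℝ) ^ (s - 1))⁻¹ ≤ Real.exp (3 * (p : ℝ) ^ (s - 1)) := by
    intro p hp
    have hp' := (mem_filter.1 hp).2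
    have hp2 : (2 : ℝ) ≤ p := by exact_mod_cast hp'.two_le
    set t := (p : ℝ) ^ (s - 1) with ht
    have ht0 : 0 ≤ t := by positivity
    have ht1 : t ≤ 3 / 5 := by
      have e1 : t ≤ (2 : ℝ) ^ (s - 1) := Real.rpow_le_rpow_of_nonpos (by norm_num) hp2 (by linarith)
      have e2 : (2 : ℝ) ^ (s - 1) ≤ (2 : ℝ) ^ (-(9 / 10 : ℝ)) :=
        Real.rpow_le_rpow_of_exponent_le (by norm_num) (by linarith)
      have e3 : (2 : ℝ) ^ (-(9 / 10 : ℝ)) ≤ 3 / 5 := by
        have e4 : ((2 : ℝ) ^ (-(9 / 10 : ℝ))) ^ (10 : ℕ) ≤ (3 / 5 : ℝ) ^ (10 : ℕ) := by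
          rw [← Real.rpow_natCast ((2 : ℝ) ^ (-(9 / 10 : ℝ))) 10, ← Real.rpow_mul (by norm_num)]
          have : (-(9 / 10 : ℝ)) * ((10 : ℕ) : ℝ) = ((-9 : ℤ) : ℝ) := by norm_num
          rw [this, Real.rpow_intCast]
          norm_num
        exact le_of_pow_le_pow_left₀ (by norm_num) (by norm_num) e4
      linarith
    have hpos : 0 < 1 - t := by linarith
    refine ⟨by positivity, ?_⟩
    have e5 : (1 - t)⁻¹ ≤ 1 + 3 * t := by
      rw [inv_le_iff_one_le_mul₀ hpos]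
      nlinarith
    refine e5.trans ?_
    have := Real.add_one_le_exp (3 * t)
    linarith
  have hprod : ∏ p ∈ (Icc 1 w).filter Nat.Prime, (1 - (p : ℝ) ^ (s - 1))⁻¹ ≤
      Real.exp (3 * ∑ p ∈ (Icc 1 w).filter Nat.Prime, (p : ℝ) ^ (s - 1)) := by
    rw [mul_sum, Real.exp_sum]
    exact prod_le_prod (fun p hp => (hfac p hp).1) fun p hp => (hfac p hp).2
  have hsum : ∑ p ∈ (Icc 1 w).filter Nat.Prime, (p : ℝ) ^ (s - 1) ≤
      (Real.log (Real.log w) + C1) + (B - 1) * (1 + C2) := by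
    have e1 : ∀ p ∈ (Icc 1 w).filter Nat.Prime, (p : ℝ) ^ (s - 1) ≤
        1 / p + (B - 1) / Real.log w * (Real.log p / p) := by
      intro p hp
      have hp' := (mem_filter.1 hp).2
      have hpw := (mem_Icc.1 (mem_filter.1 hp).1).2
      have hp0 : (0 : ℝ) < p := by exact_mod_cast hp'.pos
      have hp1 : (1 : ℝ) ≤ p := by exact_mod_cast hp'.one_le
      rw [Real.rpow_sub_one hp0.ne']
      have hlp : 0 ≤ Real.log p := Real.log_nonneg hp1
      have hlpw : Real.log p ≤ Real.log w := Real.log_le_log hp0 (by exact_mod_cast hpw)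
      have hlw0 : 0 < Real.log w := by linarith
      set u := Real.log p / Real.log w with hu
      have hu0 : 0 ≤ u := by positivity
      have hu1 : u ≤ 1 := by rw [hu, div_le_one hlw0]; exact hlpw
      have e2 : (p : ℝ) ^ s = B ^ u := by
        rw [Real.rpow_def_of_pos hp0, Real.rpow_def_of_pos (by linarith : (0 : ℝ) < B), ← hsB, hu]
        congr 1
        field_simp
      have e3 : B ^ u ≤ 1 + u * (B - 1) := by
        have := rpow_one_add_le_one_add_mul_self (s := B - 1) (by linarith) hu0 hu1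
        rw [show 1 + (B - 1) = B by ring] at this
        exact this
      rw [e2]
      calc B ^ u / p ≤ (1 + u * (B - 1)) / p := div_le_div_of_nonneg_right e3 hp0.le
        _ = 1 / p + (B - 1) / Real.log w * (Real.log p / p) := by
            rw [hu]; field_simp
    refine (sum_le_sum e1).trans ?_
    rw [sum_add_distrib, ← mul_sum]
    have e4 := h1 w hw
    have e5 := h2 w (by omega)
    have hlw0 : 0 < Real.log w := by linarith
    have e6 : (B - 1) / Real.log w * ∑ p ∈ (Icc 1 w).filter Nat.Prime, Real.log p / p ≤ (B - 1) * (1 + C2) := by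
      calc (B - 1) / Real.log w * ∑ p ∈ (Icc 1 w).filter Nat.Prime, Real.log p / p
          ≤ (B - 1) / Real.log w * (Real.log w + C2) :=
            mul_le_mul_of_nonneg_left e5 (div_nonneg (by linarith) hlw0.le)
        _ = (B - 1) * (1 + C2 / Real.log w) := by field_simp
        _ ≤ (B - 1) * (1 + C2) := by
            refine mul_le_mul_of_nonneg_left ?_ (by linarith)
            have : C2 / Real.log w ≤ C2 := div_le_self hC2.le hlw1
            linarith
    linarith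
  refine hprod.trans (Real.exp_le_exp.2 ?_)
  nlinarith [mul_nonneg hC1.le hllw, mul_nonneg hC2.le hllw, mul_nonneg hC1.le (by linarith : (0 : ℝ) ≤ B)]

-- MODULE c_v5
theorem VV_le : ∃ C : ℝ, 0 < C ∧ ∀ (X w : ℕ) (B s : ℝ), 3 ≤ X → 3 ≤ w → 1 ≤ B → 0 ≤ s → s ≤ 1 / 10 →
    s * Real.log w = Real.log B →
    VV X w s ≤ 3 * (1 + Real.log X) * Real.exp (C * (Real.log (Real.log w) + B + 1)) := by
  obtain ⟨C, hC, h⟩ := prod_le
  refine ⟨C, hC, fun X w B s hX hw hB hs0 hs hsB => ?_⟩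
  have h1 := h w B s hw hB hs0 hs hsB
  have h2 := sum_sm_le X w (by omega) s hs0 hs
  have h3 := sum_pp_le X (fun v => (sm w v : ℝ) ^ s) (fun v => by positivity)
  have hlogX : 0 ≤ Real.log X := Real.log_nonneg (by exact_mod_cast (by omega : 1 ≤ X))
  have hwR : (3 : ℝ) ≤ w := by exact_mod_cast hw
  have hlw1 : 1 ≤ Real.log w := by
    have h3 : Real.exp 1 ≤ w := by linarith [Real.exp_one_lt_d9]
    have := Real.log_le_log (Real.exp_pos 1) h3
    rwa [Real.log_exp] at this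
  have hllw : 0 ≤ Real.log (Real.log w) := Real.log_nonneg hlw1
  have hE : 1 ≤ Real.exp (C * (Real.log (Real.log w) + B + 1)) := Real.one_le_exp (by positivity)
  have h4 : (1 + Real.log X) * ∏ p ∈ (Icc 1 w).filter Nat.Prime, (1 - (p : ℝ) ^ (s - 1))⁻¹ ≤
      (1 + Real.log X) * Real.exp (C * (Real.log (Real.log w) + B + 1)) :=
    mul_le_mul_of_nonneg_left h1 (by linarith)
  unfold VV
  have h5 : (1 : ℝ) ≤ (1 + Real.log X) * Real.exp (C * (Real.log (Real.log w) + B + 1)) := by nlinarith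
  linarith

end Pool.Agent.Cnt
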