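import Pool.Agent.Cnt.E2
import Pool.Agent.Cnt.E4
import Pool.Agent.Cnt.E5
import Pool.Agent.Cnt.Vs

/-! # Theorem C: the main inequality and the asymptotics -/

set_option autoImplicit false

namespace Pool.Agent.Cnt

open Finset

-- MODULE c_m1
/-- the covering -/
theorem cover {X T w K n : ℕ} (hT : 2 ≤ T) (hX : T ^ 12000 ≤ X) (hX2 : X < T ^ 12001) (hn : n ∈ Sol X) (hn1 : T ^ 120 ≤ n) :
    (∃ N, (N = n ∨ N = n + 1) ∧ (N ∈ E1 X K ∨ N ∈ E2 X T w K ∨ N ∈ E3 X T ∨ N ∈ E4a X T w ∨ N ∈ E4b X T w)) ∨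
      n ∈ E5 X T := by
  classical
  have hSol := hn
  rw [Sol, mem_filter, mem_Icc] at hSol
  obtain ⟨⟨h1, hnX⟩, hφ⟩ := hSol
  by_cases hs1 : HasSq T n
  · exact .inl ⟨n, .inl rfl, .inr (.inr (.inl (by
      rw [E3, mem_filter, mem_Icc]; exact ⟨⟨h1, by omega⟩, hs1⟩)))⟩
  by_cases hs2 : HasSq T (n + 1)
  · exact .inl ⟨n + 1, .inr rfl, .inr (.inr (.inl (by
      rw [E3, mem_filter, mem_Icc]; exact ⟨⟨by omega, by omega⟩, hs2⟩)))⟩
  have key : ∀ N N', Nb N N' → 1 ≤ N → 1 ≤ N' → N ≤ X + 1 → N' ≤ X + 1 → N.totient = N'.totient → HasMid T N →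
      ¬ HasSq T N' → (N ∈ E1 X K ∨ N ∈ E2 X T w K ∨ N ∈ E3 X T ∨ N ∈ E4a X T w ∨ N ∈ E4b X T w) := by
    rintro N N' hNb a1 a2 a3 a4 a5 ⟨m', hm', hd⟩ a6
    by_cases hK : K ≤ om m'
    · left
      rw [E1, mem_filter, mem_Icc]
      exact ⟨⟨a1, a3⟩, hK.trans (om_mono (by omega) hd)⟩
    by_cases hr : ro w m'.totient < T ^ 30
    · right; left
      rw [E2, mem_filter, mem_Icc]
      exact ⟨⟨a1, a3⟩, m', hm', hd, not_le.1 hK, hr⟩
    · rcases E4_dicho hT hX hX2 hNb a1 a2 a3 a4 a5 hm' hd (not_lt.1 hr) a6 with h | h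
      · exact .inr (.inr (.inr (.inl h)))
      · exact .inr (.inr (.inr (.inr h)))
  by_cases hm1 : HasMid T n
  · exact .inl ⟨n, .inl rfl, key n (n + 1) (.inl rfl) h1 (by omega) (by omega) (by omega) hφ hm1 hs2⟩
  by_cases hm2 : HasMid T (n + 1)
  · exact .inl ⟨n + 1, .inr rfl, key (n + 1) n (.inr rfl) (by omega) h1 (by omega) (by omega) hφ.symm hm2 hs1⟩
  · right
    rw [E5, mem_filter]
    exact ⟨hn, hn1, hm1, hm2, hs1, hs2⟩

-- MODULE c_m2
/-- **the main inequality** -/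
theorem main_ineq (X T w K : ℕ) (s : ℝ) (hs : 0 ≤ s) (hT : 1000 ≤ T) (hL : 2 + Real.log X ≤ T) (hX : T ^ 12000 ≤ X)
    (hX2 : X < T ^ 12001) (hK : K ≤ T) (hw : 2 ^ 12001 ≤ w)
    (hAw : (4 * (1 + Real.log X) * (1 + Real.log X)) ^ 3 ≤ w) :
    ((Sol X).card : ℝ) ≤ X / T + 2 * (X + 1) * (∑ P ∈ PP (X + 1), (1 : ℝ) / P) ^ K / K.factorial +
      4 * X * ((T : ℝ) ^ 60) ^ (-s) * (K * VV X w s ^ K) := by
  classical
  have hT2 : 2 ≤ T := by omega
  obtain ⟨EE, hEE⟩ : ∃ EE, EE = E1 X K ∪ (E2 X T w K ∪ (E3 X T ∪ (E4a X T w ∪ E4b X T w))) := ⟨_, rfl⟩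
  have hsub : Sol X ⊆ range (T ^ 120) ∪ (EE ∪ (EE.image (fun N => N - 1) ∪ E5 X T)) := by
    intro n hn
    rcases lt_or_ge n (T ^ 120) with h1 | h1
    · exact mem_union_left _ (mem_range.2 h1)
    · rcases cover (w := w) (K := K) hT2 hX hX2 hn h1 with ⟨N, hN, hE⟩ | h
      · have hNE : N ∈ EE := by
          rw [hEE]; simp only [mem_union]; exact hE
        rcases hN with rfl | rfl
        · exact mem_union_right _ (mem_union_left _ hNE)
        · exact mem_union_right _ (mem_union_right _ (mem_union_left _ (mem_image.2 ⟨n + 1, hNE, by omega⟩)))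
      · exact mem_union_right _ (mem_union_right _ (mem_union_right _ h))
  have hcEE : EE.card ≤ (E1 X K).card + ((E2 X T w K).card + ((E3 X T).card + ((E4a X T w).card + (E4b X T w).card))) := by
    rw [hEE]
    refine (card_union_le _ _).trans (Nat.add_le_add_left ((card_union_le _ _).trans (Nat.add_le_add_left
      ((card_union_le _ _).trans (Nat.add_le_add_left (card_union_le _ _) _)) _)) _)
  have hc : (Sol X).card ≤ T ^ 120 + (EE.card + (EE.card + (E5 X T).card)) := by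
    refine (card_le_card hsub).trans ((card_union_le _ _).trans ?_)
    rw [card_range]
    refine Nat.add_le_add_left ((card_union_le _ _).trans (Nat.add_le_add_left ((card_union_le _ _).trans ?_) _)) _
    exact Nat.add_le_add_right card_image_le _
  have hc' : ((Sol X).card : ℝ) ≤ (T : ℝ) ^ 120 + 2 * ((E1 X K).card + ((E2 X T w K).card + ((E3 X T).card +
      ((E4a X T w).card + (E4b X T w).card)))) + (E5 X T).card := by
    have h1 : ((Sol X).card : ℝ) ≤ ((T ^ 120 + (EE.card + (EE.card + (E5 X T).card)) : ℕ) : ℝ) := by exact_mod_cast hc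
    have h2 : (EE.card : ℝ) ≤ (((E1 X K).card + ((E2 X T w K).card + ((E3 X T).card +
      ((E4a X T w).card + (E4b X T w).card))) : ℕ) : ℝ) := by exact_mod_cast hcEE
    push_cast at h1 h2
    linarith
  have b1 : ((E1 X K).card : ℝ) ≤ (X + 1) * (∑ P ∈ PP (X + 1), (1 : ℝ) / P) ^ K / K.factorial := by
    have h := card_many (X + 1) K
    have e : E1 X K = (Icc 1 (X + 1)).filter fun N => K ≤ om N := by
      unfold E1
      ext N
      simp only [mem_filter]
    rw [e]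
    push_cast at h
    exact h
  have b2 := E2_card X T w K s hs hT2 hX hK
  have b3 := E3_card X T hT2 hX
  have b4 := E4a_card X T w hT2 hX hX2 hw hAw
  have b5 := E4b_card X T w hT2 hX hX2 hw
  have b6 := E5_card X T (by omega) hL hX hX2
  have hTr : (1000 : ℝ) ≤ T := by exact_mod_cast hT
  have hT0 : (0 : ℝ) < T := by linarith
  have hX0 : (0 : ℝ) ≤ X := Nat.cast_nonneg X
  have hLX : 0 ≤ Real.log X := Real.log_natCast_nonneg X
  have c1 : (1 + Real.log X) ^ 2 ≤ (T : ℝ) ^ 2 := pow_le_pow_left₀ (by linarith) (by linarith) 2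
  have c2 : (X : ℝ) * (1 + Real.log X) ^ 2 / (T : ℝ) ^ 5 ≤ X / (T : ℝ) ^ 3 := by
    rw [div_le_div_iff₀ (by positivity) (by positivity)]
    have : (X : ℝ) * (1 + Real.log X) ^ 2 ≤ X * (T : ℝ) ^ 2 := mul_le_mul_of_nonneg_left c1 hX0
    calc (X : ℝ) * (1 + Real.log X) ^ 2 * (T : ℝ) ^ 3 ≤ X * (T : ℝ) ^ 2 * (T : ℝ) ^ 3 :=
          mul_le_mul_of_nonneg_right this (by positivity)
      _ = X * (T : ℝ) ^ 5 := by ring
  have c3 : (X : ℝ) / (T : ℝ) ^ 3 ≤ X / (T : ℝ) / 1000000 := by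
    rw [div_div, div_le_div_iff₀ (by positivity) (by positivity)]
    have : (T : ℝ) * 1000000 ≤ (T : ℝ) ^ 3 := by nlinarith [mul_nonneg hT0.le hT0.le]
    nlinarith
  have c4 : (X : ℝ) / (T : ℝ) ^ 2 ≤ X / (T : ℝ) / 1000 := by
    rw [div_div, div_le_div_iff₀ (by positivity) (by positivity)]
    have : (T : ℝ) * 1000 ≤ (T : ℝ) ^ 2 := by nlinarith
    nlinarith
  have c5 : (T : ℝ) ^ 120 ≤ X / (T : ℝ) ^ 2 := by
    rw [le_div_iff₀ (by positivity), ← pow_add]
    have h1 : T ^ (120 + 2) ≤ X := (Nat.pow_le_pow_right (by omega) (by omega)).trans hX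
    exact_mod_cast h1
  have c6 : 0 ≤ (X : ℝ) / T := by positivity
  have e1 : 6 * (X : ℝ) * (1 + Real.log X) ^ 2 / (T : ℝ) ^ 5 = 6 * (X * (1 + Real.log X) ^ 2 / (T : ℝ) ^ 5) := by ring
  have e2 : 32 * (X : ℝ) * (1 + Real.log X) ^ 2 / (T : ℝ) ^ 5 = 32 * (X * (1 + Real.log X) ^ 2 / (T : ℝ) ^ 5) := by ring
  have e3 : 4 * (X : ℝ) / (T : ℝ) ^ 2 = 4 * (X / (T : ℝ) ^ 2) := by ring
  have e4 : 2 * ((X : ℝ) + 1) * (∑ P ∈ PP (X + 1), (1 : ℝ) / P) ^ K / K.factorial =
      2 * ((X + 1) * (∑ P ∈ PP (X + 1), (1 : ℝ) / P) ^ K / K.factorial) := by ring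
  have e5 : 4 * (X : ℝ) * ((T : ℝ) ^ 60) ^ (-s) * (K * VV X w s ^ K) =
      2 * (2 * X * ((T : ℝ) ^ 60) ^ (-s) * (K * VV X w s ^ K)) := by ring
  rw [e4, e5]
  rw [e1] at b4
  rw [e2] at b5
  rw [e3] at b3
  linarith

private theorem c_a1_log (T X n : ℕ) (hX : 0 < X) (h : X ≤ T ^ n) : Real.log X ≤ n * Real.log T := by
  have h1 : (X : ℝ) ≤ (T : ℝ) ^ n := by exact_mod_cast h
  have h2 : (0 : ℝ) < X := by exact_mod_cast hX
  rw [← Real.log_pow]
  exact Real.log_le_log h2 h1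

-- MODULE c_a1
/-- the parameter `T` -/
theorem exists_T : ∀ᶠ X : ℕ in Filter.atTop, ∃ T : ℕ, 1000 ≤ T ∧ 2 + Real.log X ≤ T ∧ T ^ 12000 ≤ X ∧ X < T ^ 12001 ∧
    Real.log X / 12001 ≤ Real.log T := by
  obtain ⟨T₀, hT1, hT2⟩ : ∃ T₀ : ℕ, 2 ^ 12000 ≤ T₀ ∧ 10 ^ 10 ≤ T₀ :=
    ⟨max (2 ^ 12000) (10 ^ 10), le_max_left _ _, le_max_right _ _⟩
  refine Filter.eventually_atTop.2 ⟨T₀ ^ 12000, fun X hX => ?_⟩
  obtain ⟨T, hT⟩ : ∃ T : ℕ, T = Nat.findGreatest (fun T => T ^ 12000 ≤ X) X := ⟨_, rfl⟩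
  have h0 : T₀ ≤ X := (Nat.le_self_pow (by omega) T₀).trans hX
  have h1 : T₀ ≤ T := hT ▸ Nat.le_findGreatest h0 hX
  have h2 : T ^ 12000 ≤ X := by
    have := Nat.findGreatest_spec (P := fun T => T ^ 12000 ≤ X) h0 hX
    rw [← hT] at this
    exact this
  have h3 : X < (T + 1) ^ 12000 := by
    rcases le_or_gt (T + 1) X with h | h
    · have := Nat.findGreatest_is_greatest (P := fun T => T ^ 12000 ≤ X) (n := X) (k := T + 1) (by omega) h
      exact not_le.1 this
    · exact h.trans_le (Nat.le_self_pow (by omega) _)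
  have h4 : (T + 1) ^ 12000 ≤ T ^ 12001 := by
    calc (T + 1) ^ 12000 ≤ (2 * T) ^ 12000 := Nat.pow_le_pow_left (by omega) _
      _ = 2 ^ 12000 * T ^ 12000 := Nat.mul_pow _ _ _
      _ ≤ T * T ^ 12000 := Nat.mul_le_mul_right _ (hT1.trans h1)
      _ = T ^ 12001 := by rw [← Nat.pow_succ']
  have hTr : (10 : ℝ) ^ 10 ≤ T := by exact_mod_cast hT2.trans h1
  have hT0 : (0 : ℝ) < T := by linarith [show (0 : ℝ) < 10 ^ 10 by norm_num]
  have hXr : (0 : ℝ) < X := by exact_mod_cast (show 0 < X by omega)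
  refine ⟨T, by omega, ?_, h2, h3.trans_le h4, ?_⟩
  · have a1 : Real.log X ≤ 12000 * Real.log (T + 1) := by
      have := c_a1_log (T + 1) X 12000 (by omega) h3.le
      push_cast at this
      exact this
    clear hT1 h2 h3 h4 hT
    obtain ⟨r, hr⟩ : ∃ r : ℝ, r = Real.sqrt (T + 1) := ⟨_, rfl⟩
    have hr0 : 0 < r := by rw [hr]; positivity
    have hrr : r ^ 2 = T + 1 := by rw [hr]; exact Real.sq_sqrt (by positivity)
    have a2 : Real.log (T + 1) ≤ 2 * (r - 1) := by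
      rw [← hrr, Real.log_pow]
      push_cast
      linarith [Real.log_le_sub_one_of_pos hr0]
    have a3 : (24001 : ℝ) ≤ r := by
      rw [hr]
      apply Real.le_sqrt_of_sq_le
      linarith
    nlinarith
  · have a1 : Real.log X ≤ 12001 * Real.log T := by
      have := c_a1_log T X 12001 (by omega) (h3.trans_le h4).le
      push_cast at this
      exact this
    clear hT1 h2 h3 h4 hT
    rw [div_le_iff₀ (by norm_num)]
    linarith

private theorem c_a2_ev {P : ℝ → Prop} (h : ∀ᶠ t : ℝ in Filter.atTop, P t) :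
    ∀ᶠ X : ℕ in Filter.atTop, P (Real.log (Real.log X)) ∧ Real.exp (Real.log (Real.log X)) = Real.log X ∧
      0 < Real.log X := by
  have h1 : Filter.Tendsto (fun X : ℕ => Real.log (Real.log X)) Filter.atTop Filter.atTop :=
    Real.tendsto_log_atTop.comp (Real.tendsto_log_atTop.comp tendsto_natCast_atTop_atTop)
  filter_upwards [h1.eventually h, Filter.eventually_ge_atTop 3] with X hX hX3
  have hL : 0 < Real.log X := Real.log_pos (by exact_mod_cast (show 1 < X by omega))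
  exact ⟨hX, Real.exp_log hL, hL⟩

-- MODULE c_a2
/-- the term with many prime factors -/
theorem asym1 (C c1 : ℝ) (hC : 0 < C) (hc1 : 0 < c1) : ∃ c : ℝ, 0 < c ∧ ∀ᶠ X : ℕ in Filter.atTop, ∀ V : ℝ, 0 ≤ V →
    V ≤ Real.log (Real.log (X + 1)) + C → ∀ K : ℕ, K = ⌊c1 * Real.log X * Real.log (Real.log (Real.log X)) /
      Real.log (Real.log X) ^ 2⌋₊ →
    2 * (X + 1) * V ^ K / K.factorial ≤
      X * Real.exp (-(c * Real.log X * Real.log (Real.log (Real.log X)) / Real.log (Real.log X))) := by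
  refine ⟨c1 / 8, by positivity, ?_⟩
  have ev : ∀ᶠ t : ℝ in Filter.atTop, 3 ≤ t ∧ 1 ≤ Real.log t ∧ C + 1 ≤ t ∧ 2 / c1 + 8 * Real.log 4 / c1 ≤ Real.exp t / t ^ 2 ∧
      256 * Real.exp 1 / (8 * c1) * 8 ≤ 8 * (Real.exp (t / 2) / (t / 2) ^ 3) := by
    have g1 := Real.tendsto_exp_div_pow_atTop 2
    have g2 := (Real.tendsto_exp_div_pow_atTop 3).comp (Filter.tendsto_id.atTop_div_const (show (0 : ℝ) < 2 by norm_num))
    filter_upwards [Filter.eventually_ge_atTop 3, Real.tendsto_log_atTop.eventually_ge_atTop 1,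
      Filter.eventually_ge_atTop (C + 1), g1.eventually_ge_atTop (2 / c1 + 8 * Real.log 4 / c1),
      g2.eventually_ge_atTop (256 * Real.exp 1 / (8 * c1))] with t h1 h2 h3 h4 h5
    refine ⟨h1, h2, h3, h4, ?_⟩
    simp only [Function.comp, id] at h5
    linarith
  filter_upwards [c_a2_ev ev, Filter.eventually_ge_atTop 3] with X hX hX3 V hV0 hV K hK
  obtain ⟨⟨ht3, hu, htC, hE1, hE2⟩, hLt, hL0⟩ := hX
  set L := Real.log X with hL
  set t := Real.log L with ht
  set u := Real.log t with hu'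
  rw [hLt] at hE1
  have ht0 : 0 < t := by linarith
  have hXr : (3 : ℝ) ≤ X := by exact_mod_cast hX3
  obtain ⟨y, hy⟩ : ∃ y, y = c1 * L * u / t ^ 2 := ⟨_, rfl⟩
  rw [← hy] at hK
  have hlog4 : 0 < Real.log 4 := Real.log_pos (by norm_num)
  have hLt2 : 2 / c1 ≤ L / t ^ 2 := by
    have : 0 ≤ 8 * Real.log 4 / c1 := by positivity
    linarith
  have hLt3 : 8 * Real.log 4 / c1 ≤ L / t ^ 2 := by
    have : 0 ≤ 2 / c1 := by positivity
    linarith
  have hyL : c1 * (L / t ^ 2) ≤ y := by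
    have h1 : L / t ^ 2 ≤ L / t ^ 2 * u := le_mul_of_one_le_right (by positivity) hu
    have e : y = c1 * (L / t ^ 2 * u) := by rw [hy]; ring
    rw [e]
    exact mul_le_mul_of_nonneg_left h1 hc1.le
  have hy2 : 2 ≤ y := by
    have := mul_le_mul_of_nonneg_left hLt2 hc1.le
    rw [mul_div_cancel₀ _ hc1.ne'] at this
    linarith
  have hKy : y / 2 ≤ K := by
    have := Nat.lt_floor_add_one y
    rw [← hK] at this
    linarith
  have hK0 : (0 : ℝ) < K := by linarith
  have hVt : V ≤ 2 * t := by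
    have h1 : Real.log (X + 1) ≤ 2 * L := by
      have h2 : (X : ℝ) + 1 ≤ (X : ℝ) ^ 2 := by nlinarith
      calc Real.log (X + 1) ≤ Real.log ((X : ℝ) ^ 2) := Real.log_le_log (by positivity) h2
        _ = 2 * L := by rw [Real.log_pow, hL]; norm_num
    have h3 : Real.log (Real.log (X + 1)) ≤ t + 1 := by
      have h4 : 0 < Real.log (X + 1) := Real.log_pos (by linarith)
      calc Real.log (Real.log (X + 1)) ≤ Real.log (2 * L) := Real.log_le_log h4 h1
        _ = Real.log 2 + t := by rw [Real.log_mul (by norm_num) hL0.ne', ht]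
        _ ≤ t + 1 := by linarith [Real.log_two_lt_d9]
    linarith
  have hexp : V * Real.exp 1 * Real.exp (t / 2) ≤ K := by
    have h5 : V * Real.exp 1 * Real.exp (t / 2) ≤ 2 * t * Real.exp 1 * Real.exp (t / 2) := by
      have : 0 ≤ Real.exp 1 * Real.exp (t / 2) := by positivity
      nlinarith
    have h6 : 2 * t * Real.exp 1 * Real.exp (t / 2) ≤ c1 * (L / t ^ 2) / 2 := by
      have h7 : L = Real.exp (t / 2) * Real.exp (t / 2) := by
        rw [← Real.exp_add, add_halves, hLt]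
      have h8 : 4 * Real.exp 1 * t ^ 3 ≤ c1 * Real.exp (t / 2) := by
        have h9 : 8 * (Real.exp (t / 2) / (t / 2) ^ 3) = 64 * Real.exp (t / 2) / t ^ 3 := by
          field_simp; ring
        rw [h9, le_div_iff₀ (by positivity)] at hE2
        have h10 : 256 * Real.exp 1 / (8 * c1) * 8 * t ^ 3 = 256 * Real.exp 1 * t ^ 3 / c1 := by
          field_simp
        rw [h10, div_le_iff₀ hc1] at hE2
        have h11 : 0 < Real.exp 1 * t ^ 3 := by positivity
        nlinarith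
      rw [h7, mul_div_assoc', le_div_iff₀ (by norm_num), le_div_iff₀ (by positivity)]
      have h12 : 0 ≤ Real.exp (t / 2) := (Real.exp_pos _).le
      nlinarith [mul_le_mul_of_nonneg_right h8 h12]
    linarith
  have hfac : V ^ K / K.factorial ≤ Real.exp (-(t / 2)) ^ K := by
    have h1 := Real.pow_div_factorial_le_exp (K : ℝ) hK0.le K
    have h2 : (0 : ℝ) < K.factorial := by exact_mod_cast K.factorial_pos
    have h3 : V ≤ Real.exp (-(t / 2)) * (K / Real.exp 1) := by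
      rw [Real.exp_neg, ← div_eq_inv_mul, div_div, le_div_iff₀ (by positivity)]
      linarith
    calc V ^ K / K.factorial ≤ (Real.exp (-(t / 2)) * (K / Real.exp 1)) ^ K / K.factorial :=
          div_le_div_of_nonneg_right (pow_le_pow_left₀ hV0 h3 K) h2.le
      _ = Real.exp (-(t / 2)) ^ K * ((K : ℝ) ^ K / K.factorial / Real.exp 1 ^ K) := by
          rw [mul_pow, div_pow]; ring
      _ ≤ Real.exp (-(t / 2)) ^ K * 1 := by
          refine mul_le_mul_of_nonneg_left ?_ (by positivity)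
          rw [div_le_one (by positivity), ← Real.exp_nat_mul, mul_one]
          exact h1
      _ = _ := mul_one _
  have hfac2 : Real.exp (-(t / 2)) ^ K ≤ Real.exp (-(c1 / 4 * L * u / t)) := by
    rw [← Real.exp_nat_mul]
    apply Real.exp_le_exp.2
    have h1 : c1 / 4 * L * u / t = y / 2 * (t / 2) := by
      rw [hy]; field_simp; ring
    rw [h1]
    nlinarith
  have hz : Real.log 4 ≤ c1 / 8 * L * u / t := by
    have h1 : c1 / 8 * L * u / t = y * t / 8 := by
      rw [hy]; field_simp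
    rw [h1]
    have h2 := mul_le_mul_of_nonneg_left hLt3 hc1.le
    rw [mul_div_cancel₀ _ hc1.ne'] at h2
    nlinarith
  have hX0 : (0 : ℝ) ≤ X := by linarith
  calc 2 * ((X : ℝ) + 1) * V ^ K / K.factorial = 2 * (X + 1) * (V ^ K / K.factorial) := by ring
    _ ≤ 4 * X * Real.exp (-(c1 / 4 * L * u / t)) := by
        have h1 := hfac.trans hfac2
        have h2 : 0 ≤ V ^ K / K.factorial := by positivity
        have h3 : 2 * ((X : ℝ) + 1) ≤ 4 * X := by linarith
        exact mul_le_mul h3 h1 h2 (by positivity)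
    _ = X * (Real.exp (Real.log 4) * Real.exp (-(c1 / 4 * L * u / t))) := by
        rw [Real.exp_log (by norm_num)]; ring
    _ ≤ X * Real.exp (-(c1 / 8 * L * u / t)) := by
        refine mul_le_mul_of_nonneg_left ?_ hX0
        rw [← Real.exp_add]
        apply Real.exp_le_exp.2
        have : c1 / 4 * L * u / t = c1 / 8 * L * u / t + c1 / 8 * L * u / t := by ring
        linarith

-- MODULE c_a3
/-- the term with smooth totients -/
theorem asym2 (C : ℝ) (hC : 0 < C) : ∃ c c1 : ℝ, 0 < c ∧ 0 < c1 ∧ ∀ᶠ X : ℕ in Filter.atTop, ∀ (T K : ℕ) (s V : ℝ),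
    Real.log X / 12001 ≤ Real.log T → 1 ≤ T → K = ⌊c1 * Real.log X * Real.log (Real.log (Real.log X)) /
      Real.log (Real.log X) ^ 2⌋₊ → Real.log (Real.log (Real.log X)) / (9 * Real.log (Real.log X)) ≤ s →
    1 ≤ V → V ≤ 3 * (1 + Real.log X) * Real.exp (C * (Real.log (9 * Real.log (Real.log X)) + Real.log (Real.log X) + 1)) →
    4 * X * ((T : ℝ) ^ 60) ^ (-s) * (K * V ^ K) ≤
      X * Real.exp (-(c * Real.log X * Real.log (Real.log (Real.log X)) / Real.log (Real.log X))) := by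
  obtain ⟨c2, hc2⟩ : ∃ c2 : ℝ, c2 = 60 / (9 * 12001) := ⟨_, rfl⟩
  have hc20 : 0 < c2 := by rw [hc2]; norm_num
  obtain ⟨c1, hc1⟩ : ∃ c1 : ℝ, c1 = c2 / (4 * (3 + 10 * C)) := ⟨_, rfl⟩
  have hc10 : 0 < c1 := by rw [hc1]; positivity
  refine ⟨c2 / 2, c1, by positivity, hc10, ?_⟩
  have hlog4 : 0 < Real.log 4 := Real.log_pos (by norm_num)
  have ev : ∀ᶠ t : ℝ in Filter.atTop, 3 ≤ t ∧ 1 ≤ Real.log t ∧ 4 * Real.log 4 / c2 ≤ Real.exp t / t ^ 2 := by
    have g1 := Real.tendsto_exp_div_pow_atTop 2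
    filter_upwards [Filter.eventually_ge_atTop 3, Real.tendsto_log_atTop.eventually_ge_atTop 1,
      g1.eventually_ge_atTop (4 * Real.log 4 / c2)] with t h1 h2 h3
    exact ⟨h1, h2, h3⟩
  filter_upwards [c_a2_ev ev, Filter.eventually_ge_atTop 3] with X hX hX3 T K s V hT hT1 hK hs hV1 hV
  obtain ⟨⟨ht3, hu, hE1⟩, hLt, hL0⟩ := hX
  set L := Real.log X with hL
  set t := Real.log L with ht
  set u := Real.log t with hu'
  rw [hLt] at hE1
  have ht0 : 0 < t := by linarith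
  have hL1 : 1 ≤ L := by
    rw [← hLt]
    exact Real.one_le_exp ht0.le
  obtain ⟨y, hy⟩ : ∃ y, y = c1 * L * u / t ^ 2 := ⟨_, rfl⟩
  rw [← hy] at hK
  have hy0 : 0 ≤ y := by rw [hy]; positivity
  have hKy : (K : ℝ) ≤ y := by rw [hK]; exact Nat.floor_le hy0
  have hlogV : Real.log V ≤ (2 + 10 * C) * t := by
    have h1 : Real.log V ≤ Real.log (3 * (1 + L) * Real.exp (C * (Real.log (9 * t) + t + 1))) :=
      Real.log_le_log (by linarith) hV
    rw [Real.log_mul (by positivity) (Real.exp_pos _).ne', Real.log_exp,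
      Real.log_mul (by norm_num) (by positivity)] at h1
    have h2 : Real.log 3 ≤ 2 - Real.log 2 := by
      have : Real.log 3 + Real.log 2 = Real.log 6 := by
        rw [← Real.log_mul (by norm_num) (by norm_num)]; norm_num
      have h6 : Real.log 6 ≤ 2 := by
        rw [Real.log_le_iff_le_exp (by norm_num)]
        have := Real.exp_one_gt_d9
        have e : Real.exp 2 = Real.exp 1 * Real.exp 1 := by rw [← Real.exp_add]; norm_num
        rw [e]; nlinarith
      linarith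
    have h3 : Real.log (1 + L) ≤ Real.log 2 + t := by
      calc Real.log (1 + L) ≤ Real.log (2 * L) := Real.log_le_log (by positivity) (by linarith)
        _ = Real.log 2 + t := by rw [Real.log_mul (by norm_num) hL0.ne', ht]
    have h4 : Real.log (9 * t) ≤ 9 * t - 1 := Real.log_le_sub_one_of_pos (by positivity)
    have h5 : C * (Real.log (9 * t) + t + 1) ≤ C * (10 * t) :=
      mul_le_mul_of_nonneg_left (by linarith) hC.le
    linarith
  have hlogV0 : 0 ≤ Real.log V := Real.log_nonneg hV1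
  obtain ⟨z, hz⟩ : ∃ z, z = L * u / t := ⟨_, rfl⟩
  have hyz : y * t = c1 * z := by rw [hy, hz]; field_simp
  have hz4 : Real.log 4 ≤ c2 / 4 * z := by
    have h1 : L / t ^ 2 ≤ z := by
      rw [hz, div_le_div_iff₀ (by positivity) ht0]
      nlinarith [mul_pos hL0 ht0, mul_nonneg (mul_pos hL0 ht0).le (show 0 ≤ u * t - 1 by nlinarith)]
    have h2 := hE1.trans h1
    rw [div_le_iff₀ hc20] at h2
    linarith
  have hmain : (4 : ℝ) * (K * V ^ K) ≤ Real.exp (c2 / 2 * z) := by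
    have h1 : (K : ℝ) ≤ Real.exp K := by linarith [Real.add_one_le_exp (K : ℝ)]
    have h2 : V ^ K = Real.exp (K * Real.log V) := by
      rw [Real.exp_nat_mul, Real.exp_log (by linarith)]
    calc (4 : ℝ) * (K * V ^ K) ≤ Real.exp (Real.log 4) * (Real.exp K * Real.exp (K * Real.log V)) := by
          rw [Real.exp_log (by norm_num), h2]
          have := mul_le_mul_of_nonneg_right h1 (Real.exp_pos (K * Real.log V)).le
          linarith
      _ = Real.exp (Real.log 4 + (K + K * Real.log V)) := by rw [Real.exp_add, Real.exp_add]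
      _ ≤ Real.exp (c2 / 2 * z) := by
          apply Real.exp_le_exp.2
          have hK0 : (0 : ℝ) ≤ K := Nat.cast_nonneg K
          have h3 : (K : ℝ) + K * Real.log V ≤ y * ((3 + 10 * C) * t) := by
            have h4 : 1 + Real.log V ≤ (3 + 10 * C) * t := by linarith
            calc (K : ℝ) + K * Real.log V = K * (1 + Real.log V) := by ring
              _ ≤ y * ((3 + 10 * C) * t) := mul_le_mul hKy h4 (by linarith) hy0
          have h5 : y * ((3 + 10 * C) * t) = c2 / 4 * z := by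
            rw [show y * ((3 + 10 * C) * t) = (y * t) * (3 + 10 * C) by ring, hyz, hc1]
            field_simp
          linarith
  have hTs : ((T : ℝ) ^ 60) ^ (-s) ≤ Real.exp (-(c2 * z)) := by
    have hTr : (0 : ℝ) < T := by exact_mod_cast (show 0 < T by omega)
    rw [Real.rpow_def_of_pos (by positivity), Real.log_pow]
    apply Real.exp_le_exp.2
    have h1 : 0 ≤ u / (9 * t) := by positivity
    have h2 : L / 12001 * (u / (9 * t)) ≤ Real.log T * s :=
      mul_le_mul hT hs h1 (le_trans (by positivity) hT)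
    have h3 : c2 * z = 60 * (L / 12001 * (u / (9 * t))) := by
      rw [hc2, hz]; field_simp
    rw [h3]
    push_cast
    linarith
  have hX0 : (0 : ℝ) ≤ X := Nat.cast_nonneg X
  have e1 : c2 / 2 * L * u / t = c2 / 2 * z := by rw [hz]; ring
  rw [e1]
  calc 4 * (X : ℝ) * ((T : ℝ) ^ 60) ^ (-s) * (K * V ^ K) = X * (((T : ℝ) ^ 60) ^ (-s) * (4 * (K * V ^ K))) := by ring
    _ ≤ X * (Real.exp (-(c2 * z)) * Real.exp (c2 / 2 * z)) := by
        refine mul_le_mul_of_nonneg_left ?_ hX0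
        exact mul_le_mul hTs hmain (by positivity) (Real.exp_pos _).le
    _ = X * Real.exp (-(c2 / 2 * z)) := by
        rw [← Real.exp_add]; congr 2; ring

-- MODULE c_a4
/-- **THEOREM C** -/
theorem count_sol : ∃ c : ℝ, 0 < c ∧ ∃ X₀ : ℕ, ∀ X : ℕ, X₀ ≤ X → ((Sol X).card : ℝ) ≤
    X * Real.exp (-(c * Real.log X * Real.log (Real.log (Real.log X)) / Real.log (Real.log X))) := by
  obtain ⟨C0, hC0, hpp⟩ := sum_inv_pp
  obtain ⟨C1, hC1, hVV⟩ := VV_le
  obtain ⟨c, c1, hc, hc1, h2⟩ := asym2 C1 hC1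
  obtain ⟨c', hc', h1⟩ := asym1 C0 c1 hC0 hc1
  obtain ⟨m, hm⟩ : ∃ m : ℝ, m = min (1 / 12001) (min c c') := ⟨_, rfl⟩
  have hm0 : 0 < m := by rw [hm]; exact lt_min (by norm_num) (lt_min hc hc')
  have hm1 : m ≤ 1 / 12001 := hm ▸ min_le_left _ _
  have hm2 : m ≤ c := hm ▸ (min_le_right _ _).trans (min_le_left _ _)
  have hm3 : m ≤ c' := hm ▸ (min_le_right _ _).trans (min_le_right _ _)
  refine ⟨m / 2, by positivity, ?_⟩
  rw [← Filter.eventually_atTop (p := fun X : ℕ => ((Sol X).card : ℝ) ≤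
    X * Real.exp (-(m / 2 * Real.log X * Real.log (Real.log (Real.log X)) / Real.log (Real.log X))))]
  obtain ⟨W, hW⟩ : ∃ W : ℕ, 2 ^ 12001 ≤ W := ⟨_, le_rfl⟩
  have ev : ∀ᶠ t : ℝ in Filter.atTop, 3 ≤ t ∧ 1 ≤ Real.log t ∧ c1 ≤ t ∧ 2 * Real.log 3 / m ≤ Real.exp t / t ^ 2 ∧
      (W : ℝ) ≤ Real.exp t ∧ 100 ≤ Real.exp t := by
    have g1 := Real.tendsto_exp_div_pow_atTop 2
    filter_upwards [Filter.eventually_ge_atTop 3, Real.tendsto_log_atTop.eventually_ge_atTop 1,
      Filter.eventually_ge_atTop c1, g1.eventually_ge_atTop (2 * Real.log 3 / m),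
      Real.tendsto_exp_atTop.eventually_ge_atTop (W : ℝ),
      Real.tendsto_exp_atTop.eventually_ge_atTop 100] with t a1 a2 a3 a4 a5 a6
    exact ⟨a1, a2, a3, a4, a5, a6⟩
  filter_upwards [c_a2_ev ev, Filter.eventually_ge_atTop 3, exists_T, h1, h2] with X hX hX3 hXT hA1 hA2
  obtain ⟨⟨ht3, hu, htc, hE1, hE2, hE3⟩, hLt, hL0⟩ := hX
  obtain ⟨T, hT1000, hTL, hTX, hTX2, hTlog⟩ := hXT
  set L := Real.log X with hL
  set t := Real.log L with ht
  set u := Real.log t with hu'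
  rw [hLt] at hE1 hE2 hE3
  have ht0 : 0 < t := by linarith
  have hut : u ≤ t / 2 := by
    have a1 : u = Real.log (t / 2) + Real.log 2 := by
      rw [hu', ← Real.log_mul (by positivity) (by norm_num)]; congr 1; ring
    have a2 := Real.log_le_sub_one_of_pos (show 0 < t / 2 by positivity)
    linarith [Real.log_two_lt_d9]
  -- the parameters
  obtain ⟨w, hw⟩ : ∃ w : ℕ, w = ⌊L ^ 9⌋₊ := ⟨_, rfl⟩
  have hw1 : (w : ℝ) ≤ L ^ 9 := by rw [hw]; exact Nat.floor_le (by positivity)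
  have hw2 : L ^ 9 - 1 ≤ w := by
    have := Nat.lt_floor_add_one (L ^ 9)
    rw [← hw] at this
    linarith
  have hL6 : (1 : ℝ) ≤ L ^ 6 := one_le_pow₀ (by linarith)
  have hL3 : (1000000 : ℝ) ≤ L ^ 3 := by
    calc (1000000 : ℝ) = 100 ^ 3 := by norm_num
      _ ≤ L ^ 3 := pow_le_pow_left₀ (by norm_num) hE3 3
  have hw3 : 4096 * L ^ 6 ≤ w := by
    have : L ^ 9 = L ^ 6 * L ^ 3 := by ring
    nlinarith
  have hw4 : L ≤ w := by
    have : L ≤ L ^ 6 := le_self_pow₀ (by linarith) (by norm_num)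
    linarith
  have hwr0 : (0 : ℝ) < w := by linarith
  have hlogw1 : Real.log w ≤ 9 * t := by
    calc Real.log w ≤ Real.log (L ^ 9) := Real.log_le_log hwr0 hw1
      _ = 9 * t := by rw [Real.log_pow, ← ht]; norm_num
  have hlogw2 : 6 * t ≤ Real.log w := by
    calc 6 * t = Real.log (L ^ 6) := by rw [Real.log_pow, ← ht]; norm_num
      _ ≤ Real.log w := Real.log_le_log (by positivity) (by linarith)
  have hlogw0 : 0 < Real.log w := by linarith
  have hwn : 2 ^ 12001 ≤ w := by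
    refine hW.trans ?_
    have : (W : ℝ) ≤ w := hE2.trans hw4
    exact_mod_cast this
  have hwA : (4 * (1 + L) * (1 + L)) ^ 3 ≤ w := by
    have a1 : (4 * (1 + L) * (1 + L)) ≤ 16 * L ^ 2 := by nlinarith
    calc (4 * (1 + L) * (1 + L)) ^ 3 ≤ (16 * L ^ 2) ^ 3 := pow_le_pow_left₀ (by positivity) a1 3
      _ = 4096 * L ^ 6 := by ring
      _ ≤ w := hw3
  have hw3n : 3 ≤ w := by
    have : ((3 : ℕ) : ℝ) ≤ w := by push_cast; linarith
    exact_mod_cast this
  obtain ⟨s, hs⟩ : ∃ s, s = u / Real.log w := ⟨_, rfl⟩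
  have hs0 : 0 ≤ s := by rw [hs]; positivity
  have hsw : s * Real.log w = Real.log t := by
    rw [hs, div_mul_cancel₀ _ hlogw0.ne', hu']
  have hs1 : s ≤ 1 / 10 := by
    rw [hs, div_le_iff₀ hlogw0]; linarith
  have hs2 : u / (9 * t) ≤ s := by
    rw [hs]
    exact div_le_div_of_nonneg_left (by linarith) hlogw0 hlogw1
  obtain ⟨K, hK⟩ : ∃ K : ℕ, K = ⌊c1 * L * u / t ^ 2⌋₊ := ⟨_, rfl⟩
  have hKT : K ≤ T := by
    have a1 : (K : ℝ) ≤ c1 * L * u / t ^ 2 := by rw [hK]; exact Nat.floor_le (by positivity)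
    have a2 : c1 * L * u / t ^ 2 ≤ L := by
      rw [div_le_iff₀ (by positivity)]
      have a3 : c1 * u ≤ t * t := mul_le_mul htc (by linarith) (by linarith) ht0.le
      nlinarith
    have a4 : (K : ℝ) ≤ T := by linarith
    exact_mod_cast a4
  -- the terms
  have hV1 : 1 ≤ VV X w s := by
    rw [VV]
    have : 0 ≤ ∑ P ∈ PP X, (sm w P.totient : ℝ) ^ s / P := sum_nonneg fun P _ => by positivity
    linarith
  have hV2 := hVV X w t s hX3 hw3n (by linarith) hs0 hs1 hsw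
  rw [← hL] at hV2
  have hV3 : VV X w s ≤ 3 * (1 + L) * Real.exp (C1 * (Real.log (9 * t) + t + 1)) := by
    refine hV2.trans (mul_le_mul_of_nonneg_left (Real.exp_le_exp.2 (mul_le_mul_of_nonneg_left ?_ hC1.le)) (by positivity))
    have : Real.log (Real.log w) ≤ Real.log (9 * t) := Real.log_le_log hlogw0 hlogw1
    linarith
  have B2 := hA2 T K s (VV X w s) hTlog (by omega) hK hs2 hV1 hV3
  have hS0 : 0 ≤ ∑ P ∈ PP (X + 1), (1 : ℝ) / P := sum_nonneg fun P _ => by positivity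
  have hS1 : ∑ P ∈ PP (X + 1), (1 : ℝ) / P ≤ Real.log (Real.log (X + 1)) + C0 := by
    have := hpp (X + 1) (by omega)
    push_cast at this
    exact this
  have B1 := hA1 _ hS0 hS1 K hK
  have hmain := main_ineq X T w K s hs0 hT1000 (by rw [← hL]; exact hTL) hTX hTX2 hKT hwn (by rw [← hL]; exact hwA)
  have hX0 : (0 : ℝ) ≤ X := Nat.cast_nonneg X
  have hTr : (0 : ℝ) < T := by exact_mod_cast (show 0 < T by omega)
  obtain ⟨z, hz⟩ : ∃ z, z = L * u / t := ⟨_, rfl⟩
  have hz0 : 0 ≤ z := by rw [hz]; positivity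
  have hzL : z ≤ L := by
    rw [hz, div_le_iff₀ ht0]
    exact mul_le_mul_of_nonneg_left (by linarith) hL0.le
  have B0 : (X : ℝ) / T ≤ X * Real.exp (-(m * z)) := by
    rw [div_eq_mul_inv]
    refine mul_le_mul_of_nonneg_left ?_ hX0
    rw [Real.exp_neg]
    refine inv_anti₀ (Real.exp_pos _) ?_
    rw [← Real.le_log_iff_exp_le hTr]
    refine le_trans ?_ hTlog
    have a1 : m * z ≤ 1 / 12001 * L := mul_le_mul hm1 hzL hz0 (by norm_num)
    linarith
  have hmono : ∀ q : ℝ, m ≤ q → (X : ℝ) * Real.exp (-(q * L * u / t)) ≤ X * Real.exp (-(m * z)) := by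
    intro q hq
    refine mul_le_mul_of_nonneg_left (Real.exp_le_exp.2 ?_) hX0
    have e : q * L * u / t = q * z := by rw [hz]; ring
    rw [e]
    have := mul_le_mul_of_nonneg_right hq hz0
    linarith
  have hlog3 : 0 < Real.log 3 := Real.log_pos (by norm_num)
  have hz3 : Real.log 3 ≤ m / 2 * z := by
    have a1 : L / t ^ 2 ≤ z := by
      rw [hz, div_le_div_iff₀ (by positivity) ht0]
      nlinarith [mul_pos hL0 ht0, mul_nonneg (mul_pos hL0 ht0).le (show 0 ≤ u * t - 1 by nlinarith)]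
    have a2 := hE1.trans a1
    rw [div_le_iff₀ hm0] at a2
    linarith
  have e1 : m / 2 * L * u / t = m / 2 * z := by rw [hz]; ring
  rw [e1]
  calc ((Sol X).card : ℝ) ≤ X * Real.exp (-(m * z)) + X * Real.exp (-(m * z)) + X * Real.exp (-(m * z)) := by
        have b1 := B1.trans (hmono c' hm3)
        have b2 := B2.trans (hmono c hm2)
        linarith
    _ = X * (Real.exp (Real.log 3) * Real.exp (-(m * z))) := by
        rw [Real.exp_log (by norm_num)]; ring
    _ ≤ X * Real.exp (-(m / 2 * z)) := by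
        refine mul_le_mul_of_nonneg_left ?_ hX0
        rw [← Real.exp_add]
        apply Real.exp_le_exp.2
        linarith

end Pool.Agent.Cnt
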