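import Pool.Agent.Cnt.Defs

/-! # Theorem C: smooth and rough parts -/

set_option autoImplicit false

namespace Pool.Agent.Cnt

open Finset

-- MODULE c_sm1
theorem sm_pos (w v : ℕ) : 0 < sm w v := by
  unfold sm
  refine Finset.prod_pos fun p hp => ?_
  exact pow_pos (Nat.prime_of_mem_primeFactors (Finset.mem_filter.1 hp).1).pos _

theorem ro_pos (w v : ℕ) : 0 < ro w v := by
  unfold ro
  refine Finset.prod_pos fun p hp => ?_
  exact pow_pos (Nat.prime_of_mem_primeFactors (Finset.mem_filter.1 hp).1).pos _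

theorem sm_mul_ro (w : ℕ) {v : ℕ} (hv : v ≠ 0) : sm w v * ro w v = v := by
  unfold sm ro
  have h1 : v.primeFactors.filter (fun p => w < p) = v.primeFactors.filter (fun p => ¬ p ≤ w) := by
    refine Finset.filter_congr fun p _ => ?_
    exact not_le.symm
  rw [h1, Finset.prod_filter_mul_prod_filter_not]
  exact Nat.prod_factorization_pow_eq_self hv

theorem ro_dvd (w : ℕ) {v : ℕ} (hv : v ≠ 0) : ro w v ∣ v :=
  Dvd.intro_left _ (sm_mul_ro w hv)

theorem ro_prime {w v p : ℕ} (hp : p.Prime) (h : p ∣ ro w v) : w < p := by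
  unfold ro at h
  obtain ⟨q, hq, hpq⟩ := (Prime.dvd_finsetProd_iff hp.prime _).1 h
  obtain ⟨hq1, hq2⟩ := Finset.mem_filter.1 hq
  have h2 : p ∣ q := hp.dvd_of_dvd_pow hpq
  have h3 : p = q := (Nat.prime_dvd_prime_iff_eq hp (Nat.prime_of_mem_primeFactors hq1)).1 h2
  rw [h3]
  exact hq2

-- MODULE c_sm2
private theorem c_sm2_alt (w v : ℕ) :
    sm w v = ∏ p ∈ (range (w + 1)).filter Nat.Prime, p ^ v.factorization p := by
  unfold sm
  refine Finset.prod_subset ?_ ?_
  · intro p hp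
    obtain ⟨h1, h2⟩ := Finset.mem_filter.1 hp
    exact Finset.mem_filter.2 ⟨Finset.mem_range.2 (by omega), Nat.prime_of_mem_primeFactors h1⟩
  · intro p hp hnp
    obtain ⟨h1, h2⟩ := Finset.mem_filter.1 hp
    have h3 : p ∉ v.primeFactors := by
      intro h
      exact hnp (Finset.mem_filter.2 ⟨h, by have := Finset.mem_range.1 h1; omega⟩)
    have h4 : v.factorization p = 0 := by
      rw [← Nat.support_factorization] at h3
      exact Finsupp.notMem_support_iff.1 h3
    rw [h4, pow_zero]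

theorem sm_mul (w : ℕ) {a b : ℕ} (ha : a ≠ 0) (hb : b ≠ 0) : sm w (a * b) = sm w a * sm w b := by
  rw [c_sm2_alt, c_sm2_alt, c_sm2_alt, ← Finset.prod_mul_distrib]
  refine Finset.prod_congr rfl fun p _ => ?_
  rw [Nat.factorization_mul ha hb, Finsupp.add_apply, pow_add]

theorem sm_le (w : ℕ) {v : ℕ} (hv : v ≠ 0) : sm w v ≤ v :=
  Nat.le_of_dvd (Nat.pos_of_ne_zero hv) (Dvd.intro _ (sm_mul_ro w hv))

-- MODULE c_om
theorem Om_mul {a b : ℕ} (ha : a ≠ 0) (hb : b ≠ 0) : Om (a * b) = Om a + Om b := by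
  unfold Om
  rw [(Nat.perm_primeFactorsList_mul ha hb).length_eq, List.length_append]

/-- all prime factors `> w` -/
theorem pow_Om_le {w d : ℕ} (hd : d ≠ 0) (h : ∀ p : ℕ, p.Prime → p ∣ d → w < p) : w ^ Om d ≤ d := by
  unfold Om
  have h1 := List.pow_card_le_prod d.primeFactorsList w
    (fun x hx => (h x (Nat.prime_of_mem_primeFactorsList hx) (Nat.dvd_of_mem_primeFactorsList hx)).le)
  rwa [Nat.prod_primeFactorsList hd] at h1

theorem om_mono {a b : ℕ} (hb : b ≠ 0) (h : a ∣ b) : om a ≤ om b := by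
  unfold om
  exact Finset.card_le_card (Nat.primeFactors_mono h hb)

end Pool.Agent.Cnt
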